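import Pool.Agent.Lib.MP_0430e4_lc.YP.Ing
import Pool.Agent.Lib.MP_0430e4_lc.YE.E1

/-!
# EB: the multiplier `E` (owner helper66, proofs helper74)
-/

set_option autoImplicit false

namespace Pool.Agent.Lib.MP_0430e4_lc.YP

open Complex
open BY AC YG

theorem exists_EP {η1 : ℝ} (h : 0 < η1) : ∃ C4 : ℝ, 0 < C4 ∧ ∀ N : ℕ, Even N →
    ∃ E : ℂ → ℂ, EP η1 N C4 E := by
  obtain ⟨C, hC, H⟩ := YE.exists_E1' h
  refine ⟨C, hC, fun N hN => ?_⟩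
  obtain ⟨E, hE⟩ := YE.exists_IsE h hN
  refine ⟨E, hE.diff, fun z hz => hE.conj h hz, hE.at_zero h, ?_, fun z hz => hE.le_cosh h hz,
    fun z hz => H N E hN hE z hz⟩
  rw [(hE.hasDerivAt_zero h).deriv]
  have : A0 η1 = YE.a0 η1 := rfl
  rw [this]
  push_cast
  rfl

theorem A0_pos {η : ℝ} (h : 0 < η) : 0 < A0 η := YE.a0_pos h

/-- the left gain near `0` -/
theorem EP.left_gain {η1 : ℝ} (h : 0 < η1) {N : ℕ} (hN : 0 < N) {C4 : ℝ} {E : ℂ → ℂ}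
    (hE : EP η1 N C4 E) {θ : ℝ} (hθ : 0 < θ) (_hθ1 : θ < 1) :
    ∃ z0 : ℝ, 0 < z0 ∧ z0 < 1 ∧ ∀ z : ℂ, ‖z‖ ≤ z0 → z.re ≤ 0 →
      ‖E z‖ ≤ Real.exp ((1 - θ) * (N / A0 η1) * z.re) := by
  have ha := A0_pos h
  have hNr : (0 : ℝ) < N := by exact_mod_cast hN
  refine YE.left_gen hE.diff hE.zero (M := N / A0 η1) (by positivity) hE.der (YE.tip_pos h)
    (YE.tip_lt_one h) (fun y hy => ?_) hθ
  obtain ⟨t, _, ht⟩ := YE.exists_slit h hy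
  have h1 : om η1 ((y : ℂ) * I) = 0 := by
    rw [← ht, om_Z h (by simp) (by simpa using h.le)]
    simp
  have h2 : ‖(y : ℂ) * I‖ < 1 := by
    rw [← ht]
    exact Z_norm_lt_one h (by simp) (by simpa using h)
  have h3 := hE.bnd _ h2
  rw [h1] at h3
  simpa using h3

end Pool.Agent.Lib.MP_0430e4_lc.YP
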