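import Pool.Agent.Lib.MP_0430e4_lc.AC.PA2
import Pool.Agent.Lib.MP_0430e4_lc.AC.HX3
import Pool.Agent.Lib.MP_0430e4_lc.AC.YT7
import Pool.Agent.Lib.MP_0430e4_lc.YG.B3

/-!
# ALLCODES, branch I (`δ > δ*`): definitions

`t > 0`, `η = t / 2`, `c = cval t`, `δ = (1 - sI t) / 2`, `U = UG (t/2) (cval t)` on the closed disc.

`F0` is one fixed analytic function on the disc (of length `N0`); the test function of length `n` is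
`Fn F0 N0 n z = F0 z ^ (n / N0) * (1 + z) ^ (n % N0)`, cut at `k ≤ n / 2`.
-/

set_option autoImplicit false

namespace Pool.Agent.Lib.MP_0430e4_lc.YP

open Complex
open BY AC YG

/-- Taylor coefficient (real part) -/
noncomputable def cof (f : ℂ → ℂ) (k : ℕ) : ℝ := (iteratedDeriv k f 0).re / k.factorial

/-- the test function of length `n` -/
noncomputable def Fn (F0 : ℂ → ℂ) (N0 n : ℕ) (z : ℂ) : ℂ := F0 z ^ (n / N0) * (1 + z) ^ (n % N0)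

/-- its Taylor coefficients -/
noncomputable def cn (F0 : ℂ → ℂ) (N0 n : ℕ) : ℕ → ℝ := cof (Fn F0 N0 n)

/-- the size on the `u` side -/
noncomputable def bs (F0 : ℂ → ℂ) (N0 : ℕ) (u : ℂ) : ℝ := ‖1 + u‖ ^ N0 * ‖F0 (zu u)‖

/-- the relative distance -/
noncomputable def dl (t : ℝ) : ℝ := (1 - Exact.sI t) / 2

/-- the potential on the closed disc -/
noncomputable def Ud (t : ℝ) (z : ℂ) : ℝ := UG (t / 2) (Exact.cval t) z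

/-- the tip of the slit -/
noncomputable def tp (η : ℝ) : ℝ := (Z η ((Real.pi / 2 : ℝ) * I)).im

/-- the angle of the tip -/
noncomputable def psi0 (t : ℝ) : ℝ := 2 * Real.arctan (tp (t / 2))

/-- **What the abstract part needs of the fixed function `F0`.** `ηh` = height of the bump, `κ` = gain
of the far circle `|u| = e^σ`, `e` = gain at the ends of the arcs, `g` = gain of everything else,
`1/2 ± ρ1` = slopes, `[p1,p2]`, `[p3,p4]` = arcs. -/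
structure Base (t : ℝ) (F0 : ℂ → ℂ) (N0 : ℕ) (σ τ ηh κ e ρ1 p1 p2 p3 p4 κk x2 g : ℝ) : Prop where
  N0pos : 0 < N0
  diff : DifferentiableOn ℂ F0 (Metric.ball 0 1)
  conj : ∀ z : ℂ, ‖z‖ < 1 → F0 (starRingEnd ℂ z) = starRingEnd ℂ (F0 z)
  zero : F0 0 = 1
  hκ : 0 < κ
  he : 0 < e
  hg : 0 < g
  hg1 : g ≤ 1
  hσ : 0 < σ
  hστ : σ ≤ τ
  hsmall : Exact.cval t + τ + σ + κ + e ≤ Real.log 2 / 2
  /-- low coefficients are nonnegative -/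
  low : ∀ n k : ℕ, (k : ℝ) ≤ κk * n → 0 ≤ cn F0 N0 n k
  hx0 : 0 < x2
  hx1 : x2 < 1
  hxk : gI t x2 ≤ κk
  /-- mass -/
  mass : ∀ z : ℂ, ‖z‖ < 1 → ‖F0 z‖ ≤ Real.exp (N0 * (Exact.cval t - g))
  /-- `k` side -/
  ks : ∀ z : ℂ, x2 ≤ ‖z‖ → ‖z‖ < 1 → ‖F0 z‖ ≤ Real.exp (N0 * (UI t ‖z‖ - g))
  /-- the circle `|u| = e^σ` off the arcs -/
  far : ∀ φ : ℝ, 0 ≤ φ → φ < Real.pi / 2 → (φ ≤ p1 ∨ (p2 ≤ φ ∧ φ ≤ p3) ∨ p4 ≤ φ) →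
    bs F0 N0 (up σ φ) ≤ Real.exp (N0 * (Real.log 2 + σ * dl t - κ))
  arc : ∀ φ : ℝ, p1 ≤ φ → φ ≤ p4 → bs F0 N0 (up σ φ) ≤ Real.exp (N0 * (Real.log 2 + ηh))
  out : ∀ φ : ℝ, p1 ≤ φ → φ ≤ p4 →
    bs F0 N0 (up τ φ) ≤ Real.exp (N0 * (Real.log 2 + τ * (1 / 2 + ρ1) + ηh))
  inn : ∀ φ : ℝ, p1 ≤ φ → φ ≤ p4 →
    bs F0 N0 (up (-τ) φ) ≤ Real.exp (N0 * (Real.log 2 - τ * (1 / 2 - ρ1) + ηh))
  edge : ∀ s φ : ℝ, -τ ≤ s → s ≤ τ → (φ = p1 ∨ φ = p2 ∨ φ = p3 ∨ φ = p4) →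
    bs F0 N0 (up s φ) ≤
      Real.exp (N0 * (Real.log 2 + max (s * (1 / 2 - ρ1)) (s * (1 / 2 + ρ1)) - e))
  /-- the circles `|u| = e^s` off the bump, against the potential (high weights); any positive gain
  for `s` away from `0` is enough (HX6, structure `HOK`) -/
  hfar : ∀ sb : ℝ, 0 < sb → ∃ g' : ℝ, 0 < g' ∧ ∀ s φ : ℝ, sb ≤ s → s ≤ Real.log (4 / dl t) →
    0 ≤ φ → φ < Real.pi / 2 → (φ ≤ p1 ∨ p4 ≤ φ ∨ τ ≤ s) →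
    bs F0 N0 (up s φ) ≤ Real.exp (N0 * (s + hxU (UI t) (Real.exp (-s)) - g'))

/-- The analytic half of branch I: the function `F0` exists. `σ0` bounds `σ` from above. -/
def BaseEx (t : ℝ) : Prop := ∀ ρ1 : ℝ, 0 < ρ1 → ∀ w1 : ℝ, 0 < w1 → ∃ w ρ τ : ℝ,
  0 < w ∧ w ≤ w1 ∧ 0 < ρ ∧ ρ < w ∧ 0 < τ ∧ w < psi0 t ∧ psi0 t + w < Real.pi / 2 ∧
  ∀ ηh : ℝ, 0 < ηh → ∀ σ0 : ℝ, 0 < σ0 →
    ∃ (F0 : ℂ → ℂ) (N0 : ℕ) (σ κ e κk x2 g : ℝ), σ ≤ σ0 ∧ 4 * σ ≤ e ∧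
      Base t F0 N0 σ τ ηh κ e ρ1 (psi0 t - w) (psi0 t - ρ) (psi0 t + ρ) (psi0 t + w) κk x2 g

end Pool.Agent.Lib.MP_0430e4_lc.YP
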