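import Pool.Agent.Lib.MP_0430e4_lc.YP.Om

/-!
# Arcs: the fields `arc`, `out`, `inn`, `edge`
-/

set_option autoImplicit false

open Polynomial Finset

namespace Pool.Agent.Lib.MP_0430e4_lc.YP

open Complex
open BY AC YG

variable {t η1 ρ1 w ρ τ b0 ab ab' k3 k3' θs C4 zN κk x2 gb : ℝ} {N : ℕ} {E : ℂ → ℂ}

private theorem arcs_re (s φ : ℝ) : (up s φ).re = Real.exp s * Real.cos φ := by
  unfold up
  rw [Complex.exp_re]
  simp

private theorem arcs_im (s φ : ℝ) : (up s φ).im = Real.exp s * Real.sin φ := by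
  unfold up
  rw [Complex.exp_im]
  simp

/-- the square norm of `1 + u` -/
private theorem arcs_sq (s φ : ℝ) : Complex.normSq (1 + up s φ) =
    1 + 2 * (Real.exp s * Real.cos φ) + Real.exp s ^ 2 := by
  rw [Complex.normSq_apply, Complex.add_re, Complex.add_im, arcs_re, arcs_im, Complex.one_re,
    Complex.one_im]
  linear_combination Real.exp s ^ 2 * (Real.sin_sq_add_cos_sq φ)

private theorem arcs_sq' (s φ : ℝ) : Complex.normSq (1 - up s φ) =
    1 - 2 * (Real.exp s * Real.cos φ) + Real.exp s ^ 2 := by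
  rw [Complex.normSq_apply, Complex.sub_re, Complex.sub_im, arcs_re, arcs_im, Complex.one_re,
    Complex.one_im]
  linear_combination Real.exp s ^ 2 * (Real.sin_sq_add_cos_sq φ)

private theorem arcs_pos {s φ : ℝ} (hc : 0 ≤ Real.cos φ) : 0 < Complex.normSq (1 + up s φ) := by
  rw [arcs_sq]
  have := Real.exp_pos s
  positivity

private theorem arcs_ne {s φ : ℝ} (hc : 0 ≤ Real.cos φ) : 0 < ‖1 + up s φ‖ := by
  have := arcs_pos (s := s) hc
  rw [norm_pos_iff]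
  intro h
  rw [h] at this
  simp at this

private theorem arcs_zu_lt {s φ : ℝ} (hc : 0 < Real.cos φ) : ‖zu (up s φ)‖ < 1 := by
  have h0 := arcs_ne (s := s) hc.le
  unfold zu
  rw [norm_div, div_lt_one h0]
  refine lt_of_pow_lt_pow_left₀ 2 h0.le ?_
  rw [← Complex.normSq_eq_norm_sq, ← Complex.normSq_eq_norm_sq, arcs_sq, arcs_sq']
  have := mul_pos (Real.exp_pos s) hc
  linarith

private theorem arcs_zu_re {s φ : ℝ} (hc : 0 ≤ Real.cos φ) :
    (zu (up s φ)).re = (1 - Real.exp s ^ 2) / Complex.normSq (1 + up s φ) := by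
  have h := arcs_pos (s := s) hc
  unfold zu
  rw [Complex.div_re, ← add_div, div_left_inj' h.ne', Complex.sub_re, Complex.add_re,
    Complex.sub_im, Complex.add_im, arcs_re, arcs_im, Complex.one_re, Complex.one_im]
  linear_combination -Real.exp s ^ 2 * (Real.sin_sq_add_cos_sq φ)

private theorem arcs_zu_im {s φ : ℝ} (hc : 0 ≤ Real.cos φ) :
    (zu (up s φ)).im = -(2 * (Real.exp s * Real.sin φ)) / Complex.normSq (1 + up s φ) := by
  have h := arcs_pos (s := s) hc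
  unfold zu
  rw [Complex.div_im, ← sub_div, div_left_inj' h.ne', Complex.sub_re, Complex.add_re,
    Complex.sub_im, Complex.add_im, arcs_re, arcs_im, Complex.one_re, Complex.one_im]
  ring

private theorem arcs_re_le {s φ : ℝ} (hc : 0 ≤ Real.cos φ) (hs : |s| ≤ 1) :
    |(zu (up s φ)).re| ≤ 4 * |s| := by
  have h := arcs_pos (s := s) hc
  rw [arcs_zu_re hc, abs_div, abs_of_pos h, div_le_iff₀ h, arcs_sq]
  have h1 : |Real.exp s - 1| ≤ 2 * |s| := Real.abs_exp_sub_one_le hs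
  have h2 : (1 - Real.exp s ^ 2) = -((Real.exp s - 1) * (Real.exp s + 1)) := by ring
  rw [h2, abs_neg, abs_mul, abs_of_pos (by positivity : (0 : ℝ) < Real.exp s + 1)]
  have h3 : 0 ≤ Real.exp s * Real.cos φ := mul_nonneg (Real.exp_pos s).le hc
  have h4 : Real.exp s + 1 ≤ 2 * (1 + 2 * (Real.exp s * Real.cos φ) + Real.exp s ^ 2) := by
    nlinarith [sq_nonneg (Real.exp s - 1), sq_nonneg (Real.exp s)]
  calc |Real.exp s - 1| * (Real.exp s + 1)
      ≤ 2 * |s| * (2 * (1 + 2 * (Real.exp s * Real.cos φ) + Real.exp s ^ 2)) :=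
        mul_le_mul h1 h4 (by positivity) (by positivity)
    _ = _ := by ring

private theorem arcs_im_le {s φ : ℝ} (h0 : 0 ≤ φ) (h1 : φ < Real.pi / 2) :
    |(zu (up s φ)).im| ≤ Real.tan (φ / 2) := by
  have hpi := Real.pi_pos
  have hc : 0 < Real.cos φ := Real.cos_pos_of_mem_Ioo ⟨by linarith, h1⟩
  have hsn : 0 ≤ Real.sin φ := Real.sin_nonneg_of_nonneg_of_le_pi h0 (by linarith)
  have h := arcs_pos (s := s) hc.le
  have hch : 0 < Real.cos (φ / 2) := Real.cos_pos_of_mem_Ioo ⟨by linarith, by linarith⟩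
  have hsh : 0 ≤ Real.sin (φ / 2) := Real.sin_nonneg_of_nonneg_of_le_pi (by linarith)
    (by linarith)
  rw [arcs_zu_im hc.le, abs_div, abs_of_pos h, abs_neg, abs_of_nonneg (by positivity),
    div_le_iff₀ h, arcs_sq, Real.tan_eq_sin_div_cos, div_mul_eq_mul_div, le_div_iff₀ hch]
  have e1 : Real.sin φ = 2 * Real.sin (φ / 2) * Real.cos (φ / 2) := by
    rw [← Real.sin_two_mul]; congr 1; ring
  have e2 : Real.cos φ = 2 * Real.cos (φ / 2) ^ 2 - 1 := by
    rw [← Real.cos_two_mul]; congr 1; ring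
  rw [e1, e2]
  have h2 : 0 ≤ Real.sin (φ / 2) * (Real.exp s - 1) ^ 2 := by positivity
  linarith [h2, (by ring : Real.sin (φ / 2) *
    (1 + 2 * (Real.exp s * (2 * Real.cos (φ / 2) ^ 2 - 1)) + Real.exp s ^ 2) -
    2 * (Real.exp s * (2 * Real.sin (φ / 2) * Real.cos (φ / 2))) * Real.cos (φ / 2) =
    Real.sin (φ / 2) * (Real.exp s - 1) ^ 2)]

/-- the common estimate -/
private theorem arcs_core (ht : 0 < t) (hη1 : 0 < η1) (hN : 0 < N) (hab : 0 < ab)
    (hE : EP η1 N C4 E) {e1 l : ℝ} {N0 m1 m2 : ℕ} {q : ℝ[X]}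
    (hc : SC t η1 ab ab' k3 k3' θs e1 N N0 m1 m2 q l) {s φ X P Y : ℝ} (hcos : 0 < Real.cos φ)
    (hX : Real.log ‖1 + up s φ‖ + Ud t (zu (up s φ)) ≤ X)
    (hP : om η1 (zu (up s φ)) + 3 * Real.log (Real.cosh (om η1 (zu (up s φ)))) / N ≤ P)
    (hY : ‖1 + zu (up s φ) ^ 2 / (tp (t / 2) : ℂ) ^ 2‖ ^ m2 ≤ Real.exp (N0 * Y)) :
    bs (F0of t q E m1 m2) N0 (up s φ) ≤ Real.exp (N0 * (X + ab * e1 * P + Y)) := by
  have hz := arcs_zu_lt (s := s) hcos
  have hn := arcs_ne (s := s) hcos.le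
  have hη : 0 < t / 2 := by linarith
  have hom := om_nonneg hη hz.le
  have hom1 := om_nonneg hη1 hz.le
  have hN0 : (0 : ℝ) ≤ N0 := Nat.cast_nonneg _
  have hNr : (0 : ℝ) < N := by exact_mod_cast hN
  have h := F0_bnd ht hE hc hz
  set z := zu (up s φ) with hzdef
  have hch : 0 < Real.cosh (om η1 z) := Real.cosh_pos _
  have hlc : 0 ≤ Real.log (Real.cosh (om η1 z)) := Real.log_nonneg (Real.one_le_cosh _)
  have a1 : ‖1 + up s φ‖ ^ N0 = Real.exp (N0 * Real.log ‖1 + up s φ‖) := by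
    rw [← Real.log_pow, Real.exp_log (pow_pos hn _)]
  have a2 : (Real.exp (N * om η1 z) * Real.cosh (om η1 z) ^ 3) ^ m1 =
      Real.exp (m1 * N * (om η1 z + 3 * Real.log (Real.cosh (om η1 z)) / N)) := by
    have : Real.cosh (om η1 z) ^ 3 = Real.exp (3 * Real.log (Real.cosh (om η1 z))) := by
      rw [mul_comm, Real.exp_mul, Real.exp_log hch]
      norm_cast
    rw [this, ← Real.exp_add, ← Real.exp_nat_mul]
    congr 1
    field_simp
  have hbr : 0 ≤ om η1 z + 3 * Real.log (Real.cosh (om η1 z)) / N := by positivity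
  have a3 : (m1 : ℝ) * N * (om η1 z + 3 * Real.log (Real.cosh (om η1 z)) / N) ≤
      N0 * (ab * e1 * P) := by
    calc (m1 : ℝ) * N * (om η1 z + 3 * Real.log (Real.cosh (om η1 z)) / N)
        ≤ ab * e1 * N0 * (om η1 z + 3 * Real.log (Real.cosh (om η1 z)) / N) :=
          mul_le_mul_of_nonneg_right hc.m1le hbr
      _ ≤ ab * e1 * N0 * P := by
          refine mul_le_mul_of_nonneg_left hP ?_
          have := hc.he1
          positivity
      _ = _ := by ring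
  unfold bs
  rw [← hzdef, a1]
  calc Real.exp (N0 * Real.log ‖1 + up s φ‖) * ‖F0of t q E m1 m2 z‖
      ≤ Real.exp (N0 * Real.log ‖1 + up s φ‖) *
        (Real.exp (N0 * (Ud t z - e1 / (t / 2) * om (t / 2) z)) *
        (Real.exp (N * om η1 z) * Real.cosh (om η1 z) ^ 3) ^ m1 *
        ‖1 + z ^ 2 / (tp (t / 2) : ℂ) ^ 2‖ ^ m2) := mul_le_mul_of_nonneg_left h (by positivity)
    _ ≤ Real.exp (N0 * Real.log ‖1 + up s φ‖) *
        (Real.exp (N0 * Ud t z) * Real.exp (N0 * (ab * e1 * P)) * Real.exp (N0 * Y)) := by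
        refine mul_le_mul_of_nonneg_left ?_ (by positivity)
        refine mul_le_mul (mul_le_mul ?_ ?_ (by positivity) (by positivity)) hY (by positivity)
          (by positivity)
        · refine Real.exp_le_exp.2 (mul_le_mul_of_nonneg_left ?_ hN0)
          have := hc.he1
          have : 0 ≤ e1 / (t / 2) * om (t / 2) z := by positivity
          linarith
        · rw [a2]
          exact Real.exp_le_exp.2 a3
    _ = Real.exp (N0 * ((Real.log ‖1 + up s φ‖ + Ud t z) + ab * e1 * P + Y)) := by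
        rw [← Real.exp_add, ← Real.exp_add, ← Real.exp_add]
        congr 1
        ring
    _ ≤ _ := by
        refine Real.exp_le_exp.2 (mul_le_mul_of_nonneg_left ?_ hN0)
        linarith

/-- the crude bound of the multiplier -/
private theorem arcs_hE (hη1 : 0 < η1) (hN : 0 < N) {z : ℂ} (hz : ‖z‖ < 1) :
    om η1 z + 3 * Real.log (Real.cosh (om η1 z)) / N ≤ hE η1 N := by
  have hNr : (0 : ℝ) < N := by exact_mod_cast hN
  have h0 := om_nonneg hη1 hz.le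
  have h1 := om_le hη1 hz.le
  have h2 : Real.log (Real.cosh (om η1 z)) ≤ Real.log (Real.cosh η1) := by
    refine Real.log_le_log (Real.cosh_pos _) ?_
    rw [Real.cosh_le_cosh, abs_of_nonneg h0, abs_of_nonneg hη1.le]
    exact h1
  unfold hE
  have h3 : 3 * Real.log (Real.cosh (om η1 z)) / N ≤ 3 * Real.log (Real.cosh η1) / N := by
    gcongr
  linarith

/-- the crude bound of `B` -/
private theorem arcs_B (ht : 0 < t) {e1 l : ℝ} {N0 m1 m2 : ℕ} {q : ℝ[X]}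
    (hc : SC t η1 ab ab' k3 k3' θs e1 N N0 m1 m2 q l) {z : ℂ} (hz : ‖z‖ < 1) :
    ‖1 + z ^ 2 / (tp (t / 2) : ℂ) ^ 2‖ ^ m2 ≤
      Real.exp (N0 * (k3 * e1 * Real.log (1 + 1 / tp (t / 2) ^ 2))) := by
  have htp : 0 < tp (t / 2) := tp_pos (by linarith)
  have hM : (1 : ℝ) ≤ 1 + 1 / tp (t / 2) ^ 2 := by
    have : 0 < 1 / tp (t / 2) ^ 2 := by positivity
    linarith
  have h1 : ‖1 + z ^ 2 / (tp (t / 2) : ℂ) ^ 2‖ ≤ 1 + 1 / tp (t / 2) ^ 2 := by
    refine (norm_add_le _ _).trans ?_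
    rw [norm_one, norm_div, norm_pow, norm_pow, Complex.norm_real, Real.norm_eq_abs,
      abs_of_pos htp]
    have : ‖z‖ ^ 2 ≤ 1 := pow_le_one₀ (norm_nonneg _) hz.le
    gcongr
  calc ‖1 + z ^ 2 / (tp (t / 2) : ℂ) ^ 2‖ ^ m2 ≤ (1 + 1 / tp (t / 2) ^ 2) ^ m2 :=
        pow_le_pow_left₀ (norm_nonneg _) h1 _
    _ = Real.exp (m2 * Real.log (1 + 1 / tp (t / 2) ^ 2)) := by
        rw [← Real.log_pow, Real.exp_log (by positivity)]
    _ ≤ _ := by
        refine Real.exp_le_exp.2 ?_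
        have h2 := mul_le_mul_of_nonneg_right hc.m2le (Real.log_nonneg hM)
        calc (m2 : ℝ) * Real.log (1 + 1 / tp (t / 2) ^ 2) ≤
              k3 * e1 * N0 * Real.log (1 + 1 / tp (t / 2) ^ 2) := h2
          _ = _ := by ring

/-- a contraction gives a gain -/
private theorem arcs_b {e1 l : ℝ} {N0 m1 m2 : ℕ} {q : ℝ[X]}
    (hc : SC t η1 ab ab' k3 k3' θs e1 N N0 m1 m2 q l) {z : ℂ} {b : ℝ} (h0 : 0 < b) (h1 : b ≤ 1)
    (hb : ‖1 + z ^ 2 / (tp (t / 2) : ℂ) ^ 2‖ ≤ b) :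
    ‖1 + z ^ 2 / (tp (t / 2) : ℂ) ^ 2‖ ^ m2 ≤ Real.exp (N0 * (k3' * e1 * Real.log b)) := by
  calc ‖1 + z ^ 2 / (tp (t / 2) : ℂ) ^ 2‖ ^ m2 ≤ b ^ m2 :=
        pow_le_pow_left₀ (norm_nonneg _) hb _
    _ = Real.exp (m2 * Real.log b) := by
        rw [← Real.log_pow, Real.exp_log (by positivity)]
    _ ≤ _ := by
        refine Real.exp_le_exp.2 ?_
        have h2 := mul_le_mul_of_nonpos_right hc.m2ge (Real.log_nonpos h0.le h1)
        calc (m2 : ℝ) * Real.log b ≤ k3' * e1 * N0 * Real.log b := h2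
          _ = _ := by ring

private theorem arcs_cos (hB : SB t η1 ρ1 w ρ τ b0 ab ab' k3 k3' θs C4 zN κk x2 gb N E) {φ : ℝ}
    (hφ : |φ - psi0 t| ≤ w) : 0 < φ ∧ φ < Real.pi / 2 ∧ 0 < Real.cos φ := by
  have hpi := Real.pi_pos
  have h := abs_le.1 hφ
  have h1 := hB.hwψ
  have h2 := hB.hwπ
  refine ⟨by linarith, by linarith, Real.cos_pos_of_mem_Ioo ⟨by linarith, by linarith⟩⟩

/-- total of the crude bounds -/
private theorem arcs_tot (hB : SB t η1 ρ1 w ρ τ b0 ab ab' k3 k3' θs C4 zN κk x2 gb N E)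
    {e1 : ℝ} (he : 0 < e1) :
    ab * e1 * hE η1 N + k3 * e1 * Real.log (1 + 1 / tp (t / 2) ^ 2) ≤ e1 := by
  have h := hB.bm
  have h1 := hB.hgb
  have h2 : ab * hE η1 N + k3 * Real.log (1 + 1 / tp (t / 2) ^ 2) ≤ 1 := by linarith
  have h3 := mul_le_mul_of_nonneg_left h2 he.le
  linarith

/-- on the sector of the bump -/
theorem sector (hB : SB t η1 ρ1 w ρ τ b0 ab ab' k3 k3' θs C4 zN κk x2 gb N E) {ηh : ℝ}
    (hη : 0 < ηh) : ∃ e0 : ℝ, 0 < e0 ∧ ∀ (e1 : ℝ) (N0 m1 m2 : ℕ) (q : ℝ[X]) (l : ℝ), e1 ≤ e0 →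
      SC t η1 ab ab' k3 k3' θs e1 N N0 m1 m2 q l → ∀ s φ : ℝ, |s| ≤ τ → |φ - psi0 t| ≤ w →
        bs (F0of t q E m1 m2) N0 (up s φ) ≤
          Real.exp (N0 * (Real.log 2 + s / 2 + ρ1 / 2 * |s| + ηh)) := by
  refine ⟨ηh, hη, fun e1 N0 m1 m2 q l he hc s φ hs hφ => ?_⟩
  obtain ⟨_, _, hcos⟩ := arcs_cos hB hφ
  have hη1 : 0 < η1 := lt_trans (by linarith [hB.ht]) hB.hη
  have hz := arcs_zu_lt (s := s) hcos
  refine (arcs_core hB.ht hη1 hB.hN hB.hab hB.hEP hc hcos (hB.tipl s φ hs hφ)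
    (arcs_hE hη1 hB.hN hz) (arcs_B hB.ht hc hz)).trans ?_
  refine Real.exp_le_exp.2 (mul_le_mul_of_nonneg_left ?_ (Nat.cast_nonneg _))
  have := arcs_tot hB hc.he1
  linarith

/-- the edge `p1` -/
private theorem arcs_p1 (hB : SB t η1 ρ1 w ρ τ b0 ab ab' k3 k3' θs C4 zN κk x2 gb N E) :
    ∃ e0 : ℝ, 0 < e0 ∧ ∀ (e1 : ℝ) (N0 m1 m2 : ℕ) (q : ℝ[X]) (l : ℝ), e1 ≤ e0 →
      SC t η1 ab ab' k3 k3' θs e1 N N0 m1 m2 q l → ∀ s : ℝ, |s| ≤ τ →
        bs (F0of t q E m1 m2) N0 (up s (psi0 t - w)) ≤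
          Real.exp (N0 * (Real.log 2 + s / 2 + ρ1 * |s| - gb * k3' * e1)) := by
  have hpi := Real.pi_pos
  have hη1 : 0 < η1 := lt_trans (by linarith [hB.ht]) hB.hη
  have hw := hB.hw
  have hwψ := hB.hwψ
  have hwπ := hB.hwπ
  have hab := hB.hab
  have hρ1 := hB.hρ1
  have hNr : (0 : ℝ) < N := by exact_mod_cast hB.hN
  have hN1 : (1 : ℝ) ≤ N := by exact_mod_cast hB.hN
  have hφw : |psi0 t - w - psi0 t| ≤ w := by
    rw [show psi0 t - w - psi0 t = -w by ring, abs_neg, abs_of_pos hw]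
  obtain ⟨p0, p1, hcos⟩ := arcs_cos hB hφw
  have hy0 : 0 < Real.tan ((psi0 t - w) / 2) :=
    Real.tan_pos_of_pos_of_lt_pi_div_two (by linarith) (by linarith)
  obtain ⟨C, hC, hlip⟩ := om_lip hη1 hy0 hB.tip1
  set K : ℝ := ab * (16 * C) with hK
  have hK0 : 0 < K := by positivity
  refine ⟨ρ1 / (2 * (K + 1)), by positivity, fun e1 N0 m1 m2 q l he hc s hs => ?_⟩
  have he1 := hc.he1
  have hz := arcs_zu_lt (s := s) hcos
  have hs1 : |s| ≤ 1 := hs.trans hB.hτ1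
  have hre := arcs_re_le (s := s) hcos.le hs1
  have him := arcs_im_le (s := s) p0.le p1
  have hom := hlip _ hz.le him
  have hom0 := om_nonneg hη1 hz.le
  have hlc : Real.log (Real.cosh (om η1 (zu (up s (psi0 t - w))))) ≤
      om η1 (zu (up s (psi0 t - w))) := by
    rw [Real.log_le_iff_le_exp (Real.cosh_pos _), Real.cosh_eq]
    have : Real.exp (-om η1 (zu (up s (psi0 t - w)))) ≤ Real.exp (om η1 (zu (up s (psi0 t - w)))) :=
      Real.exp_le_exp.2 (by linarith)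
    linarith
  have hlc0 : 0 ≤ Real.log (Real.cosh (om η1 (zu (up s (psi0 t - w))))) :=
    Real.log_nonneg (Real.one_le_cosh _)
  have hP : om η1 (zu (up s (psi0 t - w))) +
      3 * Real.log (Real.cosh (om η1 (zu (up s (psi0 t - w))))) / N ≤ 16 * C * |s| := by
    have h1 : 3 * Real.log (Real.cosh (om η1 (zu (up s (psi0 t - w))))) / N ≤
        3 * om η1 (zu (up s (psi0 t - w))) := by
      rw [div_le_iff₀ hNr]
      nlinarith
    have h2 : om η1 (zu (up s (psi0 t - w))) ≤ C * (4 * |s|) :=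
      hom.trans (mul_le_mul_of_nonneg_left hre hC.le)
    linarith
  refine (arcs_core hB.ht hη1 hB.hN hB.hab hB.hEP hc hcos (hB.tipl s _ hs hφw) hP
    (arcs_b hc (Real.exp_pos _) ?_ (hB.edge1 s hs))).trans ?_
  · exact Real.exp_le_one_iff.2 (by linarith [hB.hgb])
  · refine Real.exp_le_exp.2 (mul_le_mul_of_nonneg_left ?_ (Nat.cast_nonneg _))
    rw [Real.log_exp]
    have h3 : e1 * K ≤ ρ1 / 2 := by
      have h4 : e1 * (2 * (K + 1)) ≤ ρ1 := by
        rwa [le_div_iff₀ (by positivity)] at he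
      nlinarith
    have h5 : ab * e1 * (16 * C * |s|) ≤ ρ1 / 2 * |s| := by
      have := mul_le_mul_of_nonneg_right h3 (abs_nonneg s)
      calc ab * e1 * (16 * C * |s|) = e1 * K * |s| := by rw [hK]; ring
        _ ≤ _ := this
    linarith

/-- the four edges; the gain is proportional to `e1` -/
theorem edges (hB : SB t η1 ρ1 w ρ τ b0 ab ab' k3 k3' θs C4 zN κk x2 gb N E) :
    ∃ e0 : ℝ, 0 < e0 ∧ ∀ (e1 : ℝ) (N0 m1 m2 : ℕ) (q : ℝ[X]) (l : ℝ), e1 ≤ e0 →
      SC t η1 ab ab' k3 k3' θs e1 N N0 m1 m2 q l → ∃ e : ℝ, 0 < e ∧ ∀ s φ : ℝ, |s| ≤ τ →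
        (φ = psi0 t - w ∨ φ = psi0 t - ρ ∨ φ = psi0 t + ρ ∨ φ = psi0 t + w) →
        bs (F0of t q E m1 m2) N0 (up s φ) ≤
          Real.exp (N0 * (Real.log 2 + s / 2 + ρ1 * |s| - e)) := by
  obtain ⟨e0, he0, hp1⟩ := arcs_p1 hB
  have hη1 : 0 < η1 := lt_trans (by linarith [hB.ht]) hB.hη
  have hw := hB.hw
  have hρ := hB.hρ
  have hρw := hB.hρw
  have hgb := hB.hgb
  have hρ1 := hB.hρ1
  have hk3' := hB.hk3'
  refine ⟨min e0 gb, lt_min he0 hgb, fun e1 N0 m1 m2 q l he hc => ?_⟩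
  have he1 := hc.he1
  refine ⟨min gb (min (gb * e1) (gb * k3' * e1)), by positivity, fun s φ hs hφ => ?_⟩
  have hm1 : min gb (min (gb * e1) (gb * k3' * e1)) ≤ gb := min_le_left _ _
  have hm2 : min gb (min (gb * e1) (gb * k3' * e1)) ≤ gb * e1 :=
    (min_le_right _ _).trans (min_le_left _ _)
  have hm3 : min gb (min (gb * e1) (gb * k3' * e1)) ≤ gb * k3' * e1 :=
    (min_le_right _ _).trans (min_le_right _ _)
  have hs0 : 0 ≤ ρ1 * |s| := by positivity
  -- the two inner edges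
  have inner : ∀ φ : ℝ, |φ - psi0 t| ≤ ρ → bs (F0of t q E m1 m2) N0 (up s φ) ≤
      Real.exp (N0 * (Real.log 2 + s / 2 + ρ1 * |s| -
        min gb (min (gb * e1) (gb * k3' * e1)))) := by
    intro φ hφ
    obtain ⟨_, _, hcos⟩ := arcs_cos hB (hφ.trans hρw.le)
    have hz := arcs_zu_lt (s := s) hcos
    refine (arcs_core hB.ht hη1 hB.hN hB.hab hB.hEP hc hcos
      (hB.tipl s φ hs (hφ.trans hρw.le)) (arcs_hE hη1 hB.hN hz)
      (arcs_b hc hB.hb0 hB.hb1.le (hB.hole s φ hs hφ))).trans ?_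
    refine Real.exp_le_exp.2 (mul_le_mul_of_nonneg_left ?_ (Nat.cast_nonneg _))
    have h1 := mul_le_mul_of_nonneg_left hB.bh he1.le
    have h2 : ab * e1 * hE η1 N + k3' * e1 * Real.log b0 =
        e1 * (ab * hE η1 N + k3' * Real.log b0) := by ring
    linarith
  rcases hφ with rfl | rfl | rfl | rfl
  · refine (hp1 e1 N0 m1 m2 q l (he.trans (min_le_left _ _)) hc s hs).trans ?_
    refine Real.exp_le_exp.2 (mul_le_mul_of_nonneg_left ?_ (Nat.cast_nonneg _))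
    linarith
  · refine inner _ ?_
    rw [show psi0 t - ρ - psi0 t = -ρ by ring, abs_neg, abs_of_pos hρ]
  · refine inner _ ?_
    rw [show psi0 t + ρ - psi0 t = ρ by ring, abs_of_pos hρ]
  · have hφw : |psi0 t + w - psi0 t| ≤ w := by
      rw [show psi0 t + w - psi0 t = w by ring, abs_of_pos hw]
    obtain ⟨_, _, hcos⟩ := arcs_cos hB hφw
    have hz := arcs_zu_lt (s := s) hcos
    refine (arcs_core hB.ht hη1 hB.hN hB.hab hB.hEP hc hcos (hB.gap4 s hs)
      (arcs_hE hη1 hB.hN hz) (arcs_B hB.ht hc hz)).trans ?_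
    refine Real.exp_le_exp.2 (mul_le_mul_of_nonneg_left ?_ (Nat.cast_nonneg _))
    have h1 := arcs_tot hB he1
    have h2 : e1 ≤ gb := he.trans (min_le_right _ _)
    linarith

end Pool.Agent.Lib.MP_0430e4_lc.YP
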