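import Pool.Agent.Lib.MP_0430e4_lc.YP.W1
import Pool.Agent.Lib.MP_0430e4_lc.YA.A5
import Pool.Agent.Lib.MP_0430e4_lc.AC.HX6

/-!
# HG: the high weights from `Base` (owner helper30)
-/

set_option autoImplicit false

open Finset Polynomial

namespace Pool.Agent.Lib.MP_0430e4_lc.YP

open BY AC YG

/-- angular monotonicity at `φ = π/2` (owner helper88) -/
theorem hxU_ge {t : ℝ} (ht : 0 < t) {r : ℝ} (h0 : 0 < r) (h1 : r < 1) :
    Real.log (1 + r ^ 2) / 2 + Exact.cval t ≤ hxU (UI t) r := by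
  obtain ⟨c, hc, h⟩ := YA.half_le_hxU ht
  have h2 := h r h0 h1
  have h3 : 0 ≤ c * (r * (1 - r)) := mul_nonneg hc.le (mul_nonneg h0.le (by linarith))
  linarith

private theorem HG_exp {N0 : ℕ} {a b : ℝ} (ha : 0 ≤ a) (hb0 : 0 ≤ b)
    (hb : b ≤ Real.exp (N0 * a)) (n : ℕ) : b ^ (n / N0) ≤ Real.exp (n * a) := by
  calc b ^ (n / N0) ≤ Real.exp (N0 * a) ^ (n / N0) := pow_le_pow_left₀ hb0 hb _
    _ = Real.exp (((n / N0 : ℕ) : ℝ) * (N0 * a)) := by rw [← Real.exp_nat_mul]
    _ ≤ _ := by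
        apply Real.exp_le_exp.mpr
        have h1 : (((n / N0 : ℕ) : ℝ)) * N0 ≤ n := by
          have := Nat.div_mul_le_self n N0
          exact_mod_cast this
        have h2 := mul_le_mul_of_nonneg_right h1 ha
        linarith

private theorem HG_two {N0 n : ℕ} (hN : 0 < N0) : (2 : ℝ) ^ (n % N0) ≤ 2 ^ N0 :=
  pow_le_pow_right₀ (by norm_num) (Nat.mod_lt n hN).le

private theorem HG_full {F0 : ℂ → ℂ} {N0 n : ℕ} (hN : 0 < N0) {u : ℂ} {a : ℝ} (ha : 0 ≤ a)
    (h : ‖1 - u‖ < ‖1 + u‖ → bs F0 N0 u ≤ Real.exp (N0 * a)) :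
    full F0 N0 n u ≤ 2 ^ N0 * Real.exp (n * a) := by
  unfold full
  split_ifs with h1
  · have h2 : 0 ≤ bs F0 N0 u := by unfold bs; positivity
    apply mul_le_mul (HG_two hN) (HG_exp ha h2 (h h1) n) (by positivity) (by positivity)
  · positivity

private theorem HG_half {s φ : ℝ} (h0 : 0 ≤ φ) (h1 : φ ≤ Real.pi)
    (h : ‖1 - up s φ‖ < ‖1 + up s φ‖) : φ < Real.pi / 2 := by
  by_contra hcon
  push Not at hcon
  have h2 : (up s φ).re ≤ 0 := by
    rw [YA.up_re]
    apply mul_nonpos_of_nonneg_of_nonpos (Real.exp_pos _).le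
    exact Real.cos_nonpos_of_pi_div_two_le_of_le hcon (by linarith)
  have h3 : ‖1 + up s φ‖ ^ 2 ≤ ‖1 - up s φ‖ ^ 2 := by
    rw [← Complex.normSq_eq_norm_sq, ← Complex.normSq_eq_norm_sq, Complex.normSq_apply,
      Complex.normSq_apply]
    simp only [Complex.add_re, Complex.sub_re, Complex.one_re, Complex.add_im, Complex.sub_im,
      Complex.one_im]
    linarith
  have h4 : ‖1 + up s φ‖ ≤ ‖1 - up s φ‖ := by
    exact le_of_sq_le_sq h3 (norm_nonneg _)
  linarith

/-- the tail of the cut -/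
private theorem HG_tail {s : ℝ} (hs : 0 ≤ s) :
    Real.log (1 + Real.exp (2 * s)) / 2 ≤ Real.log 2 / 2 + s := by
  have h1 : 1 + Real.exp (2 * s) ≤ 2 * Real.exp (2 * s) := by
    have := Real.one_le_exp (show 0 ≤ 2 * s by linarith)
    linarith
  have h2 := Real.log_le_log (by positivity) h1
  rw [Real.log_mul (by norm_num) (Real.exp_pos _).ne', Real.log_exp] at h2
  linarith

private theorem HG_kr {n w k : ℕ} (hk : k ≤ n) : |kr n w k| ≤ n.choose w := by
  have hc : 0 < (univ.filter (fun y : Wd n => wt y = k)).card := by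
    rw [card_wt]
    exact Nat.choose_pos hk
  obtain ⟨y, hy⟩ := card_pos.mp hc
  rw [← (mem_filter.mp hy).2, ← sum_e_wt, ← card_wt (n := n) w]
  calc |∑ x ∈ univ.filter (fun x : Wd n => wt x = w), e y x|
      ≤ ∑ x ∈ univ.filter (fun x : Wd n => wt x = w), |e y x| := Finset.abs_sum_le_sum_abs _ _
    _ ≤ ∑ x ∈ univ.filter (fun x : Wd n => wt x = w), (1 : ℝ) :=
        Finset.sum_le_sum fun x _ => abs_e_le y x
    _ = _ := by rw [Finset.sum_const, nsmul_eq_mul, mul_one]

private theorem HG_coeff {n m : ℕ} (hm : m ≤ n) {c : ℕ → ℝ} {B : ℝ}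
    (hc : ∀ k : ℕ, |c k| ≤ B) (w : ℕ) :
    |(Gp n m c).coeff w| ≤ (n + 1) * (B * n.choose w) := by
  have hB : 0 ≤ B := (abs_nonneg _).trans (hc 0)
  unfold Gp
  rw [Polynomial.finsetSum_coeff]
  calc |∑ k ∈ range (m + 1), (Polynomial.C (c k) * ((1 - X) ^ k * (1 + X) ^ (n - k))).coeff w|
      ≤ ∑ k ∈ range (m + 1), |(Polynomial.C (c k) * ((1 - X) ^ k * (1 + X) ^ (n - k))).coeff w| :=
        Finset.abs_sum_le_sum_abs _ _
    _ ≤ ∑ k ∈ range (m + 1), B * n.choose w := by
        apply Finset.sum_le_sum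
        intro k hk
        have hkn : k ≤ n := (Nat.lt_succ_iff.mp (mem_range.mp hk)).trans hm
        rw [Polynomial.coeff_C_mul, abs_mul]
        apply mul_le_mul (hc k) _ (abs_nonneg _) hB
        exact HG_kr hkn
    _ = ((m + 1 : ℕ) : ℝ) * (B * n.choose w) := by
        rw [Finset.sum_const, card_range, nsmul_eq_mul]
    _ ≤ _ := by
        apply mul_le_mul_of_nonneg_right _ (by positivity)
        exact_mod_cast Nat.succ_le_succ hm

private theorem HG_cn {F0 : ℂ → ℂ} {N0 : ℕ} (hN : 0 < N0)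
    (hd : DifferentiableOn ℂ F0 (Metric.ball 0 1))
    (hc : ∀ z : ℂ, ‖z‖ < 1 → F0 (starRingEnd ℂ z) = starRingEnd ℂ (F0 z)) {a : ℝ} (ha : 0 ≤ a)
    (hm : ∀ z : ℂ, ‖z‖ < 1 → ‖F0 z‖ ≤ Real.exp (N0 * a)) (n k : ℕ) :
    |cn F0 N0 n k| ≤ 2 ^ N0 * Real.exp (n * a) := by
  have h1 : ∀ x : ℝ, 0 < x → x < 1 → |cn F0 N0 n k| * x ^ k ≤ 2 ^ N0 * Real.exp (n * a) := by
    intro x hx hx1
    have h2 := cn_bound hN hd hc hx hx1 (Real.exp_pos (N0 * a)).le
      (fun z hz => hm z (by rw [hz]; exact hx1)) n k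
    refine h2.trans ?_
    rw [mul_comm]
    apply mul_le_mul (HG_two hN) (HG_exp ha (Real.exp_pos _).le le_rfl n) (by positivity)
      (by positivity)
  have h2 : Filter.Tendsto (fun x : ℝ => |cn F0 N0 n k| * x ^ k) (nhdsWithin 1 (Set.Iio 1))
      (nhds (|cn F0 N0 n k| * 1 ^ k)) := by
    have : Continuous fun x : ℝ => |cn F0 N0 n k| * x ^ k := by fun_prop
    exact (this.tendsto 1).mono_left nhdsWithin_le_nhds
  rw [one_pow, mul_one] at h2
  apply le_of_tendsto h2
  filter_upwards [Ioo_mem_nhdsLT (show (0 : ℝ) < 1 by norm_num)] with x hx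
  exact h1 x hx.1 hx.2

theorem high_of_base {t : ℝ} (ht : 0 < t) {F0 : ℂ → ℂ} {N0 : ℕ}
    {σ τ ηh κ e ρ1 p1 p2 p3 p4 κk x2 g : ℝ} (hρ : 0 < ρ1)
    (hρ1 : ρ1 ≤ (1 / 2 - dl t) / 4) (hη : 0 < ηh) (hητ : ηh ≤ τ * (1 / 2 - dl t) / 4)
    (h1 : 0 ≤ p1) (h12 : p1 ≤ p2) (h23 : p2 ≤ p3) (h34 : p3 ≤ p4) (h4 : p4 < Real.pi / 2)
    (H : Base t F0 N0 σ τ ηh κ e ρ1 p1 p2 p3 p4 κk x2 g) :
    ∃ κ1 : ℝ, 0 < κ1 ∧ ∃ ε : ℝ, 0 < ε ∧ ∃ n1 : ℕ, ∀ n ≥ n1, ∀ C : Finset (Wd n),
      IsCode ⌈dl t * n⌉₊ C → pw n (Tensor.ell (dl t) - ε) ≤ C.card →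
      ∑ w ∈ (range (n + 1)).filter (fun w => n < w + ⌈dl t * n⌉₊),
        (Nw C w : ℝ) * (|(Gn F0 N0 n).coeff w| / n.choose w) ≤
          (C.card : ℝ) ^ 2 * Real.exp (-(κ1 * n)) := by
  have hpi := Real.pi_pos
  have hlog : 0 < Real.log 2 := Real.log_pos (by norm_num)
  have hδ0 : 0 < dl t := by unfold dl; linarith [Exact.sI_lt_one ht]
  have hδ1 : dl t < 1 / 2 := by unfold dl; linarith [Exact.sI_pos ht]
  have P : Pot (dl t) (UI t) (gI t) := potI ht
  have hN := H.N0pos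
  have hN0 : (0 : ℝ) < N0 := by exact_mod_cast hN
  have hκ := H.hκ
  have he := H.he
  have hg := H.hg
  have hσ := H.hσ
  have hστ := H.hστ
  have hτ : 0 < τ := lt_of_lt_of_le hσ hστ
  have hsm := H.hsmall
  -- `g ≤ c`
  have hcg : 0 ≤ Exact.cval t - g := by
    have h2 := H.mass 0 (by simp)
    rw [H.zero, norm_one] at h2
    have h3 : (0 : ℝ) ≤ N0 * (Exact.cval t - g) := by
      have := Real.log_le_log one_pos h2
      rwa [Real.log_one, Real.log_exp] at this
    exact nonneg_of_mul_nonneg_right h3 hN0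
  have hell : Tensor.ell (dl t) * Real.log 2 = Exact.cval t := ell_I ht
  have hpw : ∀ n : ℕ, pw n (Tensor.ell (dl t)) = Real.exp (n * Exact.cval t) := by
    intro n
    rw [pw_eq_exp, hell]
  obtain ⟨K, hK0, hK⟩ := gn_bound (μ := Exact.cval t) hN H.diff H.conj hg H.mass
  -- parameters
  have hωb : 1 / 2 + ρ1 ≤ 1 - dl t := by linarith
  have hηb : 2 * ηh < τ * (1 - dl t - (1 / 2 + ρ1)) := by
    have h5 : 1 / 2 - dl t - ρ1 ≥ 3 / 4 * (1 / 2 - dl t) := by linarith
    have h6 : 0 < τ * (1 / 2 - dl t) := mul_pos hτ (by linarith)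
    have h7 : τ * (3 / 4 * (1 / 2 - dl t)) ≤ τ * (1 / 2 - dl t - ρ1) :=
      mul_le_mul_of_nonneg_left h5 hτ.le
    linarith
  obtain ⟨c, hc⟩ : ∃ c : ℝ, c = min g κ / 2 := ⟨_, rfl⟩
  have hc0 : 0 < c := by rw [hc]; exact div_pos (lt_min hg hκ) (by norm_num)
  have hc1 : 2 * c ≤ g := by rw [hc]; linarith [min_le_left g κ]
  have hc2 : 2 * c ≤ κ := by rw [hc]; linarith [min_le_right g κ]
  obtain ⟨rb, hrb0, hrb1, HH⟩ := high_of_circles P hδ0 hδ1 (σ := σ) (τ := τ) (η := 2 * ηh)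
    (c := c) (e := e / 2) (ωb := 1 / 2 + ρ1) (p1 := p1) (p4 := p4) hσ.le hστ hc0 (by linarith) hωb
    hηb h1 (h12.trans (h23.trans h34)) (by linarith)
  have hsb : 0 < -Real.log rb := by linarith [Real.log_neg hrb0 hrb1]
  obtain ⟨g', hg', hfar⟩ := H.hfar (-Real.log rb) hsb
  obtain ⟨c', hc'⟩ : ∃ c' : ℝ, c' = min (min g' (Real.log 2)) (g / 2) / 2 := ⟨_, rfl⟩
  have hc'0 : 0 < c' := by
    rw [hc']; exact div_pos (lt_min (lt_min hg' hlog) (by linarith)) (by norm_num)
  have hc'1 : 2 * c' ≤ g' := by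
    rw [hc']; linarith [(min_le_left (min g' (Real.log 2)) (g / 2)).trans (min_le_left _ _)]
  have hc'2 : 2 * c' ≤ Real.log 2 := by
    rw [hc']; linarith [(min_le_left (min g' (Real.log 2)) (g / 2)).trans (min_le_right _ _)]
  have hc'3 : 2 * c' ≤ g / 2 := by
    rw [hc']; linarith [min_le_right (min g' (Real.log 2)) (g / 2)]
  obtain ⟨ε, hε, κ1, hκ1, n0, Hn⟩ := HH c' hc'0
  -- absorption of the constants
  obtain ⟨t0, ht0⟩ : ∃ t0 : ℝ, t0 = min (min c c') (min ηh (e / 2)) := ⟨_, rfl⟩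
  have ht00 : 0 < t0 := by
    rw [ht0]; exact lt_min (lt_min hc0 hc'0) (lt_min hη (by linarith))
  have ht01 : t0 ≤ c := by rw [ht0]; exact (min_le_left _ _).trans (min_le_left _ _)
  have ht02 : t0 ≤ c' := by rw [ht0]; exact (min_le_left _ _).trans (min_le_right _ _)
  have ht03 : t0 ≤ ηh := by rw [ht0]; exact (min_le_right _ _).trans (min_le_left _ _)
  have ht04 : t0 ≤ e / 2 := by rw [ht0]; exact (min_le_right _ _).trans (min_le_right _ _)
  obtain ⟨n1, hn1⟩ := hx_lin ((2 : ℝ) ^ N0 + K) ht00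
  refine ⟨κ1, hκ1, ε, hε, n0 + n1, fun n hn C hC hcard => ?_⟩
  refine Hn n (by omega) C hC hcard (Gn F0 N0 n) ?_
  have hn0 : (0 : ℝ) ≤ n := Nat.cast_nonneg n
  have habs := hn1 n (by omega)
  have h2n : (2 : ℝ) ^ n = Real.exp (n * Real.log 2) := by
    rw [Real.exp_nat_mul, Real.exp_log (by norm_num)]
  -- the general bound: `full` with exponent `a`, tail with exponent at most `a`
  have key : ∀ (s φ a b : ℝ), 0 ≤ a →
      (‖1 - up s φ‖ < ‖1 + up s φ‖ → bs F0 N0 (up s φ) ≤ Real.exp (N0 * a)) →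
      Real.log (1 + Real.exp (2 * s)) / 2 + Exact.cval t - g / 2 ≤ a → a + t0 ≤ b →
      ‖(Gn F0 N0 n).aeval (up s φ)‖ ≤ Real.exp (n * b) := by
    intro s φ a b ha hb htail hab
    have e1 := hK n s φ
    have e2 := HG_full (n := n) hN ha hb
    have e3 : K * (n + 1) * Real.exp (n * (Real.log (1 + Real.exp (2 * s)) / 2 +
        Exact.cval t - g / 2)) ≤ K * (n + 1) * Real.exp (n * a) := by
      apply mul_le_mul_of_nonneg_left _ (by positivity)
      exact Real.exp_le_exp.mpr (mul_le_mul_of_nonneg_left htail hn0)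
    have e4 : (2 : ℝ) ^ N0 * Real.exp (n * a) ≤ 2 ^ N0 * (n + 1) * Real.exp (n * a) := by
      apply mul_le_mul_of_nonneg_right _ (Real.exp_pos _).le
      have : (0 : ℝ) < 2 ^ N0 := by positivity
      linarith [mul_nonneg this.le hn0]
    calc ‖(Gn F0 N0 n).aeval (up s φ)‖
        ≤ ((2 : ℝ) ^ N0 + K) * (n + 1) * Real.exp (n * a) := by linarith
      _ ≤ Real.exp (t0 * n) * Real.exp (n * a) :=
          mul_le_mul_of_nonneg_right habs (Real.exp_pos _).le
      _ = Real.exp (n * (a + t0)) := by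
          rw [← Real.exp_add]
          congr 1
          ring
      _ ≤ _ := Real.exp_le_exp.mpr (mul_le_mul_of_nonneg_left hab hn0)
  have hcv : 0 ≤ Exact.cval t := by linarith
  constructor
  · -- top
    intro w hw
    have e1 := HG_coeff (n := n) (m := n / 2) (Nat.div_le_self n 2)
      (fun k => HG_cn hN H.diff H.conj hcg H.mass n k) w
    refine e1.trans ?_
    rw [hpw]
    have e2 : (2 : ℝ) ^ N0 * (n + 1) ≤ Real.exp (t0 * n) := by
      refine le_trans ?_ habs
      apply mul_le_mul_of_nonneg_right _ (by positivity)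
      linarith
    calc ((n : ℝ) + 1) * (2 ^ N0 * Real.exp (n * (Exact.cval t - g)) * n.choose w)
        = (2 ^ N0 * (n + 1)) * Real.exp (n * (Exact.cval t - g)) * n.choose w := by ring
      _ ≤ Real.exp (t0 * n) * Real.exp (n * (Exact.cval t - g)) * n.choose w := by
          apply mul_le_mul_of_nonneg_right _ (Nat.cast_nonneg _)
          exact mul_le_mul_of_nonneg_right e2 (Real.exp_pos _).le
      _ ≤ Real.exp (n * Exact.cval t) * Real.exp (-(c * n)) * n.choose w := by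
          apply mul_le_mul_of_nonneg_right _ (Nat.cast_nonneg _)
          rw [← Real.exp_add, ← Real.exp_add]
          apply Real.exp_le_exp.mpr
          linarith [mul_le_mul_of_nonneg_right ht01 hn0, mul_le_mul_of_nonneg_right hc1 hn0]
  · -- far
    intro φ hφ0 hφ1 hφ2
    have e1 := key σ φ (Real.log 2 + σ * dl t - κ) (Real.log 2 + (σ * (1 - dl t) - c))
      (by have := mul_pos hσ hδ0; linarith)
      (fun h => H.far φ hφ0 (HG_half hφ0 hφ1 h) (by
        rcases hφ2 with h' | h'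
        · exact Or.inl h'
        · exact Or.inr (Or.inr h')))
      (by
        have := HG_tail hσ.le
        have := mul_pos hσ hδ0
        linarith)
      (by
        have : σ * dl t ≤ σ * (1 - dl t) := mul_le_mul_of_nonneg_left (by linarith) hσ.le
        linarith)
    refine e1.trans (le_of_eq ?_)
    rw [h2n, ← Real.exp_add]
    congr 1
    ring
  · -- out
    intro φ hφ0 hφ1
    have e1 := key τ φ (Real.log 2 + τ * (1 / 2 + ρ1) + ηh)
      (Real.log 2 + (τ * (1 / 2 + ρ1) + 2 * ηh))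
      (by positivity)
      (fun _ => H.out φ hφ0 hφ1)
      (by
        have := HG_tail hτ.le
        have : 0 < τ * (1 / 2 + ρ1) := by positivity
        linarith)
      (by linarith)
    refine e1.trans (le_of_eq ?_)
    rw [h2n, ← Real.exp_add]
    congr 1
    ring
  · -- edge
    intro s φ hs0 hs1 hφ
    have hmax : max (s * (1 / 2 - ρ1)) (s * (1 / 2 + ρ1)) = s * (1 / 2 + ρ1) := by
      apply max_eq_right
      exact mul_le_mul_of_nonneg_left (by linarith) hs0
    have hb := H.edge s φ (by linarith) hs1 (by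
      rcases hφ with h | h
      · exact Or.inl h
      · exact Or.inr (Or.inr (Or.inr h)))
    rw [hmax] at hb
    have hs2 : 0 ≤ s * (1 / 2 + ρ1) := by positivity
    have e1 := key s φ (Real.log 2 + s * (1 / 2 + ρ1) - e)
      (Real.log 2 + (s * (1 / 2 + ρ1) - e / 2))
      (by linarith)
      (fun _ => hb)
      (by
        have := HG_tail hs0
        linarith)
      (by linarith)
    refine e1.trans (le_of_eq ?_)
    rw [h2n, ← Real.exp_add]
    congr 1
    ring
  · -- high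
    intro r hr1 hr2 φ hφ0 hφ1 hφ2
    have hr0 : 0 < r := lt_of_lt_of_le (by positivity) hr1
    have hr3 : r < 1 := lt_of_le_of_lt hr2 hrb1
    obtain ⟨s, hs⟩ : ∃ s : ℝ, s = -Real.log r := ⟨_, rfl⟩
    have hrs : Real.exp (-s) = r := by rw [hs, neg_neg, Real.exp_log hr0]
    rw [← hs] at hφ2 ⊢
    have hs1 : -Real.log rb ≤ s := by
      rw [hs]
      have := Real.log_le_log hr0 hr2
      linarith
    have hs2 : s ≤ Real.log (4 / dl t) := by
      have e5 : Real.log (4 / dl t) = -Real.log (dl t / 4) := by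
        rw [← Real.log_inv]
        congr 1
        field_simp
      rw [e5, hs]
      have := Real.log_le_log (by positivity) hr1
      linarith
    have hs0 : 0 < s := lt_of_lt_of_le hsb hs1
    have hlow := AC.hxU_ge P hδ0 hr0 hr3
    have hlogr : Real.log r = -s := by rw [hs]; ring
    rw [hlogr] at hlow
    have hpos : Real.log 2 ≤ s + hxU (UI t) r := by
      have : dl t * s ≤ 1 * s := mul_le_mul_of_nonneg_right (by linarith) hs0.le
      linarith
    have htail : Real.log (1 + Real.exp (2 * s)) / 2 + Exact.cval t ≤ s + hxU (UI t) r := by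
      have e5 := hxU_ge ht hr0 hr3
      have e6 : Real.log (1 + Real.exp (2 * s)) = 2 * s + Real.log (1 + r ^ 2) := by
        have e7 : 1 + Real.exp (2 * s) = Real.exp (2 * s) * (1 + r ^ 2) := by
          rw [← hrs, ← Real.exp_nat_mul, mul_add, mul_one, ← Real.exp_add]
          push_cast
          rw [show 2 * s + 2 * -s = 0 by ring, Real.exp_zero]
          ring
        rw [e7, Real.log_mul (Real.exp_pos _).ne' (by positivity), Real.log_exp]
      rw [e6]
      linarith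
    have e1 := key s φ (s + hxU (UI t) r - 2 * c') (s + hxU (UI t) r - c')
      (by linarith)
      (fun h => by
        have e5 := hfar s φ hs1 hs2 hφ0 (HG_half hφ0 hφ1 h) (by
          by_cases h6 : s < τ
          · rcases hφ2 h6 with h7 | h7
            · exact Or.inl h7
            · exact Or.inr (Or.inl h7)
          · exact Or.inr (Or.inr (not_lt.mp h6)))
        rw [hrs] at e5
        refine e5.trans (Real.exp_le_exp.mpr ?_)
        apply mul_le_mul_of_nonneg_left _ hN0.le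
        linarith)
      (by linarith)
      (by linarith)
    exact e1

end Pool.Agent.Lib.MP_0430e4_lc.YP
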