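import Pool.Agent.Lib.MP_0430e4_lc.YP.W1
import Pool.Agent.Lib.MP_0430e4_lc.AC.PA7
import Pool.Agent.Lib.MP_0430e4_lc.AC.HX5
import Pool.Agent.Lib.MP_0430e4_lc.AC.EllPos

/-!
# KS: the `k` side and the mass from `Base` (owner helper88)
-/

set_option autoImplicit false

open Finset Polynomial

namespace Pool.Agent.Lib.MP_0430e4_lc.YP

open BY AC YG

/-- `hb_gen` form: the terms of the k side in the range `[κk n, n/2]` -/
theorem ks_term {δ : ℝ} {U g : ℝ → ℝ} (P : Pot δ U g) (h0 : 0 < δ) (h1 : δ < 1 / 2)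
    {x2 κ κk : ℝ} (hx0 : 0 < x2) (hx1 : x2 < 1) (hκ : 0 < κ) (hk : g x2 ≤ κk) :
    ∃ ε : ℝ, 0 < ε ∧ ∃ n0 : ℕ, ∀ n ≥ n0, ∀ C : Finset (Wd n), IsCode ⌈δ * n⌉₊ C →
      pw n (Tensor.ell δ - ε) ≤ C.card → ∀ (k : ℕ) (a : ℝ), κk * n ≤ k →
      2 * k ≤ n →
      (∀ x : ℝ, x2 ≤ x → x < 1 → |a| * x ^ k ≤ Real.exp (n * (U x - κ))) →
      |a| / n.choose k * Sk C k ≤ (C.card : ℝ) ^ 2 * Real.exp (-(κ / 2 * n)) := by
  have hlog : 0 < Real.log 2 := Real.log_pos (by norm_num)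
  obtain ⟨ε, hε⟩ : ∃ ε : ℝ, ε = κ / (4 * Real.log 2) := ⟨_, rfl⟩
  have hε0 : 0 < ε := by rw [hε]; positivity
  have hε2 : ε ≤ κ / (4 * Real.log 2) := hε.le
  obtain ⟨n0, hn0⟩ := hb_gen P h0 h1 ε hε0 x2 hx0 hx1
  refine ⟨ε, hε0, n0, fun n hn C hC hcard k a hkk hor ha => ?_⟩
  have hnn : (0 : ℝ) ≤ n := Nat.cast_nonneg n
  have h2 : g x2 * n ≤ k := le_trans (mul_le_mul_of_nonneg_right hk hnn) hkk
  have h3 : 2 * k ≤ n ∨ ∃ κ : ℝ, (∀ y : ℝ, 0 < y → y < 1 → g y ≤ κ) ∧ (k : ℝ) + (κ + ε) * n ≤ n :=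
    Or.inl hor
  obtain ⟨x, hx2, hx3, hx4⟩ := hn0 n hn C hC k h2 h3
  have hx : 0 < x := lt_of_lt_of_le hx0 hx2
  have hkn : k ≤ n := by omega
  have hch : (0 : ℝ) < n.choose k := by exact_mod_cast Nat.choose_pos hkn
  have hM : (0 : ℝ) ≤ C.card := Nat.cast_nonneg _
  have hcard2 : pw n (Tensor.ell δ + ε) ≤ C.card * pw n (2 * ε) := by
    have e : pw n (Tensor.ell δ + ε) = pw n (Tensor.ell δ - ε) * pw n (2 * ε) := by
      rw [← pw_add]; congr 1; ring
    rw [e]
    exact mul_le_mul_of_nonneg_right hcard (pw_pos n _).le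
  have hpe : pw n (2 * ε) ≤ Real.exp (κ / 2 * n) := by
    unfold pw
    rw [Real.rpow_def_of_pos (by norm_num : (0 : ℝ) < 2)]
    apply Real.exp_le_exp.mpr
    have h5 : 2 * ε * Real.log 2 ≤ κ / 2 := by
      have := mul_le_mul_of_nonneg_right hε2 (show 0 ≤ 2 * Real.log 2 by positivity)
      have e : κ / (4 * Real.log 2) * (2 * Real.log 2) = κ / 2 := by field_simp; ring
      rw [e] at this
      linarith
    have := mul_le_mul_of_nonneg_right h5 hnn
    nlinarith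
  have hS := Sk_nonneg C k
  have hxk : 0 < x ^ k := by positivity
  have h6 := ha x hx2 hx3
  have hEU := Real.exp_pos (n * U x)
  -- |a| S ≤ M² C(n,k) e^{-κ n/2}
  have h7 : |a| * Sk C k ≤ (C.card : ℝ) ^ 2 * Real.exp (-(κ / 2 * n)) * n.choose k := by
    have h8 : Sk C k * Real.exp (n * U x) ≤
        (C.card : ℝ) ^ 2 * Real.exp (κ / 2 * n) * x ^ k * n.choose k := by
      refine hx4.trans ?_
      have h9 : (C.card : ℝ) * pw n (Tensor.ell δ + ε) ≤
          (C.card : ℝ) ^ 2 * Real.exp (κ / 2 * n) := by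
        calc (C.card : ℝ) * pw n (Tensor.ell δ + ε) ≤ C.card * (C.card * pw n (2 * ε)) :=
              mul_le_mul_of_nonneg_left hcard2 hM
          _ ≤ C.card * (C.card * Real.exp (κ / 2 * n)) := by gcongr
          _ = _ := by ring
      have := mul_le_mul_of_nonneg_right h9 (mul_nonneg hxk.le hch.le)
      calc (C.card : ℝ) * pw n (Tensor.ell δ + ε) * x ^ k * n.choose k
          = (C.card : ℝ) * pw n (Tensor.ell δ + ε) * (x ^ k * n.choose k) := by ring
        _ ≤ _ := this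
        _ = _ := by ring
    have h10 : |a| * Sk C k * Real.exp (n * U x) ≤
        (C.card : ℝ) ^ 2 * Real.exp (-(κ / 2 * n)) * n.choose k * Real.exp (n * U x) := by
      calc |a| * Sk C k * Real.exp (n * U x) = |a| * (Sk C k * Real.exp (n * U x)) := by ring
        _ ≤ |a| * ((C.card : ℝ) ^ 2 * Real.exp (κ / 2 * n) * x ^ k * n.choose k) :=
            mul_le_mul_of_nonneg_left h8 (abs_nonneg a)
        _ = (|a| * x ^ k) * ((C.card : ℝ) ^ 2 * Real.exp (κ / 2 * n) * n.choose k) := by ring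
        _ ≤ Real.exp (n * (U x - κ)) * ((C.card : ℝ) ^ 2 * Real.exp (κ / 2 * n) * n.choose k) :=
            mul_le_mul_of_nonneg_right h6 (by positivity)
        _ = (C.card : ℝ) ^ 2 * (Real.exp (n * (U x - κ)) * Real.exp (κ / 2 * n)) * n.choose k := by
            ring
        _ = (C.card : ℝ) ^ 2 * (Real.exp (-(κ / 2 * n)) * Real.exp (n * U x)) * n.choose k := by
            congr 2
            rw [← Real.exp_add, ← Real.exp_add]
            congr 1
            ring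
        _ = _ := by ring
    exact le_of_mul_le_mul_right h10 hEU
  rw [div_mul_eq_mul_div, div_le_iff₀ hch]
  exact h7


theorem ks_dl {t : ℝ} (ht : 0 < t) : 0 < dl t ∧ dl t < 1 / 2 := by
  have h1 := Exact.sI_pos ht
  have h2 := Exact.sI_lt_one ht
  unfold dl
  constructor <;> linarith

/-- the constant from the remainder of the division -/
theorem ks_const {g : ℝ} (hg : 0 < g) (hg1 : g ≤ 1) (N0 : ℕ) : ∃ n1 : ℕ, ∀ n ≥ n1, ∀ V : ℝ, 0 ≤ V →
    0 < N0 → Real.exp (N0 * (V - g)) ^ (n / N0) * 2 ^ (n % N0) ≤ Real.exp (n * (V - g / 2)) := by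
  obtain ⟨n1, hn1⟩ := exists_nat_ge (4 * N0 / g)
  refine ⟨n1, fun n hn V hV hN => ?_⟩
  have hr : n % N0 < N0 := Nat.mod_lt _ hN
  have hdiv : N0 * (n / N0) + n % N0 = n := Nat.div_add_mod n N0
  have hdivR : (N0 : ℝ) * ((n / N0 : ℕ) : ℝ) + ((n % N0 : ℕ) : ℝ) = n := by exact_mod_cast hdiv
  have hrR : ((n % N0 : ℕ) : ℝ) ≤ N0 := by exact_mod_cast hr.le
  have hr0 : (0 : ℝ) ≤ ((n % N0 : ℕ) : ℝ) := Nat.cast_nonneg _
  have hl2 : Real.log 2 ≤ 1 := by
    have := Real.log_two_lt_d9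
    linarith
  have hl20 : 0 < Real.log 2 := Real.log_pos (by norm_num)
  have h2 : (2 : ℝ) ^ (n % N0) = Real.exp ((n % N0 : ℕ) * Real.log 2) := by
    rw [Real.exp_nat_mul, Real.exp_log (by norm_num)]
  rw [h2, ← Real.exp_nat_mul, ← Real.exp_add]
  apply Real.exp_le_exp.2
  have hnR : 4 * N0 / g ≤ n := hn1.trans (by exact_mod_cast hn)
  rw [div_le_iff₀ hg] at hnR
  have e1 : ((n / N0 : ℕ) : ℝ) * (N0 * (V - g)) = (n - ((n % N0 : ℕ) : ℝ)) * (V - g) := by
    rw [← hdivR]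
    ring
  rw [e1]
  generalize ((n % N0 : ℕ) : ℝ) = r at *
  have h3 : 0 ≤ r * V := mul_nonneg hr0 hV
  have h4 : r * g ≤ r := by nlinarith
  have h5 : r * Real.log 2 ≤ r := by nlinarith
  nlinarith

theorem ks_of_base {t : ℝ} (ht : 0 < t) {F0 : ℂ → ℂ} {N0 : ℕ}
    {σ τ ηh κ e ρ1 p1 p2 p3 p4 κk x2 g : ℝ}
    (H : Base t F0 N0 σ τ ηh κ e ρ1 p1 p2 p3 p4 κk x2 g) :
    ∃ κ1 : ℝ, 0 < κ1 ∧ ∃ ε : ℝ, 0 < ε ∧ ∃ n1 : ℕ, ∀ n ≥ n1, ∀ C : Finset (Wd n),
      IsCode ⌈dl t * n⌉₊ C → pw n (Tensor.ell (dl t) - ε) ≤ C.card →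
      (1 / 4) * (C.card : ℝ) ^ 2 ≤
        ∑ k ∈ range (n / 2 + 1), cn F0 N0 n k / n.choose k * Sk C k ∧
      ∑ k ∈ range (n / 2 + 1), cn F0 N0 n k ≤
        pw n (Tensor.ell (dl t)) * Real.exp (-(κ1 * n)) := by
  obtain ⟨hd0, hd1⟩ := ks_dl ht
  have P : Pot (dl t) (UI t) (gI t) := potI ht
  have hg := H.hg
  have hcv : 0 ≤ Exact.cval t := (cval_pos ht).le
  obtain ⟨ε, hε, n0, hterm⟩ := ks_term P hd0 hd1 H.hx0 H.hx1 (show 0 < g / 2 by linarith) H.hxk
  obtain ⟨n2, hn2⟩ := ks_const hg H.hg1 N0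
  obtain ⟨n3, hn3⟩ := pa_lin 4 (show 0 < g / 4 by linarith)
  refine ⟨g / 4, by linarith, ε, hε, n0 + n2 + n3, fun n hn C hC hcard => ?_⟩
  have hnn : (0 : ℝ) ≤ n := Nat.cast_nonneg n
  have hpoly := hn3 n (by omega)
  constructor
  · -- the k side
    refine kside_of (κk := κk) (by rw [cn_zero H.zero]; norm_num) (fun k hk => H.low n k hk) ?_
    have hM : (0 : ℝ) ≤ (C.card : ℝ) ^ 2 := by positivity
    have hb : ∀ k ∈ (range (n / 2 + 1)).filter (fun k : ℕ => κk * n < k),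
        |cn F0 N0 n k| / n.choose k * Sk C k ≤ (C.card : ℝ) ^ 2 * Real.exp (-(g / 2 / 2 * n)) := by
      intro k hk
      rw [mem_filter, mem_range] at hk
      refine hterm n (by omega) C hC hcard k _ hk.2.le (by omega) ?_
      intro x hx hx1
      have hx0 : 0 < x := lt_of_lt_of_le H.hx0 hx
      have h1 := cn_bound H.N0pos H.diff H.conj hx0 hx1
        (B := Real.exp (N0 * (UI t x - g))) (Real.exp_pos _).le
        (fun z hz => by
          have := H.ks z (by rw [hz]; exact hx) (by rw [hz]; exact hx1)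
          rwa [hz] at this) n k
      refine h1.trans (hn2 n (by omega) (UI t x) (P.U_pos hd0 hd1 hx0 hx1).le H.N0pos)
    have hcardle : (((range (n / 2 + 1)).filter (fun k : ℕ => κk * n < k)).card : ℝ) ≤ (n : ℝ) + 1 := by
      have h3 : ((range (n / 2 + 1)).filter (fun k : ℕ => κk * n < k)).card ≤ n / 2 + 1 := by
        refine (Finset.card_filter_le _ _).trans ?_
        rw [card_range]
      have h4 : ((range (n / 2 + 1)).filter (fun k : ℕ => κk * n < k)).card ≤ n + 1 := by omega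
      exact_mod_cast h4
    calc ∑ k ∈ (range (n / 2 + 1)).filter (fun k : ℕ => κk * n < k),
          |cn F0 N0 n k| / n.choose k * Sk C k
        ≤ ((range (n / 2 + 1)).filter (fun k : ℕ => κk * n < k)).card •
          ((C.card : ℝ) ^ 2 * Real.exp (-(g / 2 / 2 * n))) := Finset.sum_le_card_nsmul _ _ _ hb
      _ ≤ ((n : ℝ) + 1) * ((C.card : ℝ) ^ 2 * Real.exp (-(g / 2 / 2 * n))) := by
          rw [nsmul_eq_mul]
          exact mul_le_mul_of_nonneg_right hcardle (by positivity)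
      _ ≤ (1 / 4) * (C.card : ℝ) ^ 2 := by
          have h5 : ((n : ℝ) + 1) * Real.exp (-(g / 2 / 2 * n)) ≤ 1 / 4 := by
            have hE := Real.exp_pos (g / 2 / 2 * n)
            rw [Real.exp_neg, ← div_eq_mul_inv, div_le_iff₀ hE]
            have e1 : g / 2 / 2 * (n : ℝ) = g / 4 * n := by ring
            rw [e1]
            linarith
          nlinarith
  · -- the mass
    have hk : ∀ k : ℕ, |cn F0 N0 n k| ≤ Real.exp (n * (Exact.cval t - g / 2)) := by
      intro k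
      have h1 : ∀ x : ℝ, 0 < x → x < 1 →
          |cn F0 N0 n k| * x ^ k ≤ Real.exp (n * (Exact.cval t - g / 2)) := by
        intro x hx0 hx1
        have h2 := cn_bound H.N0pos H.diff H.conj hx0 hx1
          (B := Real.exp (N0 * (Exact.cval t - g))) (Real.exp_pos _).le
          (fun z hz => H.mass z (by rw [hz]; exact hx1)) n k
        exact h2.trans (hn2 n (by omega) _ hcv H.N0pos)
      have h3 : Filter.Tendsto (fun x : ℝ => |cn F0 N0 n k| * x ^ k) (nhdsWithin 1 (Set.Iio 1))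
          (nhds (|cn F0 N0 n k| * 1 ^ k)) :=
        ((continuous_const.mul (continuous_pow k)).tendsto 1).mono_left nhdsWithin_le_nhds
      rw [one_pow, mul_one] at h3
      refine le_of_tendsto h3 ?_
      filter_upwards [Ioo_mem_nhdsLT (show (0 : ℝ) < 1 by norm_num)] with x hx
      exact h1 x hx.1 hx.2
    have hell : Tensor.ell (dl t) * Real.log 2 = Exact.cval t := ell_I ht
    have hpw : pw n (Tensor.ell (dl t)) = Real.exp (n * Exact.cval t) := by
      rw [pw_eq_exp, hell]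
    rw [hpw, ← Real.exp_add]
    calc ∑ k ∈ range (n / 2 + 1), cn F0 N0 n k
        ≤ ∑ k ∈ range (n / 2 + 1), Real.exp (n * (Exact.cval t - g / 2)) :=
          Finset.sum_le_sum fun k _ => (le_abs_self _).trans (hk k)
      _ ≤ ((n : ℝ) + 1) * Real.exp (n * (Exact.cval t - g / 2)) := by
          rw [sum_const, card_range, nsmul_eq_mul]
          apply mul_le_mul_of_nonneg_right _ (Real.exp_pos _).le
          have : n / 2 + 1 ≤ n + 1 := by omega
          exact_mod_cast this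
      _ ≤ Real.exp (g / 4 * n) * Real.exp (n * (Exact.cval t - g / 2)) := by
          apply mul_le_mul_of_nonneg_right _ (Real.exp_pos _).le
          nlinarith
      _ = _ := by
          rw [← Real.exp_add]
          congr 1
          ring

end Pool.Agent.Lib.MP_0430e4_lc.YP
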