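import Pool.Agent.Lib.MP_0430e4_lc.YP.WK
import Pool.Agent.Lib.MP_0430e4_lc.YP.KS
import Pool.Agent.Lib.MP_0430e4_lc.YP.HG
import Pool.Agent.Lib.MP_0430e4_lc.AC.Main4
import Pool.Agent.Lib.MP_0430e4_lc.AC.PA6
import Pool.Agent.Lib.MP_0430e4_lc.AC.EllPos

/-!
# FV: the forced amplitude of branch I from the existence of the base function (helper13)
-/

set_option autoImplicit false

open Finset Polynomial

namespace Pool.Agent.Lib.MP_0430e4_lc.YP

open BY AC YG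

theorem fv_exp_mono (n : ℕ) {a b : ℝ} (h : a ≤ b) : Real.exp (-(b * n)) ≤ Real.exp (-(a * n)) := by
  apply Real.exp_le_exp.mpr
  have := mul_le_mul_of_nonneg_right h (Nat.cast_nonneg (α := ℝ) n)
  linarith

theorem fv_wok_mono {n : ℕ} {G : ℝ[X]} {δ σ τ η η' κ κ' e ωa ωb p1 p2 p3 p4 : ℝ} (h1 : η ≤ η')
    (h2 : κ' ≤ κ) (H : WOK n G δ σ τ η κ e ωa ωb p1 p2 p3 p4) :
    WOK n G δ σ τ η' κ' e ωa ωb p1 p2 p3 p4 := by
  have hn : (0 : ℝ) ≤ n := Nat.cast_nonneg n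
  have key : ∀ a b : ℝ, a ≤ b → (2 : ℝ) ^ n * Real.exp (n * a) ≤ 2 ^ n * Real.exp (n * b) := by
    intro a b hab
    apply mul_le_mul_of_nonneg_left _ (by positivity)
    apply Real.exp_le_exp.mpr
    exact mul_le_mul_of_nonneg_left hab hn
  exact ⟨fun φ a b c => (H.far φ a b c).trans (key _ _ (by linarith)),
    fun φ a => (H.arc φ a).trans (key _ _ h1),
    fun φ a => (H.out φ a).trans (key _ _ (by linarith)),
    fun φ a => (H.inn φ a).trans (key _ _ (by linarith)), H.edge⟩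

/-- **The forced amplitude of branch I from the base function.** -/
theorem forcedV_of {t : ℝ} (ht : 0 < t) (hB : BaseEx t) : ForcedV (dl t) (Tensor.ell (dl t)) := by
  have hs0 := Exact.sI_pos ht
  have hs1 := Exact.sI_lt_one ht
  have h0 : 0 < dl t := by unfold dl; linarith
  have h1 : dl t < 1 / 2 := by unfold dl; linarith
  have hL0 : 0 < Tensor.ell (dl t) := ell_pos h0.le h1
  have P : Pot (dl t) (UI t) (gI t) := potI ht
  obtain ⟨κh, hκh, Hhi⟩ := hi_half_all P h0 h1 hL0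
  obtain ⟨L, hL⟩ : ∃ L : ℝ, L = Tensor.ell (dl t) := ⟨_, rfl⟩
  rw [← hL] at hL0 Hhi ⊢
  -- the bound `p0`
  obtain ⟨p0, hp0⟩ : ∃ p0 : ℝ, p0 = (2 : ℝ) ^ (-L) := ⟨_, rfl⟩
  have hp0pos : 0 < p0 := by rw [hp0]; positivity
  have hp01 : p0 < 1 := by
    rw [hp0]
    exact Real.rpow_lt_one_of_one_lt_of_neg (by norm_num) (by linarith)
  have h2L : (2 : ℝ) ^ (1 - L) = 2 * p0 := by
    rw [hp0, sub_eq_add_neg, Real.rpow_add (by norm_num), Real.rpow_one]
  -- the slope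
  obtain ⟨r, hr⟩ : ∃ r : ℝ, r = min (1 / 16) (min ((1 / 2 - dl t) / 4)
    (min (κh / 16) ((1 - p0) / 16))) := ⟨_, rfl⟩
  have hr0 : 0 < r := by
    rw [hr]
    refine lt_min (by norm_num) (lt_min (by linarith) (lt_min (by linarith) (by linarith)))
  have hr1 : r ≤ 1 / 16 := by rw [hr]; exact min_le_left _ _
  have hr2 : r ≤ (1 / 2 - dl t) / 4 := by
    rw [hr]; exact (min_le_right _ _).trans (min_le_left _ _)
  have hr3 : r ≤ κh / 16 := by
    rw [hr]; exact (min_le_right _ _).trans ((min_le_right _ _).trans (min_le_left _ _))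
  have hr4 : r ≤ (1 - p0) / 16 := by
    rw [hr]; exact (min_le_right _ _).trans ((min_le_right _ _).trans (min_le_right _ _))
  have hpr : p0 * (1 / 2 + 3 * r) < 1 / 2 - 3 * r := by nlinarith
  have hden : 0 < p0 * (1 / 2 + 3 * r) := by positivity
  obtain ⟨σ0, hσ0⟩ : ∃ σ0 : ℝ, σ0 = Real.log ((1 / 2 - 3 * r) / (p0 * (1 / 2 + 3 * r))) := ⟨_, rfl⟩
  have hq1 : 1 < (1 / 2 - 3 * r) / (p0 * (1 / 2 + 3 * r)) := by rwa [one_lt_div hden]
  have hσ0pos : 0 < σ0 := by rw [hσ0]; exact Real.log_pos hq1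
  have hexp : Real.exp σ0 * (p0 * (1 / 2 + 3 * r)) = 1 / 2 - 3 * r := by
    rw [hσ0, Real.exp_log (by linarith)]
    field_simp
  refine ⟨psi0 t, p0, hp0pos, hp01.le, by rw [h2L]; linarith, ?_⟩
  intro w1 hw1
  obtain ⟨w, ρ, τ, hw, hww, hρ, hρw, hτ, hψ, hψ2, H⟩ := hB r hr0 w1 hw1
  refine ⟨w, ρ, hw, hww, hρ, ?_⟩
  intro τ' hτ'
  have hpi := Real.pi_pos
  have hqq : 1 / 2 + r + 2 * r ≤ 1 / p0 * (1 - (1 / 2 + r + 2 * r)) := by
    have e1 : 1 / p0 * (1 - (1 / 2 + r + 2 * r)) = (1 - (1 / 2 + r + 2 * r)) / p0 := by ring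
    rw [e1, le_div_iff₀ hp0pos]
    linarith
  have hF := forced_of (δ := dl t) (L := L) h0 h1 hL (ωa := 1 / 2 - r) (ωb := 1 / 2 + r) (ρ := r)
    (τ := τ) (κ2 := κh / 4) (p1 := psi0 t - w) (p2 := psi0 t - ρ) (p3 := psi0 t + ρ)
    (p4 := psi0 t + w) (p0 := p0) (q := 1 / p0) hr0 hτ (by positivity) (by linarith)
    (by linarith) (by linarith) hqq (by linarith) (by linarith) (by linarith) (by linarith) (by linarith)
    (Hhi _ _ (3 * r) (κh / 4) (by linarith) (by linarith) (by linarith) (by linarith) (by linarith)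
      (by linarith)) ?_ τ' hτ'
  · obtain ⟨ε, hε, n0, hn⟩ := hF
    refine ⟨ε, hε, n0, fun n hn0 C hC hcard => ?_⟩
    obtain ⟨p, ψ, hp, hpq, hψarc, hA⟩ := hn n hn0 C hC hcard
    refine ⟨p, ψ, hp, ?_, ?_, ?_, hA⟩
    · calc p0 * p ≤ p0 * (1 / p0) := mul_le_mul_of_nonneg_left hpq hp0pos.le
        _ = 1 := by field_simp
    · rcases hψarc with h | h
      · rw [abs_of_nonpos (by linarith [h.2])]; linarith [h.2]
      · rw [abs_of_nonneg (by linarith [h.1])]; linarith [h.1]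
    · rw [abs_le]
      rcases hψarc with h | h
      · constructor <;> linarith [h.1, h.2]
      · constructor <;> linarith [h.1, h.2]
  · intro η hη
    obtain ⟨ηh, hηh⟩ : ∃ ηh : ℝ, ηh = min (η / 2) (τ * (1 / 2 - dl t) / 4) := ⟨_, rfl⟩
    have hd : 0 < 1 / 2 - dl t := by linarith
    have hηh0 : 0 < ηh := by rw [hηh]; exact lt_min (by linarith) (by positivity)
    have hηh1 : ηh ≤ η / 2 := by rw [hηh]; exact min_le_left _ _
    have hηh2 : ηh ≤ τ * (1 / 2 - dl t) / 4 := by rw [hηh]; exact min_le_right _ _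
    obtain ⟨F0, N0, σ, κ, e, κk, x2, g, hσσ, hσe, B⟩ := H ηh hηh0 σ0 hσ0pos
    obtain ⟨κ1, hκ1, ε1, hε1, n1, H1⟩ := ks_of_base ht B
    obtain ⟨κ2, hκ2, ε2, hε2, n2, H2⟩ := high_of_base ht hr0 hr2 hηh0 hηh2 (by linarith)
      (by linarith) (by linarith) (by linarith) hψ2 B
    obtain ⟨n3, H3⟩ := wok_of_base ht hηh0 hr0 (by linarith) (by linarith) (by linarith)
      (by linarith) (by linarith) hψ2 B
    obtain ⟨κ', hκ'⟩ : ∃ κ' : ℝ, κ' = min (κ / 2) (min κ1 κ2) := ⟨_, rfl⟩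
    have hκ'0 : 0 < κ' := by
      rw [hκ']; exact lt_min (by have := B.hκ; linarith) (lt_min hκ1 hκ2)
    have hκ'1 : κ' ≤ κ / 2 := by rw [hκ']; exact min_le_left _ _
    have hκ'2 : κ' ≤ κ1 := by rw [hκ']; exact (min_le_right _ _).trans (min_le_left _ _)
    have hκ'3 : κ' ≤ κ2 := by rw [hκ']; exact (min_le_right _ _).trans (min_le_right _ _)
    have he := B.he
    have hσ := B.hσ
    refine ⟨σ, κ', e / 2, hκ'0, by linarith, hσ.le, B.hστ, by nlinarith, ?_, min ε1 ε2,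
      lt_min hε1 hε2, n1 + n2 + n3, fun n hn C hC hcard => ?_⟩
    · have h3 : Real.exp σ ≤ Real.exp σ0 := Real.exp_le_exp.mpr hσσ
      have h4 : (1 : ℝ) - (1 / 2 - r - 2 * r) = 1 / 2 + 3 * r := by ring
      have h5 : (1 : ℝ) / 2 - r - 2 * r = 1 / 2 - 3 * r := by ring
      rw [h4, h5]
      calc p0 * ((1 / 2 + 3 * r) * Real.exp σ) = Real.exp σ * (p0 * (1 / 2 + 3 * r)) := by ring
        _ ≤ Real.exp σ0 * (p0 * (1 / 2 + 3 * r)) := mul_le_mul_of_nonneg_right h3 hden.le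
        _ = _ := hexp
    · have hc1 : pw n (Tensor.ell (dl t) - ε1) ≤ C.card := by
        refine (pw_mono n ?_).trans hcard
        rw [hL]
        have := min_le_left ε1 ε2
        linarith
      have hc2 : pw n (Tensor.ell (dl t) - ε2) ≤ C.card := by
        refine (pw_mono n ?_).trans hcard
        rw [hL]
        have := min_le_right ε1 ε2
        linarith
      obtain ⟨K1, K2⟩ := H1 n (by omega) C hC hc1
      have K3 := H2 n (by omega) C hC hc2
      have K4 := H3 n (by omega)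
      refine ⟨n / 2, cn F0 N0 n, ⟨Nat.div_le_self n 2, K1, ?_, ?_⟩,
        fv_wok_mono (by linarith) hκ'1 K4⟩
      · refine K2.trans ?_
        rw [hL]
        exact mul_le_mul_of_nonneg_left (fv_exp_mono n hκ'2) (pw_pos n _).le
      · exact K3.trans (mul_le_mul_of_nonneg_left (fv_exp_mono n hκ'3) (by positivity))

end Pool.Agent.Lib.MP_0430e4_lc.YP
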