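import Pool.Agent.Lib.MP_0430e4_lc.YP.Ing
import Pool.Agent.Lib.MP_0430e4_lc.YK.Mass
import Pool.Agent.Lib.MP_0430e4_lc.AC.YGap

/-!
# Mass: slope of the LP curve (owner helper64)
-/

set_option autoImplicit false

open Polynomial Finset

namespace Pool.Agent.Lib.MP_0430e4_lc.YP

open Complex
open BY AC YG

theorem ms_A0 (η : ℝ) : A0 η = YK.Dv η := rfl

theorem ms_tp (η : ℝ) : tp η = YK.tip η := rfl

/-- lowering the level by `Δ` gains at least `(1 - θ) η A(0) Δ` of mass -/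
theorem mass_slope {t : ℝ} (ht : 0 < t) {θ e0 : ℝ} (hθ : 0 < θ) (he0 : 0 < e0) :
    ∃ e1 Δ : ℝ, 0 < e1 ∧ e1 ≤ e0 ∧ 0 ≤ Δ ∧ Δ ≤ (1 + θ) * e1 / (t / 2 * A0 (t / 2)) ∧
      ∃ n1 : ℕ, ∀ n ≥ n1, ∃ f : Wd n → ℝ, WCert ((Exact.sI t - Δ) * n) f ∧
        ∑ x, f x ≤ Real.exp (n * (Exact.cval t - e1)) := by
  obtain ⟨e1, Dl, h1, h2, h3, h4, N1, h5⟩ := YK.mass_ex ht hθ he0
  have hη : 0 < t / 2 := by linarith
  have hA : 0 < t / 2 * A0 (t / 2) := mul_pos hη (YK.Dv_pos hη)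
  refine ⟨e1, Dl, h1, h2, h3.le, ?_, N1, fun n hn => ?_⟩
  · rw [le_div_iff₀ hA, ms_A0]
    linarith
  · obtain ⟨f, H, -, hf, hm⟩ := h5 n hn
    exact ⟨f, hf, hm⟩

/-- the tips: a smaller slit, as near as we like -/
theorem tips {η : ℝ} (h : 0 < η) {ε : ℝ} (hε : 0 < ε) : ∃ η1 : ℝ, η < η1 ∧ tp η1 < tp η ∧
    tp η - ε < tp η1 := by
  obtain ⟨d, hd, hball⟩ := YK.tip_near h hε
  obtain ⟨h1, h2⟩ := hball (η + d / 2) (by linarith) (by linarith)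
  exact ⟨η + d / 2, by linarith, h2, h1⟩

/-- the gap beyond the slit -/
theorem gap_pos {t : ℝ} (ht : 0 < t) {y : ℝ} (h0 : tp (t / 2) < y) (h1 : y ≤ 1) :
    Ud t ((y : ℂ) * I) < Real.log (1 + y ^ 2) / 2 := by
  have hη : 0 < t / 2 := by linarith
  have hy : 0 < y := (YK.tip_pos hη).trans h0
  have h2 := YK.gap_disc hη (z := (y : ℂ) * I) (by simpa [abs_of_pos hy] using h1) (by simp)
    (by rw [← ms_tp]; simpa [abs_of_pos hy] using h0)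
  have e : 2 * (t / 2) = t := by ring
  rw [e] at h2
  simpa [Ud] using h2

/-- branch I: `c < (log 2) / 2` -/
theorem cval_lt_half {t : ℝ} (ht : 0 < t) : Exact.cval t < Real.log 2 / 2 :=
  AC.cval_lt_half ht

end Pool.Agent.Lib.MP_0430e4_lc.YP
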