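import Pool.Agent.Lib.MP_0430e4_lc.YP.Om
import Pool.Agent.Lib.MP_0430e4_lc.YP.Mass
import Pool.Agent.Lib.MP_0430e4_lc.YA.A4
import Pool.Agent.Lib.MP_0430e4_lc.YA.HF

/-!
# Hfar: the circles `|u| = e^s` against the potential (owner helper3)
-/

set_option autoImplicit false

open Polynomial Finset

namespace Pool.Agent.Lib.MP_0430e4_lc.YP

open Complex
open BY AC YG

theorem hfar_of {t η1 ρ1 w ρ τ b0 ab ab' k3 k3' θs C4 zN κk x2 gb : ℝ} {N : ℕ} {E : ℂ → ℂ}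
    (hB : SB t η1 ρ1 w ρ τ b0 ab ab' k3 k3' θs C4 zN κk x2 gb N E) :
    ∃ e0 : ℝ, 0 < e0 ∧ ∀ (e1 : ℝ) (N0 m1 m2 : ℕ) (q : ℝ[X]) (l : ℝ), e1 ≤ e0 →
      SC t η1 ab ab' k3 k3' θs e1 N N0 m1 m2 q l → ∀ sb : ℝ, 0 < sb → ∃ g' : ℝ, 0 < g' ∧
        ∀ s φ : ℝ, sb ≤ s → s ≤ Real.log (4 / dl t) → 0 ≤ φ → φ < Real.pi / 2 →
          (φ ≤ psi0 t - w ∨ psi0 t + w ≤ φ ∨ τ ≤ s) →
          bs (F0of t q E m1 m2) N0 (up s φ) ≤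
            Real.exp (N0 * (s + hxU (UI t) (Real.exp (-s)) - g')) :=
  YA.hfar_all hB

end Pool.Agent.Lib.MP_0430e4_lc.YP
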