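import Pool.Agent.Lib.MP_0430e4_lc.YP.NearG
import Pool.Agent.Lib.MP_0430e4_lc.YP.Defs

/-!
# NEAR1 (helper41): the field `far` near `u = 1`

`F0 = Q * E ^ m1 * B ^ m2`, `B z = 1 + z²/y0²`. Inputs: the bound of `Q` near `u = 1` (certificate of level
`ℓ`), the bound of `E` in the left half disc near `0`.
-/

set_option autoImplicit false

namespace Pool.Agent.Lib.MP_0430e4_lc.YP

open Complex BY

theorem near_core {Q E : ℂ → ℂ} {N0 m1 m2 : ℕ} {l gE zN y0 : ℝ} (hN : 0 < N0) (hg : 0 ≤ gE)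
    (hy : 0 < y0)
    (hq : ∀ s φ : ℝ, 0 ≤ s → s ≤ 1 / N0 → 0 ≤ φ → φ < Real.pi / 2 →
      ‖1 + up s φ‖ ^ N0 * ‖Q (zu (up s φ))‖ ≤ 2 ^ N0 * (1 + s * ((N0 - l) / 2) + N0 ^ 2 * s ^ 2))
    (hE : ∀ z : ℂ, z.re ≤ 0 → ‖z‖ ≤ zN → ‖E z‖ ≤ Real.exp (gE * z.re))
    {s φ : ℝ} (h0 : 0 ≤ s) (h1 : s ≤ 1 / N0) (h2 : s ≤ zN / 2) (h3 : s ≤ y0 / 2)
    (hφ : 0 ≤ φ) (hφ1 : φ ≤ zN / 2) (hφ2 : φ ≤ y0) (hφ3 : φ < Real.pi / 2) :
    bs (fun z => Q z * E z ^ m1 * (1 + z ^ 2 / (y0 : ℂ) ^ 2) ^ m2) N0 (up s φ) ≤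
      Real.exp (N0 * Real.log 2 + s * ((N0 - l) / 2 - m1 * gE / 2) +
        (N0 ^ 2 + m1 * gE / 2 + m2 / y0 ^ 2) * s ^ 2) := by
  have hN1 : (1 : ℝ) ≤ N0 := by exact_mod_cast hN
  have hs1 : s ≤ 1 := h1.trans (by rw [div_le_one (by linarith)]; exact hN1)
  have hc : 0 ≤ Real.cos φ := Real.cos_nonneg_of_mem_Icc ⟨by linarith [Real.pi_pos], hφ3.le⟩
  obtain ⟨z, hz⟩ : ∃ z : ℂ, z = zu (up s φ) := ⟨_, rfl⟩
  have hre := ng_re_le h0 hs1 hc (φ := φ)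
  have hren := ng_re_nonpos h0 hc (s := s) (φ := φ)
  have hra := ng_re_abs h0 hc (s := s) (φ := φ)
  have hia := ng_im_abs (s := s) hφ hφ3.le
  have hno := ng_norm h0 hφ hφ3.le (s := s) (φ := φ)
  have hqq := hq s φ h0 h1 hφ hφ3
  rw [← hz] at hre hren hra hia hno hqq
  have hEz : ‖E z‖ ^ m1 ≤ Real.exp (-(m1 * gE * (s / 2 * (1 - s)))) := by
    have h4 := hE z hren (by linarith)
    calc ‖E z‖ ^ m1 ≤ Real.exp (gE * z.re) ^ m1 := pow_le_pow_left₀ (norm_nonneg _) h4 m1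
      _ = Real.exp (m1 * (gE * z.re)) := by rw [← Real.exp_nat_mul]
      _ ≤ _ := by
        rw [Real.exp_le_exp]
        have h5 : 0 ≤ (m1 : ℝ) * gE := by positivity
        have h6 := mul_le_mul_of_nonneg_left hre h5
        linarith
  have hBz : ‖(1 + z ^ 2 / (y0 : ℂ) ^ 2) ^ m2‖ ≤ Real.exp (m2 / y0 ^ 2 * s ^ 2) := by
    have h4 : z.re ^ 2 ≤ s ^ 2 := by
      rw [← sq_abs z.re]
      exact pow_le_pow_left₀ (abs_nonneg _) hra 2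
    have h5 : z.re ^ 2 ≤ y0 ^ 2 / 2 := by nlinarith
    have h6 := ng_B hy (hia.trans hφ2) h5
    have h7 : (1 : ℝ) + z.re ^ 2 / y0 ^ 2 ≤ Real.exp (s ^ 2 / y0 ^ 2) := by
      have h8 := Real.add_one_le_exp (s ^ 2 / y0 ^ 2)
      have h9 : z.re ^ 2 / y0 ^ 2 ≤ s ^ 2 / y0 ^ 2 :=
        div_le_div_of_nonneg_right h4 (by positivity)
      linarith
    rw [norm_pow]
    calc ‖1 + z ^ 2 / (y0 : ℂ) ^ 2‖ ^ m2 ≤ Real.exp (s ^ 2 / y0 ^ 2) ^ m2 :=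
          pow_le_pow_left₀ (norm_nonneg _) (h6.trans h7) m2
      _ = Real.exp (m2 * (s ^ 2 / y0 ^ 2)) := by rw [← Real.exp_nat_mul]
      _ = _ := by congr 1; ring
  have hQz : ‖1 + up s φ‖ ^ N0 * ‖Q z‖ ≤
      Real.exp (N0 * Real.log 2 + (s * ((N0 - l) / 2) + N0 ^ 2 * s ^ 2)) := by
    refine hqq.trans ?_
    rw [Real.exp_add, mul_comm (N0 : ℝ) (Real.log 2), Real.exp_mul, Real.exp_log two_pos,
      Real.rpow_natCast]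
    apply mul_le_mul_of_nonneg_left _ (by positivity)
    have := Real.add_one_le_exp (s * ((N0 - l) / 2) + N0 ^ 2 * s ^ 2)
    linarith
  unfold bs
  rw [← hz, norm_mul, norm_mul, norm_pow (E z) m1]
  calc ‖1 + up s φ‖ ^ N0 * (‖Q z‖ * ‖E z‖ ^ m1 * ‖(1 + z ^ 2 / (y0 : ℂ) ^ 2) ^ m2‖)
      = ‖1 + up s φ‖ ^ N0 * ‖Q z‖ * ‖E z‖ ^ m1 * ‖(1 + z ^ 2 / (y0 : ℂ) ^ 2) ^ m2‖ := by ring
    _ ≤ Real.exp (N0 * Real.log 2 + (s * ((N0 - l) / 2) + N0 ^ 2 * s ^ 2)) *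
        Real.exp (-(m1 * gE * (s / 2 * (1 - s)))) * Real.exp (m2 / y0 ^ 2 * s ^ 2) := by
      apply mul_le_mul _ hBz (norm_nonneg _) (by positivity)
      exact mul_le_mul hQz hEz (by positivity) (by positivity)
    _ = _ := by
      rw [← Real.exp_add, ← Real.exp_add]
      congr 1
      ring

/-- the field `far` for `φ ≤ min (zN/2) y0` -/
theorem near_far {t : ℝ} {Q E : ℂ → ℂ} {N0 m1 m2 : ℕ} {Dl gE zN y0 κ : ℝ} (hN : 0 < N0)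
    (hg : 0 ≤ gE) (hy : 0 < y0) (hzN : 0 < zN)
    (hq : ∀ s φ : ℝ, 0 ≤ s → s ≤ 1 / N0 → 0 ≤ φ → φ < Real.pi / 2 →
      ‖1 + up s φ‖ ^ N0 * ‖Q (zu (up s φ))‖ ≤
        2 ^ N0 * (1 + s * ((N0 - (Exact.sI t - Dl) * N0) / 2) + N0 ^ 2 * s ^ 2))
    (hE : ∀ z : ℂ, z.re ≤ 0 → ‖z‖ ≤ zN → ‖E z‖ ≤ Real.exp (gE * z.re))
    (hκ : 0 < κ) (hgain : N0 * (Dl / 2 + 2 * κ) ≤ m1 * gE / 2) :
    ∃ σ1 : ℝ, 0 < σ1 ∧ ∀ s φ : ℝ, 0 ≤ s → s ≤ σ1 → 0 ≤ φ → φ ≤ zN / 2 → φ ≤ y0 → φ < Real.pi / 2 →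
      bs (fun z => Q z * E z ^ m1 * (1 + z ^ 2 / (y0 : ℂ) ^ 2) ^ m2) N0 (up s φ) ≤
        Real.exp (N0 * (Real.log 2 + s * dl t - κ * s)) := by
  have hN1 : (1 : ℝ) ≤ N0 := by exact_mod_cast hN
  obtain ⟨C, hC⟩ : ∃ C : ℝ, C = N0 ^ 2 + m1 * gE / 2 + m2 / y0 ^ 2 := ⟨_, rfl⟩
  have hC0 : 0 < C := by rw [hC]; positivity
  refine ⟨min (1 / N0) (min (zN / 2) (min (y0 / 2) (κ / C))), by positivity,
    fun s φ h0 h1 hφ hφ1 hφ2 hφ3 => ?_⟩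
  have g1 : s ≤ 1 / N0 := h1.trans (min_le_left _ _)
  have g2 : s ≤ zN / 2 := h1.trans ((min_le_right _ _).trans (min_le_left _ _))
  have g3 : s ≤ y0 / 2 :=
    h1.trans ((min_le_right _ _).trans ((min_le_right _ _).trans (min_le_left _ _)))
  have g4 : s ≤ κ / C :=
    h1.trans ((min_le_right _ _).trans ((min_le_right _ _).trans (min_le_right _ _)))
  rw [le_div_iff₀ hC0] at g4
  refine (near_core (m2 := m2) hN hg hy hq hE h0 g1 g2 g3 hφ hφ1 hφ2 hφ3).trans ?_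
  rw [Real.exp_le_exp, ← hC]
  have e1 : ((N0 : ℝ) - (Exact.sI t - Dl) * N0) / 2 = N0 * (dl t + Dl / 2) := by
    unfold dl
    ring
  rw [e1]
  have h5 : C * s ^ 2 ≤ N0 * κ * s := by
    have h6 : s * C * s ≤ κ * s := mul_le_mul_of_nonneg_right g4 h0
    have h7 : κ * s ≤ N0 * (κ * s) := le_mul_of_one_le_left (by positivity) hN1
    nlinarith
  have h8 := mul_le_mul_of_nonneg_left hgain h0
  nlinarith

end Pool.Agent.Lib.MP_0430e4_lc.YP
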