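import Pool.Agent.Lib.MP_0430e4_lc.YP.Om1

/-!
# Om: the two basic bounds of `F0` (owner helper66)
-/

set_option autoImplicit false

open Polynomial

namespace Pool.Agent.Lib.MP_0430e4_lc.YP

open Complex
open BY AC YG

variable {t η1 ρ1 w ρ τ b0 ab ab' k3 k3' θs C4 zN κk x2 gb e1 l : ℝ} {N N0 m1 m2 : ℕ}
  {E : ℂ → ℂ} {q : ℝ[X]}

theorem cp_abs (hcp : CP N0 l q) (z : ℂ) : ‖(q.aeval z : ℂ)‖ ≤ q.eval ‖z‖ := by
  rw [Polynomial.aeval_eq_sum_range, Polynomial.eval_eq_sum_range]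
  refine (norm_sum_le _ _).trans (Finset.sum_le_sum fun k _ => ?_)
  rw [norm_smul, norm_pow, Real.norm_eq_abs, abs_of_nonneg (hcp.nonneg k)]

theorem cp_eval_nonneg (hcp : CP N0 l q) {x : ℝ} (hx : 0 ≤ x) : 0 ≤ q.eval x := by
  rw [Polynomial.eval_eq_sum_range]
  exact Finset.sum_nonneg fun k _ => mul_nonneg (hcp.nonneg k) (pow_nonneg hx k)

theorem cp_real (q : ℝ[X]) (x : ℝ) : (q.aeval (x : ℂ) : ℂ) = ((q.eval x : ℝ) : ℂ) := by
  rw [Polynomial.aeval_eq_sum_range, Polynomial.eval_eq_sum_range]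
  push_cast
  refine Finset.sum_congr rfl fun k _ => ?_
  rw [Complex.real_smul]

/-- the three lines bound of a certificate -/
theorem cp_bound (ht : 0 < t) (hcp : CP N0 l q)
    (hm : q.eval 1 ≤ Real.exp (N0 * (Exact.cval t - e1))) {z : ℂ} (hz : ‖z‖ ≤ 1) :
    ‖(q.aeval z : ℂ)‖ ≤ Real.exp (N0 * (Ud t z - e1 / (t / 2) * om (t / 2) z)) := by
  have hη : 0 < t / 2 := by linarith
  have h := three_lines_disc hη (Exact.cval t - e1) (F := fun z => q.aeval z)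
    (Polynomial.differentiable_aeval q) (N := 1) N0
    (fun z hz => by
      rw [one_mul]
      refine (cp_abs hcp z).trans ?_
      rw [hz]
      exact hm)
    (fun y => by rw [one_mul]; exact hcp.imag y) hz
  rw [one_mul] at h
  have e : UG (t / 2) (Exact.cval t - e1) z = Ud t z - e1 / (t / 2) * om (t / 2) z := by
    have h2 := UG_add hη (Exact.cval t) (-e1) z
    have h3 : Exact.cval t - e1 = Exact.cval t + -e1 := by ring
    rw [h3, h2]
    unfold Ud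
    ring
  rw [e] at h
  exact h

/-- on the positive real axis -/
theorem cp_boundR (ht : 0 < t) (hcp : CP N0 l q)
    (hm : q.eval 1 ≤ Real.exp (N0 * (Exact.cval t - e1))) {z : ℂ} (hz0 : 0 < ‖z‖) (hz : ‖z‖ < 1) :
    ‖(q.aeval z : ℂ)‖ ≤
      Real.exp (N0 * (UI t ‖z‖ - e1 / (t / 2) * om (t / 2) (‖z‖ : ℂ))) := by
  have h1 : ‖((‖z‖ : ℝ) : ℂ)‖ ≤ 1 := by
    rw [Complex.norm_real, Real.norm_eq_abs, abs_of_pos hz0]; exact hz.le
  have h := cp_bound ht hcp hm h1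
  rw [cp_real, Complex.norm_real, Real.norm_eq_abs,
    abs_of_nonneg (cp_eval_nonneg hcp (norm_nonneg z)), Ud_real ht hz0 hz] at h
  exact (cp_abs hcp z).trans h

/-- **bound (A)**: at every point of the open disc -/
theorem F0_bnd (ht : 0 < t) (hE : EP η1 N C4 E)
    (hc : SC t η1 ab ab' k3 k3' θs e1 N N0 m1 m2 q l) {z : ℂ} (hz : ‖z‖ < 1) :
    ‖F0of t q E m1 m2 z‖ ≤ Real.exp (N0 * (Ud t z - e1 / (t / 2) * om (t / 2) z)) *
      (Real.exp (N * om η1 z) * Real.cosh (om η1 z) ^ 3) ^ m1 *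
        ‖1 + z ^ 2 / (tp (t / 2) : ℂ) ^ 2‖ ^ m2 := by
  unfold F0of
  rw [norm_mul, norm_mul, norm_pow, norm_pow]
  apply mul_le_mul_of_nonneg_right _ (by positivity)
  apply mul_le_mul (cp_bound ht hc.cp hc.mass hz.le) _ (by positivity) (Real.exp_pos _).le
  exact pow_le_pow_left₀ (norm_nonneg _) (hE.bnd z hz) m1

/-- **bound (B)**: radial -/
theorem F0_bndR (ht : 0 < t) (hη : 0 < η1) (hC : 0 ≤ C4) (hE : EP η1 N C4 E)
    (hc : SC t η1 ab ab' k3 k3' θs e1 N N0 m1 m2 q l) {z : ℂ} (hz0 : 0 < ‖z‖) (hz : ‖z‖ < 1) :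
    ‖F0of t q E m1 m2 z‖ ≤ Real.exp (N0 * (UI t ‖z‖ - e1 / (t / 2) * om (t / 2) (‖z‖ : ℂ))) *
      (Real.exp (N * om η1 (‖z‖ : ℂ)) * (1 + C4 * ‖z‖ ^ 4)) ^ m1 *
        (1 + ‖z‖ ^ 2 / tp (t / 2) ^ 2) ^ m2 := by
  unfold F0of
  rw [norm_mul, norm_mul, norm_pow, norm_pow]
  have hB : ‖1 + z ^ 2 / (tp (t / 2) : ℂ) ^ 2‖ ≤ 1 + ‖z‖ ^ 2 / tp (t / 2) ^ 2 := by
    refine (norm_add_le _ _).trans (le_of_eq ?_)
    rw [norm_one, norm_div, norm_pow, norm_pow, Complex.norm_real, Real.norm_eq_abs, sq_abs]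
  have hEz : ‖E z‖ ≤ Real.exp (N * om η1 (‖z‖ : ℂ)) * (1 + C4 * ‖z‖ ^ 4) := by
    refine (hE.bnd4 z hz).trans ?_
    apply mul_le_mul_of_nonneg_right _ (by positivity)
    apply Real.exp_le_exp.2
    exact mul_le_mul_of_nonneg_left (om_le_abs hη hz.le) (Nat.cast_nonneg N)
  apply mul_le_mul _ (pow_le_pow_left₀ (norm_nonneg _) hB m2) (by positivity) (by positivity)
  apply mul_le_mul (cp_boundR ht hc.cp hc.mass hz0 hz) _ (by positivity) (Real.exp_pos _).le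
  exact pow_le_pow_left₀ (norm_nonneg _) hEz m1

/-- analyticity etc. of `F0` -/
theorem F0_diff (hE : EP η1 N C4 E) :
    DifferentiableOn ℂ (F0of t q E m1 m2) (Metric.ball 0 1) := by
  unfold F0of
  have h1 : DifferentiableOn ℂ (fun z : ℂ => (q.aeval z : ℂ)) (Metric.ball 0 1) :=
    (Polynomial.differentiable_aeval q).differentiableOn
  have h2 := hE.diff
  have h3 : DifferentiableOn ℂ (fun z : ℂ => 1 + z ^ 2 / (tp (t / 2) : ℂ) ^ 2)
      (Metric.ball 0 1) := by fun_prop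
  exact (h1.mul (h2.pow m1)).mul (h3.pow m2)

theorem F0_conj (hE : EP η1 N C4 E) {z : ℂ} (hz : ‖z‖ < 1) :
    F0of t q E m1 m2 (starRingEnd ℂ z) = starRingEnd ℂ (F0of t q E m1 m2 z) := by
  unfold F0of
  have h1 : (q.aeval (starRingEnd ℂ z) : ℂ) = starRingEnd ℂ (q.aeval z) := by
    rw [Polynomial.aeval_eq_sum_range, Polynomial.aeval_eq_sum_range, map_sum]
    refine Finset.sum_congr rfl fun k _ => ?_
    rw [Complex.real_smul, Complex.real_smul, map_mul, map_pow, Complex.conj_ofReal]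
  rw [h1, hE.conj z hz]
  simp only [map_mul, map_pow, map_add, map_one, map_div₀, Complex.conj_ofReal]

theorem F0_zero (hE : EP η1 N C4 E) (hcp : CP N0 l q) : F0of t q E m1 m2 0 = 1 := by
  unfold F0of
  have h1 : (q.aeval (0 : ℂ) : ℂ) = 1 := by
    have := cp_real q 0
    rw [Complex.ofReal_zero] at this
    rw [this, ← Polynomial.coeff_zero_eq_eval_zero, hcp.zero]
    simp
  rw [h1, hE.zero]
  simp

end Pool.Agent.Lib.MP_0430e4_lc.YP
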