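import Pool.Agent.Lib.MP_0430e4_lc.YP.EB
import Pool.Agent.Lib.MP_0430e4_lc.YP.Om
import Pool.Agent.Lib.MP_0430e4_lc.YP.NearF

/-!
# Near1: the far circle near `u = 1` (owner helper41)

`near_far` (file NearF) with the left gain `(1-θ) N / A0` of `E`, `θ = min (1/2) (θs A0 / (2 ab))`.
-/

set_option autoImplicit false

open Polynomial Finset

namespace Pool.Agent.Lib.MP_0430e4_lc.YP

open Complex
open BY AC YG

theorem near1 {t η1 ρ1 w ρ τ b0 ab ab' k3 k3' θs C4 zN κk x2 gb : ℝ} {N : ℕ} {E : ℂ → ℂ}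
    (hB : SB t η1 ρ1 w ρ τ b0 ab ab' k3 k3' θs C4 zN κk x2 gb N E) :
    ∃ φ1 : ℝ, 0 < φ1 ∧ φ1 ≤ psi0 t - w ∧ ∀ (e1 : ℝ) (N0 m1 m2 : ℕ) (q : ℝ[X]) (l : ℝ),
      SC t η1 ab ab' k3 k3' θs e1 N N0 m1 m2 q l → ∃ σ1 : ℝ, 0 < σ1 ∧ ∀ σ : ℝ, 0 < σ → σ ≤ σ1 →
        ∃ κ : ℝ, 0 < κ ∧ ∀ φ : ℝ, 0 ≤ φ → φ ≤ φ1 →
          bs (F0of t q E m1 m2) N0 (up σ φ) ≤
            Real.exp (N0 * (Real.log 2 + σ * dl t - κ)) := by
  have hη1 : 0 < η1 := by linarith [hB.ht, hB.hη]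
  have hη : 0 < t / 2 := by linarith [hB.ht]
  have hA := A0_pos hη1
  have hab := hB.hab
  have hθs := hB.hθ
  have htp := tp_pos hη
  obtain ⟨θ, hθ⟩ : ∃ θ : ℝ, θ = min (1 / 2) (θs * A0 η1 / (2 * ab)) := ⟨_, rfl⟩
  have hθ0 : 0 < θ := by rw [hθ]; exact lt_min (by norm_num) (by positivity)
  have hθ1 : θ ≤ 1 / 2 := by rw [hθ]; exact min_le_left _ _
  have hθ2 : θ * (2 * ab) ≤ θs * A0 η1 := by
    have h1 : θ ≤ θs * A0 η1 / (2 * ab) := by rw [hθ]; exact min_le_right _ _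
    rwa [le_div_iff₀ (by positivity)] at h1
  obtain ⟨z0, hz0, _, hleft⟩ := hB.hEP.left_gain hη1 hB.hN hθ0 (by linarith)
  refine ⟨min (z0 / 2) (min (tp (t / 2)) (psi0 t - w)),
    lt_min (by positivity) (lt_min htp (by linarith [hB.hwψ])),
    (min_le_right _ _).trans (min_le_right _ _), fun e1 N0 m1 m2 q l hC => ?_⟩
  have hN0 : (0 : ℝ) < N0 := by exact_mod_cast hC.N0pos
  have he1 := hC.he1
  obtain ⟨gE, hgE⟩ : ∃ gE : ℝ, gE = (1 - θ) * (N / A0 η1) := ⟨_, rfl⟩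
  have hg0 : 0 ≤ gE := by
    rw [hgE]
    have : 0 ≤ 1 - θ := by linarith
    positivity
  have hl : (Exact.sI t - (Exact.sI t - l / N0)) * N0 = l := by field_simp; ring
  obtain ⟨σ1, hσ1, hfar⟩ := near_far (t := t) (Q := fun z => q.aeval z) (E := E) (N0 := N0)
    (m1 := m1) (m2 := m2) (Dl := Exact.sI t - l / N0) (gE := gE) (zN := z0) (y0 := tp (t / 2))
    (κ := θs * e1 / 8) hC.N0pos hg0 htp hz0 (by
      intro s φ h0 h1 _ _
      have h2 : s * N0 ≤ 1 := by rwa [le_div_iff₀ hN0] at h1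
      have h3 := hC.cp.near s φ h0 h2
      rw [hl]
      calc _ ≤ _ := h3
        _ = _ := by ring)
    (by
      intro z h0 h1
      rw [hgE]
      exact hleft z h1 h0)
    (by positivity)
    (by
      have h1 := hC.level
      have h2 := hC.m1le
      have e1' : (N0 : ℝ) * ((Exact.sI t - l / N0) / 2 + 2 * (θs * e1 / 8)) =
          (Exact.sI t * N0 - l) / 2 + θs * e1 * N0 / 4 := by
        field_simp
        ring
      rw [e1', hgE]
      have h3 : θ * (m1 * N / A0 η1) ≤ θs * e1 * N0 / 2 := by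
        rw [mul_div_assoc', div_le_iff₀ hA]
        have h4 : θ * (m1 * N) ≤ θ * (ab * e1 * N0) := mul_le_mul_of_nonneg_left h2 hθ0.le
        have h5 : θ * (2 * ab) * (e1 * N0 / 2) ≤ θs * A0 η1 * (e1 * N0 / 2) :=
          mul_le_mul_of_nonneg_right hθ2 (by positivity)
        linarith
      have h6 : (m1 : ℝ) * ((1 - θ) * (N / A0 η1)) = m1 * N / A0 η1 - θ * (m1 * N / A0 η1) := by
        ring
      rw [h6]
      linarith)
  refine ⟨σ1, hσ1, fun σ hσ hσl => ⟨θs * e1 / 8 * σ, by positivity, fun φ hφ0 hφ1 => ?_⟩⟩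
  have hψπ := hB.hwπ
  have hw := hB.hw
  have h1 := hfar σ φ hσ.le hσl hφ0 (hφ1.trans (min_le_left _ _))
    (hφ1.trans ((min_le_right _ _).trans (min_le_left _ _)))
    (lt_of_le_of_lt (hφ1.trans ((min_le_right _ _).trans (min_le_right _ _))) (by linarith))
  exact h1

end Pool.Agent.Lib.MP_0430e4_lc.YP
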