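import Pool.Agent.Lib.MP_0430e4_lc.YP.Cert
import Pool.Agent.Lib.MP_0430e4_lc.YP.Mass

/-!
# SCx: the certificate and the integers of stage C exist
-/

set_option autoImplicit false

open Polynomial Finset

namespace Pool.Agent.Lib.MP_0430e4_lc.YP

open Complex
open BY AC YG

/-- rounding: the two integers -/
theorem sc_round {A N Nn ab ab' k3 k3' θs e1 D sl : ℝ} (hA : 0 < A) (hN : 0 < N) (he1 : 0 < e1)
    (hNn : 0 ≤ Nn) (hθs : 0 < θs) (hD : 0 ≤ D) (hk3 : 0 < k3)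
    (hab' : ab' ≤ A * θs) (hab : A * (θs * e1 + D) ≤ (ab - sl) * e1)
    (h1 : N ≤ sl * e1 * Nn) (h2 : 1 ≤ (k3 - k3') * e1 * Nn) :
    ∃ m1 m2 : ℕ, (m1 : ℝ) * N ≤ ab * e1 * Nn ∧ ab' * e1 * Nn ≤ (m1 : ℝ) * N ∧
      (θs * e1 + D) * Nn ≤ m1 * N / A ∧ (m2 : ℝ) ≤ k3 * e1 * Nn ∧ k3' * e1 * Nn ≤ (m2 : ℝ) := by
  have hx0 : 0 ≤ A * (θs * e1 + D) * Nn / N := by positivity
  have hc1 := Nat.le_ceil (A * (θs * e1 + D) * Nn / N)
  have hc2 := (Nat.ceil_lt_add_one hx0).le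
  rw [div_le_iff₀ hN] at hc1
  have hy0 : 0 ≤ k3 * e1 * Nn := by positivity
  have hf1 := Nat.floor_le hy0
  have hf2 := (Nat.lt_floor_add_one (k3 * e1 * Nn)).le
  refine ⟨⌈A * (θs * e1 + D) * Nn / N⌉₊, ⌊k3 * e1 * Nn⌋₊, ?_, ?_, ?_, hf1, ?_⟩
  · have h3 := mul_le_mul_of_nonneg_right hc2 hN.le
    have h4 : (A * (θs * e1 + D) * Nn / N + 1) * N = A * (θs * e1 + D) * Nn + N := by
      field_simp
    rw [h4] at h3
    have h5 := mul_le_mul_of_nonneg_right hab hNn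
    linarith
  · refine le_trans ?_ hc1
    have h3 := mul_le_mul_of_nonneg_right hab' (mul_nonneg he1.le hNn)
    have h4 : 0 ≤ A * D * Nn := by positivity
    nlinarith
  · rw [le_div_iff₀ hA]
    linarith
  · linarith

/-- stage C -/
theorem sc_exists {t η1 ρ1 w ρ τ b0 ab ab' k3 k3' θs C4 zN κk x2 gb : ℝ} {N : ℕ} {E : ℂ → ℂ}
    (hB : SB t η1 ρ1 w ρ τ b0 ab ab' k3 k3' θs C4 zN κk x2 gb N E) {e0 : ℝ} (he : 0 < e0) :
    ∃ (e1 : ℝ) (N0 m1 m2 : ℕ) (q : ℝ[X]) (l : ℝ), e1 ≤ e0 ∧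
      SC t η1 ab ab' k3 k3' θs e1 N N0 m1 m2 q l := by
  have ht := hB.ht
  have hη : 0 < t / 2 := by linarith
  have hη1 : 0 < η1 := hη.trans hB.hη
  have hA : 0 < A0 η1 := by
    rw [ms_A0]
    exact YK.Dv_pos hη1
  have hK : 0 < t / 2 * A0 (t / 2) := by
    rw [ms_A0]
    exact mul_pos hη (YK.Dv_pos hη)
  have hN : (0 : ℝ) < N := by exact_mod_cast hB.hN
  have hs := Exact.sI_pos ht
  have habc := hB.habc
  set K : ℝ := t / 2 * A0 (t / 2) with hKd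
  set A : ℝ := A0 η1 with hAd
  have hsl0 : 0 < ab - A * (1 / K + θs) := by linarith
  set sl : ℝ := (ab - A * (1 / K + θs)) / 2 with hsl
  have hsl1 : 0 < sl := by positivity
  set θ : ℝ := sl * K / A with hθ
  have hθ0 : 0 < θ := by positivity
  have hθe : A * (θ / K) = sl := by
    rw [hθ]
    field_simp
  have he' : 0 < min e0 (Exact.sI t * K / (2 * (1 + θ))) := lt_min he (by positivity)
  obtain ⟨e1, D, he1, he1e, hD0, hD, n1, hn1⟩ := mass_slope ht hθ0 he'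
  rw [← hKd] at hD
  have he1a : e1 ≤ e0 := he1e.trans (min_le_left _ _)
  have he1b : e1 ≤ Exact.sI t * K / (2 * (1 + θ)) := he1e.trans (min_le_right _ _)
  have hDs : D ≤ Exact.sI t / 2 := by
    refine hD.trans ?_
    rw [div_le_iff₀ hK]
    rw [le_div_iff₀ (by positivity)] at he1b
    linarith
  have hk : 0 < k3 - k3' := by
    have := hB.hk33
    linarith
  -- the length
  obtain ⟨n2, hn2⟩ := exists_nat_ge (N / (sl * e1))
  obtain ⟨n3, hn3⟩ := exists_nat_ge (1 / ((k3 - k3') * e1))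
  set N0 : ℕ := max (max n1 1) (max n2 n3) with hN0
  have hN01 : n1 ≤ N0 := (le_max_left _ _).trans (le_max_left _ _)
  have hN02 : 1 ≤ N0 := (le_max_right _ _).trans (le_max_left _ _)
  have hN03 : (n2 : ℝ) ≤ N0 := by
    exact_mod_cast (le_max_left _ _).trans (le_max_right (max n1 1) _)
  have hN04 : (n3 : ℝ) ≤ N0 := by
    exact_mod_cast (le_max_right _ _).trans (le_max_right (max n1 1) _)
  have h1 : (N : ℝ) ≤ sl * e1 * N0 := by
    have := hn2.trans hN03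
    rw [div_le_iff₀ (by positivity)] at this
    linarith
  have h2 : 1 ≤ (k3 - k3') * e1 * (N0 : ℝ) := by
    have := hn3.trans hN04
    rw [div_le_iff₀ (by positivity)] at this
    linarith
  have hab : A * (θs * e1 + D) ≤ (ab - sl) * e1 := by
    have h3 := mul_le_mul_of_nonneg_left hD hA.le
    have h4 : A * ((1 + θ) * e1 / K) = (A * (1 / K) + A * (θ / K)) * e1 := by
      field_simp
    rw [h4, hθe] at h3
    have h5 : (ab - sl) * e1 = (A * (1 / K) + sl + A * θs) * e1 := by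
      rw [hsl]
      ring
    rw [h5]
    nlinarith
  obtain ⟨m1, m2, g1, g2, g3, g4, g5⟩ := sc_round (ab' := ab') hA hN he1 (Nat.cast_nonneg N0)
    hB.hθ hD0 hB.hk3 hB.habc' hab h1 h2
  obtain ⟨f, hf, hm⟩ := hn1 N0 hN01
  obtain ⟨q, hq, hq1⟩ := cp_of_cert (by omega : 0 < N0) hf
  refine ⟨e1, N0, m1, m2, q, (Exact.sI t - D) * N0, he1a, ⟨by omega, he1, hq, ?_, ?_, g1, g2, ?_,
    g4, g5⟩⟩
  · apply mul_le_mul_of_nonneg_right _ (Nat.cast_nonneg _)
    linarith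
  · rw [hq1]
    exact hm
  · have h6 : (Exact.sI t + θs * e1) * (N0 : ℝ) =
        (Exact.sI t - D) * N0 + (θs * e1 + D) * N0 := by ring
    rw [h6]
    linarith

end Pool.Agent.Lib.MP_0430e4_lc.YP
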