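import Pool.Agent.Lib.MP_0430e4_lc.YG.B3
import Pool.Agent.Lib.MP_0430e4_lc.YA.A1
import Pool.Agent.Lib.MP_0430e4_lc.AC.YT2
import Pool.Agent.Lib.MP_0430e4_lc.BY.P.Good

/-!
Project ALLCODES, part Y1 (helper72): the majorant near the tip of the slit (branch I).

`log |1 + u| + UG (zu u) = log 2 + s/2 + Re UU σ`, `u = exp (s + i φ)`, `Z σ = zu u`,
`s = - 2 Re LL σ`; on horizontal lines `d/dx Re (UU - ρ LL) = Re (AA ell) - ρ Re AA ≤ 0` as soon as
`Re ell ≤ ρ`, because `Im AA ≥ 0`, `Im ell ≥ 0` (`YA/A1`), `ell = TT / AA(0)`, and `ell (iπ/2) = 0`.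
-/

set_option autoImplicit false

namespace Pool.Agent.Lib.MP_0430e4_lc.YP

open Complex LPLOW Filter Topology Set YG YA
open Lower (zz GG f0 KK T2 fa)

variable {η : ℝ}

/-- the slope of the linear term -/
noncomputable def tipk (η c : ℝ) : ℝ := (c - f0 (Real.exp (-η) ^ 2)) / η

theorem tip_GG (hη : 0 < η) (c : ℝ) {s : ℂ} (h0 : 0 ≤ s.re) (h1 : s.re < η) :
    (GG (Real.exp (-η) ^ 2) c s).re =
      (UU η (tipk η c) s).re + Real.log ‖1 - Z η s ^ 2‖ / 2 := by
  have hU := Lower.S_cU hη h0 h1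
  have hsq := Lower.one_sub_zz_sq hη h0 h1
  rw [Lower.GG_re, Lower.eta_eq hη]
  have hUe : S (cU η) s = S (Lower.cU η) s := rfl
  have e1 : (S (Lower.cU η) s).re = -(KK (Real.exp (-η) ^ 2) (Complex.exp (2 * s))).re +
      (T2 (fa (Real.exp (-η) ^ 2)) (Complex.exp (2 * s))).re / 2 := by
    rw [hU]
    have h3 : (1 / 2 : ℂ) * T2 (fa (Real.exp (-η) ^ 2)) (Complex.exp (2 * s))
        = (((1 / 2 : ℝ)) : ℂ) * T2 (fa (Real.exp (-η) ^ 2)) (Complex.exp (2 * s)) := by
      push_cast; rfl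
    rw [h3, Complex.add_re, Complex.neg_re, Complex.re_ofReal_mul]
    ring
  have e2 : Real.log ‖1 - Z η s ^ 2‖ = 2 * f0 (Real.exp (-η) ^ 2) -
      (T2 (fa (Real.exp (-η) ^ 2)) (Complex.exp (2 * s))).re := by
    have h2 : (1 : ℂ) - Z η s ^ 2 = Complex.exp (2 * (f0 (Real.exp (-η) ^ 2) : ℂ) -
        T2 (fa (Real.exp (-η) ^ 2)) (Complex.exp (2 * s))) := hsq
    rw [h2, Complex.norm_exp, Real.log_exp]
    simp
  unfold UU tipk
  rw [e2, Complex.add_re, Complex.re_ofReal_mul, hUe, e1]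
  ring

theorem tip_deriv {t : ℝ} (ht : 0 < t) {s : ℂ} (hs : |s.re| < t / 2) :
    HasDerivAt (UU (t / 2) (tipk (t / 2) (Exact.cval t)))
      (AA (t / 2) s * TT (t / 2) s / AA (t / 2) 0) s := by
  have hη : 0 < t / 2 := by linarith
  refine (hasDerivAt_UU hη _ hs).congr_deriv ?_
  have h1 := cval_eq_f0 ht
  rw [Lower.r_eq hη] at h1
  have h2 : tipk (t / 2) (Exact.cval t) = (1 - Pos.K1 (t / 2)) / 4 := by
    unfold tipk
    rw [h1]
    field_simp
    ring
  have h3 := ident_I hη hs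
  rw [Pos.SS_pi] at h3
  have hA : AA (t / 2) 0 ≠ 0 := AA_zero_ne hη
  rw [h2, eq_div_iff hA]
  unfold AA TT
  push_cast
  linear_combination -h3

theorem UU_conj (κ : ℝ) (s : ℂ) : (UU η κ (starRingEnd ℂ s)).re = (UU η κ s).re := by
  unfold UU
  rw [S_conj, Complex.add_re, Complex.add_re, Complex.re_ofReal_mul, Complex.re_ofReal_mul,
    Complex.conj_re, Complex.conj_re]

/-- the comparison on horizontal segments -/
theorem tip_le {t : ℝ} (ht : 0 < t) {ρ r : ℝ} (hr : r < t / 2)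
    (hell : ∀ s : ℂ, 0 ≤ s.re → s.re ≤ r → Real.pi / 2 - r ≤ s.im → s.im ≤ Real.pi / 2 →
      (TT (t / 2) s / AA (t / 2) 0).re ≤ ρ) {s : ℂ} (h0 : 0 ≤ s.re) (h1 : s.re ≤ r)
    (h2 : Real.pi / 2 - r ≤ s.im) (h3 : s.im ≤ Real.pi / 2) (h4 : 0 ≤ s.im) :
    (UU (t / 2) (tipk (t / 2) (Exact.cval t)) s).re ≤ ρ * (LL (t / 2) s).re := by
  have hη : 0 < t / 2 := by linarith
  have hpi := Real.pi_pos
  have hpt : ∀ x : ℝ, ((x : ℂ) + (s.im : ℂ) * I).re = x ∧ ((x : ℂ) + (s.im : ℂ) * I).im = s.im := by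
    intro x; simp
  set f : ℝ → ℝ := fun x => (UU (t / 2) (tipk (t / 2) (Exact.cval t)) ((x : ℂ) + (s.im : ℂ) * I)).re
    - ρ * (LL (t / 2) ((x : ℂ) + (s.im : ℂ) * I)).re with hf
  have hd : ∀ x ∈ Icc 0 s.re, HasDerivAt f
      ((AA (t / 2) ((x : ℂ) + (s.im : ℂ) * I) * TT (t / 2) ((x : ℂ) + (s.im : ℂ) * I) /
        AA (t / 2) 0).re - ρ * (AA (t / 2) ((x : ℂ) + (s.im : ℂ) * I)).re) x := by
    intro x hx
    have habs : |((x : ℂ) + (s.im : ℂ) * I).re| < t / 2 := by
      rw [(hpt x).1, abs_lt]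
      constructor <;> linarith [hx.1, hx.2]
    exact (hasDerivAt_re_line (f' := fun s => AA (t / 2) s * TT (t / 2) s / AA (t / 2) 0)
      (tip_deriv ht habs)).sub
      ((hasDerivAt_re_line (f' := AA (t / 2)) (LL_deriv hη habs)).const_mul ρ)
  have hanti : AntitoneOn f (Icc 0 s.re) := by
    apply antitoneOn_of_deriv_nonpos (convex_Icc 0 s.re)
    · intro x hx
      exact (hd x hx).continuousAt.continuousWithinAt
    · intro x hx
      rw [interior_Icc] at hx
      exact (hd x ⟨hx.1.le, hx.2.le⟩).differentiableAt.differentiableWithinAt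
    · intro x hx
      rw [interior_Icc] at hx
      rw [(hd x ⟨hx.1.le, hx.2.le⟩).deriv]
      set p : ℂ := (x : ℂ) + (s.im : ℂ) * I with hp
      have hpr : p.re = x := (hpt x).1
      have hpi' : p.im = s.im := (hpt x).2
      have b0 : 0 ≤ p.re := by rw [hpr]; exact hx.1.le
      have b1 : p.re ≤ r := by rw [hpr]; linarith [hx.2]
      have b1' : p.re < t / 2 := by linarith
      have b2 : 0 ≤ p.im := by rw [hpi']; exact h4
      have b3 : p.im ≤ Real.pi / 2 := by rw [hpi']; exact h3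
      have c1 : 0 ≤ (AA (t / 2) p).im := AA_im_nonneg_half hη b0 b1' b2 b3
      have c2 : 0 ≤ (TT (t / 2) p).im := TT_im_nonneg hη b0 (by linarith) b2 (by linarith)
      have c3 : 0 ≤ (AA (t / 2) p).re := by
        rcases b3.lt_or_eq with h | h
        · exact (AA_re_pos hη (abs_lt.2 ⟨by linarith, b1'⟩) (abs_lt.2 ⟨by linarith, h⟩)).le
        · exact (AA_re_line h).ge
      have c4 := hell p b0 b1 (by rw [hpi']; exact h2) b3
      have hA0 : AA (t / 2) 0 = (((AA (t / 2) 0).re : ℝ) : ℂ) := S_zero_real _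
      have hA0p : 0 < (AA (t / 2) 0).re := A_zero_pos hη
      set a := (AA (t / 2) 0).re with ha
      have e1 : (TT (t / 2) p / AA (t / 2) 0).re = (TT (t / 2) p).re / a := by
        rw [hA0, Complex.div_ofReal_re]
      have e2 : (AA (t / 2) p * TT (t / 2) p / AA (t / 2) 0).re =
          ((AA (t / 2) p).re * (TT (t / 2) p).re - (AA (t / 2) p).im * (TT (t / 2) p).im) / a := by
        rw [hA0, Complex.div_ofReal_re, Complex.mul_re]
      rw [e1, div_le_iff₀ hA0p] at c4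
      rw [e2, sub_nonpos, div_le_iff₀ hA0p]
      have d1 := mul_le_mul_of_nonneg_left c4 c3
      have d2 := mul_nonneg c1 c2
      nlinarith
  have h5 := hanti (left_mem_Icc.2 h0) (right_mem_Icc.2 h0) h0
  have e0 : f 0 = 0 := by
    have h6 : ((0 : ℝ) : ℂ) + (s.im : ℂ) * I = (s.im : ℂ) * I := by push_cast; ring
    have h7 : ((s.im : ℂ) * I).re = 0 := by simp
    simp only [hf]
    rw [h6, UU_re_imag _ _ h7]
    have h8 : (LL (t / 2) ((s.im : ℂ) * I)).re = 0 := L_re_imag _ h7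
    rw [h8]
    ring
  have e1 : f s.re = (UU (t / 2) (tipk (t / 2) (Exact.cval t)) s).re - ρ * (LL (t / 2) s).re := by
    simp only [hf]
    rw [Complex.re_add_im]
  rw [e0, e1] at h5
  linarith

theorem TT_tip : TT η (I * (Real.pi / 2)) = 0 := by
  have h := TT_sheet (η := η) (I * (Real.pi / 2))
  have e : (Real.pi : ℂ) * I - I * (Real.pi / 2) = I * (Real.pi / 2) := by ring
  rw [e] at h
  exact self_eq_neg.mp h

/-- the box around the tip where `Re ell ≤ ρ` -/
theorem tip_box (hη : 0 < η) {ρ : ℝ} (hρ : 0 < ρ) : ∃ r : ℝ, 0 < r ∧ r < η ∧ r < Real.pi / 2 ∧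
    ∀ s : ℂ, 0 ≤ s.re → s.re ≤ r → Real.pi / 2 - r ≤ s.im → s.im ≤ Real.pi / 2 →
      (TT η s / AA η 0).re ≤ ρ := by
  have hpi := Real.pi_pos
  have hc : ContinuousAt (fun s => (TT η s / AA η 0).re) (I * (Real.pi / 2)) := by
    have h1 : ContinuousAt (TT η) (I * (Real.pi / 2)) :=
      (TT_diff hη (by rw [re_half_pi]; simp; linarith)).continuousAt
    exact Complex.continuous_re.continuousAt.comp (h1.div_const _)
  rw [Metric.continuousAt_iff] at hc
  obtain ⟨d, hd, h⟩ := hc ρ hρ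
  have h0 : (TT η (I * (Real.pi / 2)) / AA η 0).re = 0 := by rw [TT_tip]; simp
  refine ⟨min (d / 4) (min (η / 2) (Real.pi / 4)), by positivity, ?_, ?_, ?_⟩
  · exact lt_of_le_of_lt ((min_le_right _ _).trans (min_le_left _ _)) (by linarith)
  · exact lt_of_le_of_lt ((min_le_right _ _).trans (min_le_right _ _)) (by linarith)
  intro s a1 a2 a3 a4
  have hd4 : min (d / 4) (min (η / 2) (Real.pi / 4)) ≤ d / 4 := min_le_left _ _
  have h1 := @h s (by
    rw [dist_eq_norm]
    refine (Complex.norm_le_abs_re_add_abs_im _).trans_lt ?_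
    rw [Complex.sub_re, Complex.sub_im, re_half_pi, im_half_pi, sub_zero, abs_of_nonneg a1]
    have : |s.im - Real.pi / 2| ≤ d / 4 := by
      rw [abs_le]
      constructor <;> linarith
    linarith)
  rw [Real.dist_eq, h0, sub_zero] at h1
  exact (le_abs_self _).trans h1.le

theorem tip_half (hη : 0 < η) : I * (Real.pi / 2) ∈ Rc η ∧ -(I * (Real.pi / 2)) ∈ Rc η := by
  have hpi := Real.pi_pos
  constructor
  · rw [mem_Rc, re_half_pi, im_half_pi, abs_of_pos (by linarith)]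
    exact ⟨⟨le_rfl, hη.le⟩, le_rfl⟩
  · rw [mem_Rc, Complex.neg_re, Complex.neg_im, re_half_pi, im_half_pi, abs_neg,
      abs_of_pos (show 0 < Real.pi / 2 by linarith), neg_zero]
    exact ⟨⟨le_rfl, hη.le⟩, le_rfl⟩

/-- points of the strip over a neighbourhood of the tips are near `± iπ/2` -/
theorem tip_near (hη : 0 < η) {r : ℝ} (hr : 0 < r) {ζ : ℂ}
    (hζ : ζ = Z η (I * (Real.pi / 2)) ∨ ζ = Z η (-(I * (Real.pi / 2)))) :
    ∃ d : ℝ, 0 < d ∧ ∀ s ∈ Rc η, ‖Z η s - ζ‖ < d → s.re < r ∧ Real.pi / 2 - r < |s.im| := by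
  have hpi := Real.pi_pos
  set K : Set ℂ := Rc η ∩ {s : ℂ | r ≤ s.re ∨ |s.im| ≤ Real.pi / 2 - r} with hK
  have hcl : IsClosed {s : ℂ | r ≤ s.re ∨ |s.im| ≤ Real.pi / 2 - r} := by
    have h1 : IsClosed {s : ℂ | r ≤ s.re} := isClosed_le continuous_const Complex.continuous_re
    have h2 : IsClosed {s : ℂ | |s.im| ≤ Real.pi / 2 - r} :=
      isClosed_le (continuous_abs.comp Complex.continuous_im) continuous_const
    exact h1.union h2
  have hKc : IsCompact K := Rc_compact.inter_right hcl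
  have hZK : IsCompact (Z η '' K) := hKc.image_of_continuousOn
    ((Z_contOn_Rc hη).mono inter_subset_left)
  have hnot : ζ ∉ Z η '' K := by
    rintro ⟨s, hs, hsz⟩
    obtain ⟨p, hp, hpz⟩ : ∃ p : ℂ, (p = I * (Real.pi / 2) ∨ p = -(I * (Real.pi / 2))) ∧
        Z η p = ζ := by
      rcases hζ with h | h
      · exact ⟨_, Or.inl rfl, h.symm⟩
      · exact ⟨_, Or.inr rfl, h.symm⟩
    have hpR : p.re = 0 := by
      rcases hp with h | h
      · rw [h, re_half_pi]
      · rw [h, Complex.neg_re, re_half_pi, neg_zero]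
    have hpI : |p.im| = Real.pi / 2 := by
      rcases hp with h | h
      · rw [h, im_half_pi, abs_of_pos (by linarith)]
      · rw [h, Complex.neg_im, im_half_pi, abs_neg, abs_of_pos (by linarith)]
    obtain ⟨⟨hs0, hs1⟩, hsi⟩ := mem_Rc.1 hs.1
    have hlt : s.re < η := by
      rcases hs1.lt_or_eq with h | h
      · exact h
      · exfalso
        have h1 := Z_norm hη h
        have h2 := Z_norm_lt_one hη (s := p) hpR.ge (by rw [hpR]; exact hη)
        rw [hsz, ← hpz] at h1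
        linarith
    have := Z_inj hη hs0 hlt hsi hpR.ge (by rw [hpR]; exact hη) hpI.le (hsz.trans hpz.symm)
    rw [this] at hs
    rcases hs.2 with h | h
    · rw [hpR] at h; linarith
    · rw [hpI] at h; linarith
  obtain ⟨d, hd, hball⟩ := Metric.isOpen_iff.1 hZK.isClosed.isOpen_compl ζ hnot
  refine ⟨d, hd, fun s hs hlt => ?_⟩
  have hmem : Z η s ∈ (Z η '' K)ᶜ := hball (by rw [Metric.mem_ball, dist_eq_norm]; exact hlt)
  have hnk : s ∉ K := fun h => hmem ⟨s, h, rfl⟩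
  rw [hK] at hnk
  have h2 : ¬ (r ≤ s.re ∨ |s.im| ≤ Real.pi / 2 - r) := fun h => hnk ⟨hs, h⟩
  push Not at h2
  exact h2

theorem UG_conj (hη : 0 < η) (c : ℝ) {z : ℂ} (hz : ‖z‖ < 1) :
    UG η c (starRingEnd ℂ z) = UG η c z := by
  have h0 := sec_re_nonneg hη hz.le
  have h1 : (sec η z).re < η := re_lt_of_norm hη (sec_spec hη hz.le).1
    (by rw [Z_sec hη hz.le]; exact hz)
  have e1 : Z η (starRingEnd ℂ (sec η z)) = starRingEnd ℂ z := by rw [Z_conj, Z_sec hη hz.le]
  have h0' : 0 ≤ (starRingEnd ℂ (sec η z)).re := by simpa using h0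
  have h1' : (starRingEnd ℂ (sec η z)).re < η := by simpa using h1
  rw [← e1, UG_Z hη c h0' h1'.le, tip_GG hη c h0' h1', UU_conj, Z_conj]
  unfold UG
  rw [tip_GG hη c h0 h1, ← map_pow, ← map_one (starRingEnd ℂ), ← map_sub, Complex.norm_conj]
  simp

/-- the identity `log |1 + u| + UG (zu u) = log 2 + s/2 + Re UU σ` in the right half disc -/
theorem tip_identity (hη : 0 < η) (c : ℝ) {u σ : ℂ} (hu : 1 + u ≠ 0) (hu0 : u ≠ 0)
    (h0 : 0 ≤ σ.re) (h1 : σ.re < η) (hz : Z η σ = BY.zu u) :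
    Real.log ‖1 + u‖ + UG η c (BY.zu u) =
      Real.log 2 + Real.log ‖u‖ / 2 + (UU η (tipk η c) σ).re ∧
    Real.log ‖u‖ = -2 * (LL η σ).re := by
  have hn : 0 < ‖1 + u‖ := norm_pos_iff.2 hu
  have hnu : 0 < ‖u‖ := norm_pos_iff.2 hu0
  have e1 : (1 : ℂ) - BY.zu u ^ 2 = 4 * u / (1 + u) ^ 2 := by
    unfold BY.zu
    field_simp
    ring
  have e2 : ‖(1 : ℂ) - BY.zu u ^ 2‖ = 4 * ‖u‖ / ‖1 + u‖ ^ 2 := by
    rw [e1, norm_div, norm_mul, norm_pow]
    norm_num
  constructor
  · rw [← hz, UG_Z hη c h0 h1.le, tip_GG hη c h0 h1, hz, e2, Real.log_div (by positivity)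
      (by positivity), Real.log_mul (by norm_num) hnu.ne', Real.log_pow]
    have h4 : Real.log 4 = 2 * Real.log 2 := by
      rw [show (4 : ℝ) = 2 ^ 2 by norm_num, Real.log_pow]
      push_cast
      ring
    rw [h4]
    push_cast
    ring
  · have habs : |σ.re| < η := by rw [abs_of_nonneg h0]; exact h1
    have h3 := one_sub_Z hη habs
    have h4 := one_add_Z_ne hη habs
    have h5 : u = (1 - Z η σ) / (1 + Z η σ) := by
      rw [hz]
      unfold BY.zu
      field_simp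
      ring
    have h6 : u = Complex.exp (-2 * LL η σ) := by
      rw [h5, h3]
      field_simp
    rw [h6, Complex.norm_exp, Real.log_exp]
    simp

/-- the right half disc `s ≤ 0` -/
theorem tip_right {t : ℝ} (ht : 0 < t) {ρ : ℝ} (hρ : 0 < ρ) {ζ : ℂ}
    (hζ : ζ = Z (t / 2) (I * (Real.pi / 2)) ∨ ζ = Z (t / 2) (-(I * (Real.pi / 2)))) :
    ∃ d : ℝ, 0 < d ∧ ∀ s φ : ℝ, s ≤ 0 → 0 < Real.cos φ → ‖BY.zu (BY.up s φ) - ζ‖ < d →
      Real.log ‖1 + BY.up s φ‖ + UG (t / 2) (Exact.cval t) (BY.zu (BY.up s φ)) ≤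
        Real.log 2 + s / 2 + ρ * |s| := by
  have hη : 0 < t / 2 := by linarith
  obtain ⟨r, hr0, hr1, hr2, hbox⟩ := tip_box hη (ρ := 2 * ρ) (by linarith)
  obtain ⟨d, hd, hnear⟩ := tip_near hη hr0 hζ
  refine ⟨d, hd, fun s φ hs hφ hz => ?_⟩
  have hu0 : BY.up s φ ≠ 0 := Complex.exp_ne_zero _
  have hnu : ‖BY.up s φ‖ = Real.exp s := by
    unfold BY.up
    rw [Complex.norm_exp]
    simp
  have hre : (BY.up s φ).re = Real.exp s * Real.cos φ := by
    unfold BY.up
    rw [Complex.exp_re]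
    simp
  have hrep : 0 < (BY.up s φ).re := by
    rw [hre]
    positivity
  set u := BY.up s φ with hu
  have h1u : 1 + u ≠ 0 := by
    intro h
    have h2 := congrArg Complex.re h
    rw [Complex.add_re, Complex.one_re, Complex.zero_re] at h2
    linarith
  have hn1 : 0 < ‖1 + u‖ := norm_pos_iff.2 h1u
  -- norms of `z`
  have q1 : ‖1 + u‖ ^ 2 = 1 + 2 * u.re + ‖u‖ ^ 2 := by
    rw [← Complex.normSq_eq_norm_sq, ← Complex.normSq_eq_norm_sq, Complex.normSq_apply,
      Complex.normSq_apply]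
    simp
    ring
  have q2 : ‖1 - u‖ ^ 2 = 1 - 2 * u.re + ‖u‖ ^ 2 := by
    rw [← Complex.normSq_eq_norm_sq, ← Complex.normSq_eq_norm_sq, Complex.normSq_apply,
      Complex.normSq_apply]
    simp
    ring
  have hzn : ‖BY.zu u‖ < 1 := by
    unfold BY.zu
    rw [norm_div, div_lt_one hn1]
    refine lt_of_pow_lt_pow_left₀ 2 hn1.le ?_
    rw [q1, q2]
    linarith
  have hzr : 0 ≤ (BY.zu u).re := by
    have e : (BY.zu u).re = (1 - ‖u‖ ^ 2) / ‖1 + u‖ ^ 2 := by
      unfold BY.zu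
      rw [Complex.div_re, ← Complex.normSq_eq_norm_sq, ← Complex.normSq_eq_norm_sq,
        Complex.normSq_apply u]
      simp only [Complex.sub_re, Complex.one_re, Complex.add_re, Complex.sub_im, Complex.one_im,
        Complex.add_im]
      ring
    rw [e]
    apply div_nonneg _ (by positivity)
    rw [hnu]
    have : Real.exp s ≤ 1 := Real.exp_le_one_iff.2 hs
    have h0 := Real.exp_pos s
    nlinarith
  obtain ⟨σ, hσ, hσz⟩ := surj_right hη hzn.le hzr
  obtain ⟨⟨g0, g1⟩, gi⟩ := mem_Rc.1 hσ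
  have hlt : σ.re < t / 2 := by
    rcases g1.lt_or_eq with h | h
    · exact h
    · exfalso
      have h2 := Z_norm hη h
      rw [hσz] at h2
      linarith
  obtain ⟨k1, k2⟩ := hnear σ hσ (by rw [hσz]; exact hz)
  obtain ⟨i1, i2⟩ := tip_identity hη (Exact.cval t) h1u hu0 g0 hlt hσz
  rw [i1, hnu, Real.log_exp]
  rw [hnu, Real.log_exp] at i2
  have key : (UU (t / 2) (tipk (t / 2) (Exact.cval t)) σ).re ≤ 2 * ρ * (LL (t / 2) σ).re := by
    rcases le_total 0 σ.im with h | h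
    · rw [abs_of_nonneg h] at k2 gi
      exact tip_le ht hr1 hbox g0 k1.le k2.le gi h
    · rw [abs_of_nonpos h] at k2 gi
      have h3 := tip_le ht hr1 hbox (s := starRingEnd ℂ σ) (by simpa using g0)
        (by simpa using k1.le) (by simpa using k2.le) (by simpa using gi) (by simpa using h)
      rw [UU_conj, LL_conj, Complex.conj_re] at h3
      exact h3
  have habs : |s| = -s := abs_of_nonpos hs
  rw [habs]
  have : (LL (t / 2) σ).re = -s / 2 := by linarith
  rw [this] at key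
  linarith

/-- **TIP.** Near the tip of the slit the majorant of branch I grows like `log 2 + s / 2`. -/
theorem tip_gen {t : ℝ} (ht : 0 < t) {φ0 : ℝ} (h0 : 0 < φ0) (h1 : φ0 < Real.pi / 2)
    (hz : BY.zu (BY.up 0 φ0) = Z (t / 2) (I * (Real.pi / 2)) ∨
      BY.zu (BY.up 0 φ0) = Z (t / 2) (-(I * (Real.pi / 2)))) {ρ : ℝ} (hρ : 0 < ρ) :
    ∃ w τ : ℝ, 0 < w ∧ 0 < τ ∧ ∀ s φ : ℝ, |s| ≤ τ → |φ - φ0| ≤ w →
      Real.log ‖1 + BY.up s φ‖ + UG (t / 2) (Exact.cval t) (BY.zu (BY.up s φ)) ≤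
        Real.log 2 + s / 2 + ρ * |s| := by
  have hη : 0 < t / 2 := by linarith
  have hpi := Real.pi_pos
  obtain ⟨d, hd, hmain⟩ := tip_right ht hρ hz
  -- continuity
  have hcu : Continuous (fun q : ℝ × ℝ => BY.up q.1 q.2) := by
    unfold BY.up
    fun_prop
  have h1u : 1 + BY.up 0 φ0 ≠ 0 := by
    intro h
    have h2 := congrArg Complex.re h
    have h3 : (BY.up 0 φ0).re = Real.cos φ0 := by
      unfold BY.up
      rw [Complex.exp_re]
      simp
    rw [Complex.add_re, Complex.one_re, Complex.zero_re, h3] at h2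
    have := Real.cos_pos_of_mem_Ioo (x := φ0) ⟨by linarith, h1⟩
    linarith
  have hc : ContinuousAt (fun q : ℝ × ℝ => BY.zu (BY.up q.1 q.2)) (0, φ0) := by
    unfold BY.zu
    exact ContinuousAt.div (continuousAt_const.sub hcu.continuousAt)
      (continuousAt_const.add hcu.continuousAt) h1u
  rw [Metric.continuousAt_iff] at hc
  obtain ⟨e, he, hc⟩ := hc d hd
  set w : ℝ := min (e / 2) (min (φ0 / 2) ((Real.pi / 2 - φ0) / 2)) with hw
  have hw0 : 0 < w := lt_min (by linarith) (lt_min (by linarith) (by linarith))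
  have hw1 : w ≤ e / 2 := min_le_left _ _
  have hw2 : w ≤ φ0 / 2 := (min_le_right _ _).trans (min_le_left _ _)
  have hw3 : w ≤ (Real.pi / 2 - φ0) / 2 := (min_le_right _ _).trans (min_le_right _ _)
  refine ⟨w, e / 2, hw0, by linarith, ?_⟩
  have hneg : ∀ s φ : ℝ, s ≤ 0 → |s| ≤ e / 2 → |φ - φ0| ≤ w →
      Real.log ‖1 + BY.up s φ‖ + UG (t / 2) (Exact.cval t) (BY.zu (BY.up s φ)) ≤
        Real.log 2 + s / 2 + ρ * |s| := by
    intro s φ hs hse hφ
    have hφ' := abs_le.1 hφ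
    have h2 := @hc (s, φ) (by
      rw [Prod.dist_eq, Real.dist_eq, Real.dist_eq, max_lt_iff]
      simp only [sub_zero]
      constructor <;> linarith)
    rw [dist_eq_norm] at h2
    exact hmain s φ hs (Real.cos_pos_of_mem_Ioo ⟨by linarith [hφ'.1], by linarith [hφ'.2]⟩) h2
  intro s φ hse hφ
  rcases le_total s 0 with hs | hs
  · exact hneg s φ hs hse hφ
  · have hφ' := abs_le.1 hφ
    have h2 := hneg (-s) φ (by linarith) (by rwa [abs_neg]) hφ
    rw [abs_neg] at h2
    have hcos : 0 < Real.cos φ :=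
      Real.cos_pos_of_mem_Ioo ⟨by linarith [hφ'.1], by linarith [hφ'.2]⟩
    -- `up (-s) φ = 1 / conj (up s φ)`
    have e1 : BY.up (-s) φ * starRingEnd ℂ (BY.up s φ) = 1 := by
      unfold BY.up
      rw [← Complex.exp_conj, ← Complex.exp_add]
      have : ((-s : ℝ) : ℂ) + (φ : ℂ) * I + starRingEnd ℂ ((s : ℂ) + (φ : ℂ) * I) = 0 := by
        rw [map_add, map_mul, Complex.conj_ofReal, Complex.conj_ofReal, Complex.conj_I]
        push_cast
        ring
      rw [this, Complex.exp_zero]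
    have hnu : ‖BY.up s φ‖ = Real.exp s := by
      unfold BY.up
      rw [Complex.norm_exp]
      simp
    have hrep : 0 < (BY.up s φ).re := by
      have : (BY.up s φ).re = Real.exp s * Real.cos φ := by
        unfold BY.up
        rw [Complex.exp_re]
        simp
      rw [this]
      positivity
    set u := BY.up s φ with hu
    set v := BY.up (-s) φ with hv
    have hcu0 : starRingEnd ℂ u ≠ 0 := by
      intro h
      rw [h, mul_zero] at e1
      exact zero_ne_one e1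
    have hu0 : u ≠ 0 := by
      intro h
      rw [h, map_zero] at hcu0
      exact hcu0 rfl
    have hveq : v = (starRingEnd ℂ u)⁻¹ := eq_inv_of_mul_eq_one_left e1
    have h1u : 1 + u ≠ 0 := by
      intro h
      have h2 := congrArg Complex.re h
      rw [Complex.add_re, Complex.one_re, Complex.zero_re] at h2
      linarith
    have h1cu : 1 + starRingEnd ℂ u ≠ 0 := by
      intro h
      have h2 := congrArg (starRingEnd ℂ) h
      rw [map_add, map_one, Complex.conj_conj, map_zero] at h2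
      exact h1u h2
    have hn1 : 0 < ‖1 + u‖ := norm_pos_iff.2 h1u
    have e2 : ‖1 + v‖ = ‖1 + u‖ / ‖u‖ := by
      have : 1 + v = starRingEnd ℂ ((1 + u) / u) := by
        rw [hveq, map_div₀, map_add, map_one]
        field_simp
        ring
      rw [this, Complex.norm_conj, norm_div]
    have e3 : BY.zu v = -starRingEnd ℂ (BY.zu u) := by
      unfold BY.zu
      rw [hveq, map_div₀, map_sub, map_add, map_one]
      have : 1 + (starRingEnd ℂ u)⁻¹ ≠ 0 := by
        intro h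
        apply h1cu
        have h2 : starRingEnd ℂ u * (1 + (starRingEnd ℂ u)⁻¹) = 0 := by rw [h, mul_zero]
        rw [mul_add, mul_inv_cancel₀ hcu0, mul_one] at h2
        linear_combination h2
      generalize starRingEnd ℂ u = c at *
      rw [div_eq_iff this, neg_mul, div_mul_eq_mul_div, ← neg_div, eq_div_iff h1cu]
      field_simp
      ring
    have q1 : ‖1 + u‖ ^ 2 = 1 + 2 * u.re + ‖u‖ ^ 2 := by
      rw [← Complex.normSq_eq_norm_sq, ← Complex.normSq_eq_norm_sq, Complex.normSq_apply,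
        Complex.normSq_apply]
      simp
      ring
    have q2 : ‖1 - u‖ ^ 2 = 1 - 2 * u.re + ‖u‖ ^ 2 := by
      rw [← Complex.normSq_eq_norm_sq, ← Complex.normSq_eq_norm_sq, Complex.normSq_apply,
        Complex.normSq_apply]
      simp
      ring
    have hzn : ‖BY.zu u‖ < 1 := by
      unfold BY.zu
      rw [norm_div, div_lt_one hn1]
      refine lt_of_pow_lt_pow_left₀ 2 hn1.le ?_
      rw [q1, q2]
      linarith
    have hzn' : ‖starRingEnd ℂ (BY.zu u)‖ ≤ 1 := by rw [Complex.norm_conj]; exact hzn.le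
    rw [e2, e3, UG_neg hη _ hzn', UG_conj hη _ hzn, Real.log_div hn1.ne'
      (norm_ne_zero_iff.2 hu0), hnu, Real.log_exp] at h2
    linarith

/-- the angle of the tip -/
noncomputable def tipA (η : ℝ) : ℝ := 2 * Real.arctan (Z η (I * (Real.pi / 2))).im

theorem zu_up_zero {φ : ℝ} (h0 : -Real.pi < φ) (h1 : φ < Real.pi) :
    BY.zu (BY.up 0 φ) = -((Real.tan (φ / 2) : ℝ) : ℂ) * I := by
  have hc : Real.cos (φ / 2) ≠ 0 :=
    (Real.cos_pos_of_mem_Ioo ⟨by linarith, by linarith⟩).ne'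
  have hcC : Complex.cos ((φ : ℂ) / 2) ≠ 0 := by
    have : Complex.cos ((φ : ℂ) / 2) = ((Real.cos (φ / 2) : ℝ) : ℂ) := by push_cast; rfl
    rw [this]
    exact_mod_cast hc
  have e1 : BY.up 0 φ = Complex.exp ((φ : ℂ) / 2 * I) * Complex.exp ((φ : ℂ) / 2 * I) := by
    unfold BY.up
    rw [← Complex.exp_add]
    congr 1
    push_cast
    ring
  have e2 : Complex.exp ((φ : ℂ) / 2 * I) * Complex.exp (-((φ : ℂ) / 2 * I)) = 1 := by
    rw [← Complex.exp_add, add_neg_cancel, Complex.exp_zero]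
  set p := Complex.exp ((φ : ℂ) / 2 * I) with hp
  set m := Complex.exp (-((φ : ℂ) / 2 * I)) with hm
  have hp0 : p ≠ 0 := Complex.exp_ne_zero _
  have e3 : 1 + p * p = 2 * (p * Complex.cos ((φ : ℂ) / 2)) := by
    have : Complex.cos ((φ : ℂ) / 2) = (p + m) / 2 := by
      rw [Complex.cos, hp, hm, neg_mul]
    rw [this]
    linear_combination -e2
  have e4 : 1 - p * p = -(2 * I) * (p * Complex.sin ((φ : ℂ) / 2)) := by
    have : Complex.sin ((φ : ℂ) / 2) = (m - p) * I / 2 := by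
      rw [Complex.sin, hp, hm, neg_mul]
    rw [this]
    have hI := Complex.I_sq
    linear_combination -e2 + p * (m - p) * hI
  unfold BY.zu
  rw [e1, e3, e4]
  push_cast
  rw [Complex.tan_eq_sin_div_cos]
  field_simp

theorem tip_angle (hη : 0 < η) : 0 < (Z η (I * (Real.pi / 2))).im ∧
    (Z η (I * (Real.pi / 2))).im < 1 ∧ 0 < tipA η ∧ tipA η < Real.pi / 2 ∧
    BY.zu (BY.up 0 (tipA η)) = Z η (-(I * (Real.pi / 2))) := by
  have hpi := Real.pi_pos
  have hre : (Z η (I * (Real.pi / 2))).re = 0 := Z_re_zero re_half_pi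
  have hlt : ‖Z η (I * (Real.pi / 2))‖ < 1 := Z_norm_lt_one hη (by rw [re_half_pi])
    (by rw [re_half_pi]; exact hη)
  have him1 : (Z η (I * (Real.pi / 2))).im < 1 :=
    lt_of_le_of_lt (le_abs_self _) (lt_of_le_of_lt (Complex.abs_im_le_norm _) hlt)
  have hpos : 0 < (Z η (I * (Real.pi / 2))).im := by
    set t := Complex.exp (2 * (I * (Real.pi / 2))) with htd
    have hr : (0 : ℝ) < Real.exp (-η) ^ 2 := r0
    have ht : ‖t‖ = 1 := by rw [htd, Lower.norm_exp_two, re_half_pi]; simp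
    obtain ⟨τ, hτ⟩ : ∃ τ : ℝ, T2 (Lower.ca (Real.exp (-η) ^ 2)) t = (τ : ℂ) := by
      refine ⟨(T2 (Lower.ca (Real.exp (-η) ^ 2)) t).re, ?_⟩
      have := (Complex.conj_eq_iff_re).1 (Lower.T2_real (p := Lower.ca (Real.exp (-η) ^ 2)) ht)
      exact this.symm
    have hsinh : Complex.sinh (I * (Real.pi / 2)) = I := by
      have e : I * ((Real.pi : ℂ) / 2) = (((Real.pi / 2 : ℝ)) : ℂ) * I := by push_cast; ring
      rw [e, Complex.sinh_mul_I, ← Complex.ofReal_sin, Real.sin_pi_div_two]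
      simp
    have hz : Z η (I * (Real.pi / 2)) =
        ((2 * √(Real.exp (-η) ^ 2) * Real.exp τ : ℝ) : ℂ) * I := by
      unfold Z zz
      rw [← htd, hsinh, hτ]
      push_cast
      ring
    rw [hz, Complex.im_ofReal_mul, Complex.I_im, mul_one]
    positivity
  have ha0 : 0 < Real.arctan (Z η (I * (Real.pi / 2))).im := Real.arctan_pos.2 hpos
  have ha1 : Real.arctan (Z η (I * (Real.pi / 2))).im < Real.pi / 4 := by
    rw [← Real.arctan_one]
    exact Real.arctan_strictMono him1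
  refine ⟨hpos, him1, by unfold tipA; linarith, by unfold tipA; linarith, ?_⟩
  rw [zu_up_zero (by unfold tipA; linarith) (by unfold tipA; linarith), Z_neg]
  unfold tipA
  rw [mul_div_cancel_left₀ _ two_ne_zero, Real.tan_arctan]
  apply Complex.ext
  · simp [hre]
  · simp

/-- **TIP**, with the angle of the tip. -/
theorem tip_main {t : ℝ} (ht : 0 < t) {ρ : ℝ} (hρ : 0 < ρ) :
    ∃ w τ : ℝ, 0 < w ∧ 0 < τ ∧ ∀ s φ : ℝ, |s| ≤ τ → |φ - tipA (t / 2)| ≤ w →
      Real.log ‖1 + BY.up s φ‖ + UG (t / 2) (Exact.cval t) (BY.zu (BY.up s φ)) ≤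
        Real.log 2 + s / 2 + ρ * |s| := by
  obtain ⟨_, _, h1, h2, h3⟩ := tip_angle (η := t / 2) (by linarith)
  exact tip_gen ht h1 h2 (Or.inr h3) hρ

end Pool.Agent.Lib.MP_0430e4_lc.YP
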