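import Pool.Agent.Lib.MP_0430e4_lc.YP.Om
import Pool.Agent.Lib.MP_0430e4_lc.YP.Mass
import Pool.Agent.Lib.MP_0430e4_lc.YA.A7
import Pool.Agent.Lib.MP_0430e4_lc.YP.Tip

/-!
# Strict: strict inequalities on `|u| = 1` off the arcs, and just outside (owner helper62)

`G` below is the upper bound (A) of `bs F0` (`Om.F0_bnd`), which is continuous up to `φ = π / 2`.
On `|u| = 1` it is `< 2 ^ N0` at every point of the three closed pieces (`B` on the slit, the hole at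
the tip, the gap beyond the slit); compactness gives the rest.
-/

set_option autoImplicit false

open Polynomial Finset

namespace Pool.Agent.Lib.MP_0430e4_lc.YP

open Complex
open BY AC YG

/-- the continuous upper bound of `bs F0` -/
private noncomputable def stG (t η1 e1 : ℝ) (N N0 m1 m2 : ℕ) (p : ℝ × ℝ) : ℝ :=
  Real.exp (N0 * (YA.WU t p.1 p.2 - e1 / (t / 2) * om (t / 2) (zu (up p.1 p.2)))) *
    (Real.exp (N * om η1 (zu (up p.1 p.2))) * Real.cosh (om η1 (zu (up p.1 p.2))) ^ 3) ^ m1 *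
      ‖1 + zu (up p.1 p.2) ^ 2 / (tp (t / 2) : ℂ) ^ 2‖ ^ m2

private theorem st_cont {t η1 e1 : ℝ} {N N0 m1 m2 : ℕ} (ht : 0 < t) (hη1 : 0 < η1) :
    ContinuousOn (stG t η1 e1 N N0 m1 m2) {q : ℝ × ℝ | 0 ≤ Real.cos q.2} := by
  have hη : 0 < t / 2 := by linarith
  have hz := YA.zu_cont
  have hmaps : Set.MapsTo (fun q : ℝ × ℝ => zu (up q.1 q.2)) {q : ℝ × ℝ | 0 ≤ Real.cos q.2}
      (Metric.closedBall 0 1) := by
    intro q hq
    rw [mem_closedBall_zero_iff]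
    exact YA.zu_up_norm_le hq
  have h1 : ContinuousOn (fun q : ℝ × ℝ => om (t / 2) (zu (up q.1 q.2)))
      {q : ℝ × ℝ | 0 ≤ Real.cos q.2} :=
    (om_cont hη).comp (f := fun q : ℝ × ℝ => zu (up q.1 q.2)) hz hmaps
  have h2 : ContinuousOn (fun q : ℝ × ℝ => om η1 (zu (up q.1 q.2)))
      {q : ℝ × ℝ | 0 ≤ Real.cos q.2} :=
    (om_cont hη1).comp (f := fun q : ℝ × ℝ => zu (up q.1 q.2)) hz hmaps
  have h3 := YA.WU_cont ht
  unfold stG
  apply ContinuousOn.mul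
  · apply ContinuousOn.mul
    · apply ContinuousOn.rexp
      exact continuousOn_const.mul (h3.sub (continuousOn_const.mul h1))
    · apply ContinuousOn.pow
      apply ContinuousOn.mul
      · exact (continuousOn_const.mul h2).rexp
      · exact (Real.continuous_cosh.comp_continuousOn h2).pow 3
  · apply ContinuousOn.pow
    apply ContinuousOn.norm
    exact continuousOn_const.add ((hz.pow 2).div_const _)

private theorem st_zu_lt {s φ : ℝ} (hc : 0 < Real.cos φ) : ‖zu (up s φ)‖ < 1 := by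
  have h0 : 0 < (up s φ).re := by
    rw [YA.up_re]; exact mul_pos (Real.exp_pos _) hc
  have hn : 0 < ‖1 + up s φ‖ := norm_pos_iff.2 (YA.one_add_ne h0.le)
  unfold zu
  rw [norm_div, div_lt_one hn]
  refine lt_of_pow_lt_pow_left₀ 2 (norm_nonneg _) ?_
  rw [← Complex.normSq_eq_norm_sq, ← Complex.normSq_eq_norm_sq, Complex.normSq_apply,
    Complex.normSq_apply]
  simp only [Complex.sub_re, Complex.one_re, Complex.sub_im, Complex.one_im, Complex.add_re,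
    Complex.add_im]
  nlinarith

/-- the bound (A) in this form -/
private theorem st_bs {t η1 ab ab' k3 k3' θs C4 e1 l : ℝ} {N N0 m1 m2 : ℕ} {E : ℂ → ℂ}
    {q : ℝ[X]} (ht : 0 < t) (hE : EP η1 N C4 E)
    (hc : SC t η1 ab ab' k3 k3' θs e1 N N0 m1 m2 q l) {s φ : ℝ} (hcos : 0 < Real.cos φ) :
    bs (F0of t q E m1 m2) N0 (up s φ) ≤ stG t η1 e1 N N0 m1 m2 (s, φ) := by
  have hz := st_zu_lt (s := s) hcos
  have h := F0_bnd ht hE hc hz
  have hn : 0 < ‖1 + up s φ‖ := norm_pos_iff.2 (YA.one_add_ne (YA.up_re_nonneg hcos.le))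
  have a1 : ‖1 + up s φ‖ ^ N0 = Real.exp (N0 * Real.log ‖1 + up s φ‖) := by
    rw [← Real.log_pow, Real.exp_log (pow_pos hn _)]
  unfold bs stG YA.WU
  rw [a1]
  refine (mul_le_mul_of_nonneg_left h (Real.exp_pos _).le).trans (le_of_eq ?_)
  rw [← mul_assoc, ← mul_assoc, ← Real.exp_add]
  congr 3
  ring

/-- the potential on `|u| = 1` -/
private theorem st_zero {t φ : ℝ} (ht : 0 < t) (h0 : 0 ≤ φ) (h1 : φ ≤ Real.pi / 2) :
    zu (up 0 φ) = -((Real.tan (φ / 2) : ℝ) : ℂ) * I ∧ 0 ≤ Real.tan (φ / 2) ∧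
      Real.tan (φ / 2) ≤ 1 ∧
      (Real.tan (φ / 2) ≤ tp (t / 2) → YA.WU t 0 φ = Real.log 2) ∧
      (tp (t / 2) < Real.tan (φ / 2) → YA.WU t 0 φ < Real.log 2) := by
  have hpi := Real.pi_pos
  have hη : 0 < t / 2 := by linarith
  have hz : zu (up 0 φ) = -((Real.tan (φ / 2) : ℝ) : ℂ) * I :=
    zu_up_zero (by linarith) (by linarith)
  have hy0 : 0 ≤ Real.tan (φ / 2) :=
    Real.tan_nonneg_of_nonneg_of_le_pi_div_two (by linarith) (by linarith)
  have hy1 : Real.tan (φ / 2) ≤ 1 := by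
    rw [← Real.tan_pi_div_four]
    rcases eq_or_lt_of_le (show φ / 2 ≤ Real.pi / 4 by linarith) with h | h
    · rw [h]
    · exact (Real.tan_lt_tan_of_lt_of_lt_pi_div_two (by linarith) (by linarith) h).le
  have hcos : 0 ≤ Real.cos φ := YA.cos_nonneg' h0 h1
  have hlog := YA.log_one_up_zero hcos
  have hneg : Ud t (zu (up 0 φ)) = Ud t (((Real.tan (φ / 2) : ℝ) : ℂ) * I) := by
    unfold Ud
    rw [hz, neg_mul]
    apply UG_neg hη
    rw [norm_mul, Complex.norm_I, mul_one, Complex.norm_real, Real.norm_eq_abs,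
      abs_of_nonneg hy0]
    exact hy1
  refine ⟨hz, hy0, hy1, fun h => ?_, fun h => ?_⟩
  · have := Ud_slit ht (y := Real.tan (φ / 2)) (by rwa [abs_of_nonneg hy0])
    unfold YA.WU
    rw [hneg, this]
    exact hlog
  · have := gap_pos ht h hy1
    unfold YA.WU
    rw [hneg]
    linarith

private theorem st_om_nonneg {η s φ : ℝ} (hη : 0 < η) (hc : 0 ≤ Real.cos φ) :
    0 ≤ om η (zu (up s φ)) := om_nonneg hη (YA.zu_up_norm_le hc)

/-- the height of the multiplier -/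
private theorem st_height {η1 s φ : ℝ} {N m1 : ℕ} (hη1 : 0 < η1) (hN : 0 < N)
    (hc : 0 ≤ Real.cos φ) :
    (Real.exp (N * om η1 (zu (up s φ))) * Real.cosh (om η1 (zu (up s φ))) ^ 3) ^ m1 ≤
      Real.exp (m1 * N * hE η1 N) := by
  have h0 := om_nonneg hη1 (YA.zu_up_norm_le (s := s) hc)
  have h1 := om_le hη1 (YA.zu_up_norm_le (s := s) hc)
  have hNr : (0 : ℝ) < N := by exact_mod_cast hN
  set x := om η1 (zu (up s φ)) with hx
  have hch : 0 < Real.cosh η1 := Real.cosh_pos _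
  have e1 : Real.exp (m1 * N * hE η1 N) = (Real.exp (N * η1) * Real.cosh η1 ^ 3) ^ m1 := by
    have : Real.cosh η1 ^ 3 = Real.exp (3 * Real.log (Real.cosh η1)) := by
      rw [mul_comm, Real.exp_mul, Real.exp_log hch]
      norm_cast
    rw [this, ← Real.exp_add, ← Real.exp_nat_mul]
    congr 1
    unfold hE
    field_simp
  rw [e1]
  apply pow_le_pow_left₀ (by positivity)
  apply mul_le_mul
  · exact Real.exp_le_exp.2 (mul_le_mul_of_nonneg_left h1 hNr.le)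
  · apply pow_le_pow_left₀ (Real.cosh_pos _).le
    rw [Real.cosh_le_cosh, abs_of_nonneg h0, abs_of_nonneg hη1.le]
    exact h1
  · positivity
  · exact (Real.exp_pos _).le

/-- piece 1: the slit below the arc -/
private theorem st_one {t η1 w ab ab' k3 k3' θs e1 l : ℝ} {N N0 m1 m2 : ℕ}
    {q : ℝ[X]} (ht : 0 < t) (hη : t / 2 < η1) (hk3' : 0 < k3')
    (tip1 : Real.tan ((psi0 t - w) / 2) < tp η1) (tip2 : tp η1 < tp (t / 2))
    (hw : 0 < w) (hwπ : psi0 t + w < Real.pi / 2)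
    (hc : SC t η1 ab ab' k3 k3' θs e1 N N0 m1 m2 q l) {φ : ℝ} (h0 : 0 < φ)
    (h1 : φ ≤ psi0 t - w) :
    stG t η1 e1 N N0 m1 m2 (0, φ) < Real.exp (N0 * Real.log 2) := by
  have hpi := Real.pi_pos
  have hη0 : 0 < t / 2 := by linarith
  have hη1 : 0 < η1 := by linarith
  obtain ⟨hz, hy0, hy1, hW, -⟩ := st_zero ht h0.le (show φ ≤ Real.pi / 2 by linarith)
  have hypos : 0 < Real.tan (φ / 2) :=
    Real.tan_pos_of_pos_of_lt_pi_div_two (by linarith) (by linarith)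
  have hyle : Real.tan (φ / 2) ≤ Real.tan ((psi0 t - w) / 2) := by
    rcases eq_or_lt_of_le h1 with h | h
    · rw [h]
    · exact (Real.tan_lt_tan_of_lt_of_lt_pi_div_two (by linarith) (by linarith)
        (by linarith)).le
  set y := Real.tan (φ / 2) with hy
  have hz' : zu (up 0 φ) = ((-y : ℝ) : ℂ) * I := by rw [hz]; push_cast; ring
  have hT : 0 < tp (t / 2) := tp_pos hη0
  have o1 : om (t / 2) (zu (up 0 φ)) = 0 := by
    rw [hz']
    apply om_slit hη0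
    rw [abs_neg, abs_of_nonneg hy0]; linarith
  have o2 : om η1 (zu (up 0 φ)) = 0 := by
    rw [hz']
    apply om_slit hη1
    rw [abs_neg, abs_of_nonneg hy0]; linarith
  have hB : ‖1 + zu (up 0 φ) ^ 2 / (tp (t / 2) : ℂ) ^ 2‖ < 1 := by
    have e : 1 + zu (up 0 φ) ^ 2 / (tp (t / 2) : ℂ) ^ 2 =
        ((1 - (y / tp (t / 2)) ^ 2 : ℝ) : ℂ) := by
      rw [hz', mul_pow, Complex.I_sq]
      push_cast
      ring
    rw [e, Complex.norm_real, Real.norm_eq_abs]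
    have h3 : 0 < y / tp (t / 2) := div_pos hypos hT
    have h4 : y / tp (t / 2) < 1 := by rw [div_lt_one hT]; linarith
    rw [abs_lt]
    constructor <;> nlinarith
  have hm2 : m2 ≠ 0 := by
    intro h
    have h5 := hc.m2ge
    have h6 : 0 < k3' * e1 * N0 :=
      mul_pos (mul_pos hk3' hc.he1) (by exact_mod_cast hc.N0pos)
    rw [h] at h5
    simp at h5
    linarith
  unfold stG
  dsimp only
  rw [o1, o2, hW (by linarith)]
  simp only [mul_zero, sub_zero, Real.exp_zero, Real.cosh_zero, one_pow, mul_one]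
  have h7 : ‖1 + zu (up 0 φ) ^ 2 / (tp (t / 2) : ℂ) ^ 2‖ ^ m2 < 1 :=
    pow_lt_one₀ (norm_nonneg _) hB hm2
  calc Real.exp (N0 * Real.log 2) * ‖1 + zu (up 0 φ) ^ 2 / (tp (t / 2) : ℂ) ^ 2‖ ^ m2
      < Real.exp (N0 * Real.log 2) * 1 := mul_lt_mul_of_pos_left h7 (Real.exp_pos _)
    _ = _ := mul_one _

/-- piece 2: the hole -/
private theorem st_two {t η1 w ρ τ b0 ab ab' k3 k3' θs gb e1 l : ℝ} {N N0 m1 m2 : ℕ}
    {q : ℝ[X]} (ht : 0 < t) (hη : t / 2 < η1) (hN : 0 < N) (hτ : 0 < τ)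
    (hb0 : 0 < b0) (hb1 : b0 < 1) (hole : Hole t ρ τ b0) (hgb : 0 < gb)
    (bh : ab * hE η1 N + k3' * Real.log b0 ≤ -gb)
    (hw : 0 < w) (hρw : ρ < w) (hwψ : w < psi0 t) (hwπ : psi0 t + w < Real.pi / 2)
    (hc : SC t η1 ab ab' k3 k3' θs e1 N N0 m1 m2 q l) {φ : ℝ}
    (h1 : |φ - psi0 t| ≤ ρ) :
    stG t η1 e1 N N0 m1 m2 (0, φ) < Real.exp (N0 * Real.log 2) := by
  have hpi := Real.pi_pos
  have hη0 : 0 < t / 2 := by linarith
  have hη1 : 0 < η1 := by linarith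
  obtain ⟨a1, a2⟩ := abs_le.1 h1
  have hφ0 : 0 ≤ φ := by linarith
  have hφ1 : φ ≤ Real.pi / 2 := by linarith
  have hcos : 0 ≤ Real.cos φ := YA.cos_nonneg' hφ0 hφ1
  obtain ⟨-, -, -, hW1, hW2⟩ := st_zero ht hφ0 hφ1
  have hW : YA.WU t 0 φ ≤ Real.log 2 := by
    rcases le_or_gt (Real.tan (φ / 2)) (tp (t / 2)) with h | h
    · exact (hW1 h).le
    · exact (hW2 h).le
  have hN0 : (0 : ℝ) < N0 := by exact_mod_cast hc.N0pos
  have hom := om_nonneg hη0 (YA.zu_up_norm_le (s := 0) hcos)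
  have hh := st_height (s := 0) (m1 := m1) hη1 hN hcos
  have hB := hole 0 φ (by rw [abs_zero]; exact hτ.le) h1
  have hBm : ‖1 + zu (up 0 φ) ^ 2 / (tp (t / 2) : ℂ) ^ 2‖ ^ m2 ≤
      Real.exp (m2 * Real.log b0) := by
    rw [← Real.log_pow, Real.exp_log (pow_pos hb0 _)]
    exact pow_le_pow_left₀ (norm_nonneg _) hB m2
  have hlb : Real.log b0 < 0 := Real.log_neg hb0 hb1
  have hhE : 0 < hE η1 N := by
    unfold hE
    have : 0 ≤ Real.log (Real.cosh η1) := Real.log_nonneg (Real.one_le_cosh _)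
    positivity
  have he1 := hc.he1
  unfold stG
  dsimp only
  have k1 : Real.exp (N0 * (YA.WU t 0 φ - e1 / (t / 2) * om (t / 2) (zu (up 0 φ)))) ≤
      Real.exp (N0 * Real.log 2) := by
    apply Real.exp_le_exp.2
    apply mul_le_mul_of_nonneg_left _ hN0.le
    have : 0 ≤ e1 / (t / 2) * om (t / 2) (zu (up 0 φ)) := by positivity
    linarith
  calc _ ≤ Real.exp (N0 * Real.log 2) * Real.exp (m1 * N * hE η1 N) *
        Real.exp (m2 * Real.log b0) := by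
        apply mul_le_mul _ hBm (by positivity) (by positivity)
        have : 0 ≤ (Real.exp (N * om η1 (zu (up 0 φ))) *
            Real.cosh (om η1 (zu (up 0 φ))) ^ 3) ^ m1 := by
          have := (Real.cosh_pos (om η1 (zu (up 0 φ)))).le
          positivity
        exact mul_le_mul k1 hh this (Real.exp_pos _).le
    _ < Real.exp (N0 * Real.log 2) := by
        rw [← Real.exp_add, ← Real.exp_add]
        apply Real.exp_lt_exp.2
        have j1 : m1 * N * hE η1 N ≤ ab * e1 * N0 * hE η1 N :=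
          mul_le_mul_of_nonneg_right hc.m1le hhE.le
        have j2 : m2 * Real.log b0 ≤ k3' * e1 * N0 * Real.log b0 :=
          mul_le_mul_of_nonpos_right hc.m2ge hlb.le
        have j3 : ab * e1 * N0 * hE η1 N + k3' * e1 * N0 * Real.log b0 =
            e1 * N0 * (ab * hE η1 N + k3' * Real.log b0) := by ring
        have j4 : e1 * N0 * (ab * hE η1 N + k3' * Real.log b0) ≤ e1 * N0 * (-gb) :=
          mul_le_mul_of_nonneg_left bh (by positivity)
        have j5 : 0 < e1 * N0 * gb := by positivity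
        linarith

/-- piece 3: beyond the slit -/
private theorem st_three {t η1 ab ab' k3 k3' θs gb e0 e1 l : ℝ} {N N0 m1 m2 : ℕ}
    {q : ℝ[X]} (ht : 0 < t) (hη : t / 2 < η1) (hN : 0 < N) (hgb : 0 < gb) (hgb1 : gb ≤ 1)
    (bm : -1 + ab * hE η1 N + k3 * Real.log (1 + 1 / tp (t / 2) ^ 2) ≤ -gb)
    (he0 : 0 < e0) (he : e1 ≤ e0)
    (hc : SC t η1 ab ab' k3 k3' θs e1 N N0 m1 m2 q l) {φ : ℝ}
    (hφ0 : 0 ≤ φ) (hφ1 : φ ≤ Real.pi / 2) (hW : YA.WU t 0 φ ≤ Real.log 2 - e0) :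
    stG t η1 e1 N N0 m1 m2 (0, φ) < Real.exp (N0 * Real.log 2) := by
  have hpi := Real.pi_pos
  have hη0 : 0 < t / 2 := by linarith
  have hη1 : 0 < η1 := by linarith
  have hcos : 0 ≤ Real.cos φ := YA.cos_nonneg' hφ0 hφ1
  have hN0 : (0 : ℝ) < N0 := by exact_mod_cast hc.N0pos
  have hz := YA.zu_up_norm_le (s := 0) hcos
  have hom := om_nonneg hη0 hz
  have hh := st_height (s := 0) (m1 := m1) hη1 hN hcos
  have hT : 0 < tp (t / 2) := tp_pos hη0
  have hB : ‖1 + zu (up 0 φ) ^ 2 / (tp (t / 2) : ℂ) ^ 2‖ ≤ 1 + 1 / tp (t / 2) ^ 2 := by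
    refine (norm_add_le _ _).trans ?_
    rw [norm_one, norm_div, norm_pow, norm_pow, Complex.norm_real, Real.norm_eq_abs, sq_abs]
    have : ‖zu (up 0 φ)‖ ^ 2 ≤ 1 := pow_le_one₀ (norm_nonneg _) hz
    gcongr
  have hL : 0 < 1 + 1 / tp (t / 2) ^ 2 := by positivity
  have hBm : ‖1 + zu (up 0 φ) ^ 2 / (tp (t / 2) : ℂ) ^ 2‖ ^ m2 ≤
      Real.exp (m2 * Real.log (1 + 1 / tp (t / 2) ^ 2)) := by
    rw [← Real.log_pow, Real.exp_log (pow_pos hL _)]
    exact pow_le_pow_left₀ (norm_nonneg _) hB m2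
  have hlb : 0 ≤ Real.log (1 + 1 / tp (t / 2) ^ 2) :=
    Real.log_nonneg (by have : 0 < 1 / tp (t / 2) ^ 2 := by positivity
                        linarith)
  have hhE : 0 < hE η1 N := by
    unfold hE
    have : 0 ≤ Real.log (Real.cosh η1) := Real.log_nonneg (Real.one_le_cosh _)
    positivity
  have he1 := hc.he1
  unfold stG
  dsimp only
  have k1 : Real.exp (N0 * (YA.WU t 0 φ - e1 / (t / 2) * om (t / 2) (zu (up 0 φ)))) ≤
      Real.exp (N0 * (Real.log 2 - e0)) := by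
    apply Real.exp_le_exp.2
    apply mul_le_mul_of_nonneg_left _ hN0.le
    have : 0 ≤ e1 / (t / 2) * om (t / 2) (zu (up 0 φ)) := by positivity
    linarith
  calc _ ≤ Real.exp (N0 * (Real.log 2 - e0)) * Real.exp (m1 * N * hE η1 N) *
        Real.exp (m2 * Real.log (1 + 1 / tp (t / 2) ^ 2)) := by
        apply mul_le_mul _ hBm (by positivity) (by positivity)
        have : 0 ≤ (Real.exp (N * om η1 (zu (up 0 φ))) *
            Real.cosh (om η1 (zu (up 0 φ))) ^ 3) ^ m1 := by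
          have := (Real.cosh_pos (om η1 (zu (up 0 φ)))).le
          positivity
        exact mul_le_mul k1 hh this (Real.exp_pos _).le
    _ < Real.exp (N0 * Real.log 2) := by
        rw [← Real.exp_add, ← Real.exp_add]
        apply Real.exp_lt_exp.2
        have j1 : m1 * N * hE η1 N ≤ ab * e1 * N0 * hE η1 N :=
          mul_le_mul_of_nonneg_right hc.m1le hhE.le
        have j2 : m2 * Real.log (1 + 1 / tp (t / 2) ^ 2) ≤
            k3 * e1 * N0 * Real.log (1 + 1 / tp (t / 2) ^ 2) :=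
          mul_le_mul_of_nonneg_right hc.m2le hlb
        have j3 : N0 * (Real.log 2 - e0) + ab * e1 * N0 * hE η1 N +
            k3 * e1 * N0 * Real.log (1 + 1 / tp (t / 2) ^ 2) =
            N0 * Real.log 2 - N0 * e0 + N0 * e1 +
            e1 * N0 * (-1 + ab * hE η1 N + k3 * Real.log (1 + 1 / tp (t / 2) ^ 2)) := by ring
        have j4 : e1 * N0 * (-1 + ab * hE η1 N + k3 * Real.log (1 + 1 / tp (t / 2) ^ 2)) ≤
            e1 * N0 * (-gb) := mul_le_mul_of_nonneg_left bm (by positivity)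
        have j5 : 0 < e1 * N0 * gb := by positivity
        have j6 : (N0 : ℝ) * e1 ≤ N0 * e0 := mul_le_mul_of_nonneg_left he hN0.le
        linarith

/-- compactness -/
private theorem st_compact {G : ℝ × ℝ → ℝ} {C : Set ℝ} {L : ℝ} (hL : 0 < L)
    (hG : ContinuousOn G {q : ℝ × ℝ | 0 ≤ Real.cos q.2}) (hC : IsCompact C)
    (hcos : ∀ φ ∈ C, 0 ≤ Real.cos φ) (h : ∀ φ ∈ C, G (0, φ) < L) :
    ∃ c σ1 : ℝ, c < L ∧ 0 < σ1 ∧ ∀ φ ∈ C, ∀ σ : ℝ, 0 ≤ σ → σ ≤ σ1 → G (σ, φ) ≤ c := by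
  have key : ∃ c σ1 : ℝ, c < L ∧ 0 < σ1 ∧ ∀ φ ∈ C, 0 ≤ Real.cos φ → ∀ σ : ℝ, 0 ≤ σ → σ ≤ σ1 →
      G (σ, φ) ≤ c := by
    refine hC.induction_on (p := fun K : Set ℝ => ∃ c σ1 : ℝ, c < L ∧ 0 < σ1 ∧
      ∀ φ ∈ K, 0 ≤ Real.cos φ → ∀ σ : ℝ, 0 ≤ σ → σ ≤ σ1 → G (σ, φ) ≤ c) ?_ ?_ ?_ ?_
    · exact ⟨L - 1, 1, by linarith, one_pos, fun φ hφ => absurd hφ (Set.notMem_empty φ)⟩
    · rintro s u hsu ⟨c, σ1, h1, h2, h3⟩
      exact ⟨c, σ1, h1, h2, fun φ hφ => h3 φ (hsu hφ)⟩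
    · rintro s u ⟨c, σ1, h1, h2, h3⟩ ⟨c', σ1', h1', h2', h3'⟩
      refine ⟨max c c', min σ1 σ1', max_lt h1 h1', lt_min h2 h2', ?_⟩
      rintro φ (hφ | hφ) hcφ σ hσ0 hσ1
      · exact (h3 φ hφ hcφ σ hσ0 (hσ1.trans (min_le_left _ _))).trans (le_max_left _ _)
      · exact (h3' φ hφ hcφ σ hσ0 (hσ1.trans (min_le_right _ _))).trans (le_max_right _ _)
    · intro φ0 hφ0
      have h1 : G (0, φ0) < L := h φ0 hφ0
      have h2 : (0, φ0) ∈ {q : ℝ × ℝ | 0 ≤ Real.cos q.2} := hcos φ0 hφ0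
      have h3 := Metric.continuousWithinAt_iff.1 (hG _ h2) ((L - G (0, φ0)) / 2) (by linarith)
      obtain ⟨d, hd, h4⟩ := h3
      refine ⟨Metric.ball φ0 d, mem_nhdsWithin_of_mem_nhds (Metric.ball_mem_nhds _ hd),
        (L + G (0, φ0)) / 2, d / 2, by linarith, by linarith, ?_⟩
      intro φ hφ hcφ σ hσ0 hσ1
      have h5 : dist ((σ, φ) : ℝ × ℝ) (0, φ0) < d := by
        rw [Prod.dist_eq, max_lt_iff]
        refine ⟨?_, Metric.mem_ball.1 hφ⟩
        show dist σ 0 < d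
        rw [Real.dist_eq, sub_zero, abs_of_nonneg hσ0]
        linarith
      have h6 := h4 (show ((σ, φ) : ℝ × ℝ) ∈ {q : ℝ × ℝ | 0 ≤ Real.cos q.2} from hcφ) h5
      rw [Real.dist_eq] at h6
      have := (abs_lt.1 h6).2
      linarith
  obtain ⟨c, σ1, h1, h2, h3⟩ := key
  exact ⟨c, σ1, h1, h2, fun φ hφ => h3 φ hφ (hcos φ hφ)⟩

/-- the gap beyond the slit, uniformly -/
private theorem st_gap {t w : ℝ} (ht : 0 < t) (hw : 0 < w) (hwπ : psi0 t + w < Real.pi / 2) :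
    ∃ e0 : ℝ, 0 < e0 ∧ ∀ φ : ℝ, psi0 t + w ≤ φ → φ ≤ Real.pi / 2 →
      YA.WU t 0 φ ≤ Real.log 2 - e0 := by
  have hpi := Real.pi_pos
  have hη0 : 0 < t / 2 := by linarith
  have hT : 0 < tp (t / 2) := tp_pos hη0
  have hψ : 0 < psi0 t := by
    unfold psi0
    have := Real.arctan_pos.2 hT
    linarith
  have hcont : ContinuousOn (fun φ : ℝ => YA.WU t 0 φ) (Set.Icc (psi0 t + w) (Real.pi / 2)) := by
    refine (YA.WU_cont ht).comp (f := fun φ : ℝ => ((0 : ℝ), φ))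
      (Continuous.prodMk continuous_const continuous_id).continuousOn ?_
    intro φ hφ
    exact YA.cos_nonneg' (by linarith [hφ.1]) hφ.2
  obtain ⟨φ0, hφ0, hmax⟩ := isCompact_Icc.exists_isMaxOn
    (Set.nonempty_Icc.2 hwπ.le) hcont
  have hlt : YA.WU t 0 φ0 < Real.log 2 := by
    obtain ⟨-, -, -, -, h⟩ := st_zero ht (show 0 ≤ φ0 by linarith [hφ0.1]) hφ0.2
    apply h
    rw [← tan_psi0 ht]
    exact Real.tan_lt_tan_of_lt_of_lt_pi_div_two (by linarith) (by linarith [hφ0.2])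
      (by linarith [hφ0.1])
  refine ⟨Real.log 2 - YA.WU t 0 φ0, by linarith, fun φ h1 h2 => ?_⟩
  have := hmax (show φ ∈ Set.Icc (psi0 t + w) (Real.pi / 2) from ⟨h1, h2⟩)
  have h3 : YA.WU t 0 φ ≤ YA.WU t 0 φ0 := this
  linarith

theorem strict_of {t η1 ρ1 w ρ τ b0 ab ab' k3 k3' θs C4 zN κk x2 gb : ℝ} {N : ℕ} {E : ℂ → ℂ}
    (hB : SB t η1 ρ1 w ρ τ b0 ab ab' k3 k3' θs C4 zN κk x2 gb N E) {φ1 : ℝ} (hφ : 0 < φ1) :
    ∃ e0 : ℝ, 0 < e0 ∧ ∀ (e1 : ℝ) (N0 m1 m2 : ℕ) (q : ℝ[X]) (l : ℝ), e1 ≤ e0 →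
      SC t η1 ab ab' k3 k3' θs e1 N N0 m1 m2 q l → ∃ σ1 κ0 : ℝ, 0 < σ1 ∧ 0 < κ0 ∧
        ∀ σ φ : ℝ, 0 ≤ σ → σ ≤ σ1 → φ < Real.pi / 2 →
          ((φ1 ≤ φ ∧ φ ≤ psi0 t - w) ∨ |φ - psi0 t| ≤ ρ ∨ psi0 t + w ≤ φ) →
          bs (F0of t q E m1 m2) N0 (up σ φ) ≤ Real.exp (N0 * (Real.log 2 - κ0)) := by
  have hpi := Real.pi_pos
  have ht := hB.ht
  have hη0 : 0 < t / 2 := by linarith
  have hη1 : 0 < η1 := by linarith [hB.hη]
  have hw := hB.hw
  have hwψ := hB.hwψ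
  have hwπ := hB.hwπ
  have hρ := hB.hρ
  have hρw := hB.hρw
  obtain ⟨e0, he0, hgap⟩ := st_gap ht hw hwπ
  refine ⟨e0, he0, fun e1 N0 m1 m2 q l he hc => ?_⟩
  have hN0 : (0 : ℝ) < N0 := by exact_mod_cast hc.N0pos
  set C : Set ℝ := Set.Icc φ1 (psi0 t - w) ∪ (Set.Icc (psi0 t - ρ) (psi0 t + ρ) ∪
    Set.Icc (psi0 t + w) (Real.pi / 2)) with hC
  have hCc : IsCompact C := isCompact_Icc.union (isCompact_Icc.union isCompact_Icc)
  have hCr : ∀ φ ∈ C, 0 < φ ∧ φ ≤ Real.pi / 2 := by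
    rintro φ (h | h | h)
    · exact ⟨by linarith [h.1], by linarith [h.2]⟩
    · exact ⟨by linarith [h.1], by linarith [h.2]⟩
    · exact ⟨by linarith [h.1], h.2⟩
  have hlt : ∀ φ ∈ C, stG t η1 e1 N N0 m1 m2 (0, φ) < Real.exp (N0 * Real.log 2) := by
    intro φ hφC
    have hr := hCr φ hφC
    rcases hφC with h | h | h
    · exact st_one ht hB.hη hB.hk3' hB.tip1 hB.tip2 hw hwπ hc hr.1 h.2
    · exact st_two ht hB.hη hB.hN hB.hτ hB.hb0 hB.hb1 hB.hole hB.hgb hB.bh hw hρw hwψ hwπ hc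
        (abs_le.2 ⟨by linarith [h.1], by linarith [h.2]⟩)
    · exact st_three ht hB.hη hB.hN hB.hgb hB.hgb1 hB.bm he0 he hc hr.1.le hr.2
        (hgap φ h.1 h.2)
  obtain ⟨c, σ1, h1, h2, h3⟩ := st_compact (Real.exp_pos _)
    (st_cont (e1 := e1) (N := N) (N0 := N0) (m1 := m1) (m2 := m2) ht hη1) hCc
    (fun φ hφC => YA.cos_nonneg' (hCr φ hφC).1.le (hCr φ hφC).2) hlt
  set L := Real.exp (N0 * Real.log 2) with hL
  have hLpos : 0 < L := Real.exp_pos _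
  set c' := max c (L / 2) with hc'
  have c'pos : 0 < c' := lt_of_lt_of_le (by linarith) (le_max_right _ _)
  have c'lt : c' < L := max_lt h1 (by linarith)
  have hlog : Real.log c' < N0 * Real.log 2 := by
    rw [Real.log_lt_iff_lt_exp c'pos]; exact c'lt
  refine ⟨σ1, Real.log 2 - Real.log c' / N0, h2, ?_, ?_⟩
  · rw [sub_pos, div_lt_iff₀ hN0]; linarith
  · intro σ φ hσ0 hσ1 hφπ hcase
    have hφC : φ ∈ C := by
      rcases hcase with h | h | h
      · exact Or.inl ⟨h.1, h.2⟩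
      · have := abs_le.1 h
        exact Or.inr (Or.inl ⟨by linarith [this.1], by linarith [this.2]⟩)
      · exact Or.inr (Or.inr ⟨h, hφπ.le⟩)
    have hr := hCr φ hφC
    have hcos : 0 < Real.cos φ := Real.cos_pos_of_mem_Ioo ⟨by linarith [hr.1], hφπ⟩
    have h4 := st_bs (q := q) ht hB.hEP hc (s := σ) hcos
    have h5 := h3 φ hφC σ hσ0 hσ1
    have e : (N0 : ℝ) * (Real.log 2 - (Real.log 2 - Real.log c' / N0)) = Real.log c' := by
      field_simp
      ring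
    rw [e, Real.exp_log c'pos]
    exact h4.trans (h5.trans (le_max_left _ _))

end Pool.Agent.Lib.MP_0430e4_lc.YP
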