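import Pool.Agent.Lib.MP_0430e4_lc.YP.SBx
import Pool.Agent.Lib.MP_0430e4_lc.YP.SCx
import Pool.Agent.Lib.MP_0430e4_lc.YP.Near1
import Pool.Agent.Lib.MP_0430e4_lc.YP.Strict
import Pool.Agent.Lib.MP_0430e4_lc.YP.Arcs
import Pool.Agent.Lib.MP_0430e4_lc.YP.Hfar
import Pool.Agent.Lib.MP_0430e4_lc.YP.FV
import Pool.Agent.Lib.MP_0430e4_lc.AC.Final

/-!
# BaseOf: the base function exists, branch I (helper13)
-/

set_option autoImplicit false

open Polynomial Finset

namespace Pool.Agent.Lib.MP_0430e4_lc.YP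

open Complex
open BY AC YG

theorem bo_pow {A a : ℝ} (h0 : 0 ≤ A) (h : A ≤ Real.exp a) (m : ℕ) :
    A ^ m ≤ Real.exp (m * a) := by
  rw [Real.exp_nat_mul]
  exact pow_le_pow_left₀ h0 h m

section
variable {t η1 ρ1 w ρ τ b0 ab ab' k3 k3' θs C4 zN κk x2 gb e1 l : ℝ} {N N0 m1 m2 : ℕ}
  {E : ℂ → ℂ} {q : ℝ[X]}

theorem bo_q_le (hcp : CP N0 l q) {z : ℂ} (hz : ‖z‖ ≤ 1) : ‖(q.aeval z : ℂ)‖ ≤ q.eval 1 := by
  refine (cp_abs hcp z).trans ?_
  rw [Polynomial.eval_eq_sum_range, Polynomial.eval_eq_sum_range]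
  apply Finset.sum_le_sum
  intro k _
  apply mul_le_mul_of_nonneg_left _ (hcp.nonneg k)
  rw [one_pow]
  exact pow_le_one₀ (norm_nonneg z) hz

theorem bo_B (t : ℝ) (z : ℂ) :
    ‖1 + z ^ 2 / (tp (t / 2) : ℂ) ^ 2‖ ≤ 1 + ‖z‖ ^ 2 / tp (t / 2) ^ 2 := by
  refine (norm_add_le _ _).trans ?_
  rw [norm_one, norm_div, norm_pow, norm_pow, Complex.norm_real, Real.norm_eq_abs, sq_abs]

/-- the mass of the base function -/
theorem bo_mass (hB : SB t η1 ρ1 w ρ τ b0 ab ab' k3 k3' θs C4 zN κk x2 gb N E)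
    (hC : SC t η1 ab ab' k3 k3' θs e1 N N0 m1 m2 q l) {z : ℂ} (hz : ‖z‖ < 1) :
    ‖F0of t q E m1 m2 z‖ ≤ Real.exp (N0 * (Exact.cval t - e1 * gb)) := by
  have hη : 0 < t / 2 := by linarith [hB.ht]
  have hη1 : 0 < η1 := hη.trans hB.hη
  have htp := tp_pos hη
  have hN : (0 : ℝ) < N := by exact_mod_cast hB.hN
  have hN0 : (0 : ℝ) ≤ N0 := Nat.cast_nonneg N0
  have he1 := hC.he1
  have h1 : ‖(q.aeval z : ℂ)‖ ≤ Real.exp (N0 * (Exact.cval t - e1)) :=
    (bo_q_le hC.cp hz.le).trans hC.mass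
  have hom0 := om_nonneg hη1 hz.le
  have hom1 := om_le hη1 hz.le
  have h2 : ‖E z‖ ≤ Real.exp (N * hE η1 N) := by
    refine (hB.hEP.bnd z hz).trans ?_
    have e : (N : ℝ) * hE η1 N = N * η1 + 3 * Real.log (Real.cosh η1) := by
      unfold hE
      field_simp
    have hcosh : 0 < Real.cosh η1 := Real.cosh_pos η1
    have e3 : Real.exp (3 * Real.log (Real.cosh η1)) = Real.cosh η1 ^ 3 := by
      have : (3 : ℝ) * Real.log (Real.cosh η1) = ((3 : ℕ) : ℝ) * Real.log (Real.cosh η1) := by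
        norm_num
      rw [this, Real.exp_nat_mul, Real.exp_log hcosh]
    rw [e, Real.exp_add, e3]
    apply mul_le_mul _ _ (by positivity) (Real.exp_pos _).le
    · exact Real.exp_le_exp.2 (mul_le_mul_of_nonneg_left hom1 hN.le)
    · apply pow_le_pow_left₀ (Real.cosh_pos _).le
      rw [Real.cosh_le_cosh, abs_of_nonneg hom0, abs_of_pos hη1]
      exact hom1
  have h3 : ‖1 + z ^ 2 / (tp (t / 2) : ℂ) ^ 2‖ ≤ Real.exp (Real.log (1 + 1 / tp (t / 2) ^ 2)) := by
    rw [Real.exp_log (by positivity)]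
    refine (bo_B t z).trans ?_
    have hz2 : ‖z‖ ^ 2 ≤ 1 := pow_le_one₀ (norm_nonneg z) hz.le
    have := div_le_div_of_nonneg_right hz2 (show 0 ≤ tp (t / 2) ^ 2 by positivity)
    linarith
  unfold F0of
  rw [norm_mul, norm_mul, norm_pow, norm_pow]
  have h4 := bo_pow (norm_nonneg _) h2 m1
  have h5 := bo_pow (norm_nonneg _) h3 m2
  refine (mul_le_mul (mul_le_mul h1 h4 (by positivity) (by positivity)) h5 (by positivity)
    (by positivity)).trans ?_
  rw [← Real.exp_add, ← Real.exp_add]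
  apply Real.exp_le_exp.2
  have hEpos : 0 ≤ hE η1 N := by
    unfold hE
    have : 0 ≤ Real.log (Real.cosh η1) := Real.log_nonneg (Real.one_le_cosh _)
    positivity
  have hlog : 0 ≤ Real.log (1 + 1 / tp (t / 2) ^ 2) := Real.log_nonneg (by
    have : 0 ≤ 1 / tp (t / 2) ^ 2 := by positivity
    linarith)
  have g1 := mul_le_mul_of_nonneg_right hC.m1le hEpos
  have g2 := mul_le_mul_of_nonneg_right hC.m2le hlog
  have g3 := mul_le_mul_of_nonneg_left hB.bm (show 0 ≤ (N0 : ℝ) * e1 by positivity)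
  nlinarith

/-- the `k` side -/
theorem bo_ks (hB : SB t η1 ρ1 w ρ τ b0 ab ab' k3 k3' θs C4 zN κk x2 gb N E)
    (hC : SC t η1 ab ab' k3 k3' θs e1 N N0 m1 m2 q l) {z : ℂ} (hz0 : x2 ≤ ‖z‖) (hz : ‖z‖ < 1) :
    ‖F0of t q E m1 m2 z‖ ≤ Real.exp (N0 * (UI t ‖z‖ - e1 * gb)) := by
  have hη : 0 < t / 2 := by linarith [hB.ht]
  have hη1 : 0 < η1 := hη.trans hB.hη
  have htp := tp_pos hη
  have hN : (0 : ℝ) < N := by exact_mod_cast hB.hN
  have hN0 : (0 : ℝ) ≤ N0 := Nat.cast_nonneg N0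
  have he1 := hC.he1
  have hx0 : 0 < ‖z‖ := lt_of_lt_of_le hB.hx2 hz0
  have hC4 := hB.hC4
  refine (F0_bndR hB.ht hη1 hC4.le hB.hEP hC hx0 hz).trans ?_
  obtain ⟨x, hx⟩ : ∃ x : ℝ, x = ‖z‖ := ⟨_, rfl⟩
  rw [← hx] at hz0 hz hx0 ⊢
  have hn1 : ‖((x : ℝ) : ℂ)‖ ≤ 1 := by
    rw [Complex.norm_real, Real.norm_eq_abs, abs_of_pos hx0]; exact hz.le
  have hom0 := om_nonneg hη1 hn1
  have p4 : (0 : ℝ) < 1 + C4 * x ^ 4 := by positivity
  have p2 : (0 : ℝ) < 1 + x ^ 2 / tp (t / 2) ^ 2 := by positivity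
  have e2 : Real.exp (N * om η1 (x : ℂ)) * (1 + C4 * x ^ 4) =
      Real.exp (N * om η1 (x : ℂ) + Real.log (1 + C4 * x ^ 4)) := by
    rw [Real.exp_add, Real.exp_log p4]
  have e3 : 1 + x ^ 2 / tp (t / 2) ^ 2 = Real.exp (Real.log (1 + x ^ 2 / tp (t / 2) ^ 2)) := by
    rw [Real.exp_log p2]
  rw [e2, e3, ← Real.exp_nat_mul, ← Real.exp_nat_mul, ← Real.exp_add, ← Real.exp_add]
  apply Real.exp_le_exp.2
  have l4 : 0 ≤ Real.log (1 + C4 * x ^ 4) := Real.log_nonneg (by
    have : 0 ≤ C4 * x ^ 4 := by positivity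
    linarith)
  have l2 : 0 ≤ Real.log (1 + x ^ 2 / tp (t / 2) ^ 2) := Real.log_nonneg (by
    have : 0 ≤ x ^ 2 / tp (t / 2) ^ 2 := by positivity
    linarith)
  have q4 : 0 ≤ om η1 (x : ℂ) + Real.log (1 + C4 * x ^ 4) / N := by positivity
  have g1 := mul_le_mul_of_nonneg_right hC.m1le q4
  have g1' : (m1 : ℝ) * N * (om η1 (x : ℂ) + Real.log (1 + C4 * x ^ 4) / N) =
      m1 * (N * om η1 (x : ℂ) + Real.log (1 + C4 * x ^ 4)) := by
    field_simp
  rw [g1'] at g1
  have g2 := mul_le_mul_of_nonneg_right hC.m2le l2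
  have g3 := mul_le_mul_of_nonneg_left (hB.bR x hz0 hz) (show 0 ≤ (N0 : ℝ) * e1 by positivity)
  have g4 : (N0 : ℝ) * e1 * (-om (t / 2) (x : ℂ) / (t / 2) +
      ab * (om η1 (x : ℂ) + Real.log (1 + C4 * x ^ 4) / N) +
      k3 * Real.log (1 + x ^ 2 / tp (t / 2) ^ 2)) =
      -(N0 * (e1 / (t / 2) * om (t / 2) (x : ℂ))) +
      ab * e1 * N0 * (om η1 (x : ℂ) + Real.log (1 + C4 * x ^ 4) / N) +
      k3 * e1 * N0 * Real.log (1 + x ^ 2 / tp (t / 2) ^ 2) := by
    ring
  rw [g4] at g3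
  linarith

end

theorem baseEx {t : ℝ} (ht : 0 < t) : BaseEx t := by
  intro ρ1 hρ1 w1 hw1
  obtain ⟨η1, w, ρ, τ, b0, ab, ab', k3, k3', θs, C4, zN, κk, x2, gb, N, E, hww, hB⟩ :=
    sb_exists ht hρ1 hw1
  refine ⟨w, ρ, τ, hB.hw, hww, hB.hρ, hB.hρw, hB.hτ, hB.hwψ, hB.hwπ, ?_⟩
  intro ηh hηh σ0 hσ0
  have hη : 0 < t / 2 := by linarith
  have hτ := hB.hτ
  have hgb := hB.hgb
  obtain ⟨φ1, hφ1, hφ1', near⟩ := near1 hB
  obtain ⟨ea, hea, strict⟩ := strict_of hB hφ1
  obtain ⟨eb, heb, sect⟩ := sector hB (show 0 < ηh / 2 by linarith)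
  obtain ⟨ec, hec, edg⟩ := edges hB
  obtain ⟨ed, hed, hfr⟩ := hfar_of hB
  obtain ⟨e0, he0⟩ : ∃ e0 : ℝ, e0 = min 1 (min (min ea eb) (min ec ed)) := ⟨_, rfl⟩
  have he0p : 0 < e0 := by
    rw [he0]; exact lt_min one_pos (lt_min (lt_min hea heb) (lt_min hec hed))
  obtain ⟨e1, N0, m1, m2, q, l, he1, hC⟩ := sc_exists hB he0p
  have he1p := hC.he1
  have b1 : e1 ≤ 1 := he1.trans (by rw [he0]; exact min_le_left _ _)
  have ba : e1 ≤ ea := he1.trans (by
    rw [he0]; exact (min_le_right _ _).trans ((min_le_left _ _).trans (min_le_left _ _)))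
  have bb : e1 ≤ eb := he1.trans (by
    rw [he0]; exact (min_le_right _ _).trans ((min_le_left _ _).trans (min_le_right _ _)))
  have bc : e1 ≤ ec := he1.trans (by
    rw [he0]; exact (min_le_right _ _).trans ((min_le_right _ _).trans (min_le_left _ _)))
  have bd : e1 ≤ ed := he1.trans (by
    rw [he0]; exact (min_le_right _ _).trans ((min_le_right _ _).trans (min_le_right _ _)))
  obtain ⟨σ1, hσ1, near⟩ := near e1 N0 m1 m2 q l hC
  obtain ⟨σ2, κ0, hσ2, hκ0, strict⟩ := strict e1 N0 m1 m2 q l ba hC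
  have sect := sect e1 N0 m1 m2 q l bb hC
  obtain ⟨e', he', edg⟩ := edg e1 N0 m1 m2 q l bc hC
  have hfr := hfr e1 N0 m1 m2 q l bd hC
  -- `e`
  obtain ⟨e, he⟩ : ∃ e : ℝ, e = min e' (gb / 3) := ⟨_, rfl⟩
  have hep : 0 < e := by rw [he]; exact lt_min he' (by linarith)
  have hee : e ≤ e' := by rw [he]; exact min_le_left _ _
  have heg : e ≤ gb / 3 := by rw [he]; exact min_le_right _ _
  -- `σ`
  obtain ⟨σ, hσ⟩ : ∃ σ : ℝ, σ = min (min (min σ0 σ1) (min σ2 (e / 4)))
    (min (min τ (gb / 3)) (ηh / (2 * (1 + ρ1)))) := ⟨_, rfl⟩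
  have hσp : 0 < σ := by
    rw [hσ]
    exact lt_min (lt_min (lt_min hσ0 hσ1) (lt_min hσ2 (by linarith)))
      (lt_min (lt_min hτ (by linarith)) (by positivity))
  have s0 : σ ≤ σ0 := by
    rw [hσ]; exact (min_le_left _ _).trans ((min_le_left _ _).trans (min_le_left _ _))
  have s1 : σ ≤ σ1 := by
    rw [hσ]; exact (min_le_left _ _).trans ((min_le_left _ _).trans (min_le_right _ _))
  have s2 : σ ≤ σ2 := by
    rw [hσ]; exact (min_le_left _ _).trans ((min_le_right _ _).trans (min_le_left _ _))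
  have s3 : σ ≤ e / 4 := by
    rw [hσ]; exact (min_le_left _ _).trans ((min_le_right _ _).trans (min_le_right _ _))
  have s4 : σ ≤ τ := by
    rw [hσ]; exact (min_le_right _ _).trans ((min_le_left _ _).trans (min_le_left _ _))
  have s5 : σ ≤ gb / 3 := by
    rw [hσ]; exact (min_le_right _ _).trans ((min_le_left _ _).trans (min_le_right _ _))
  have s6 : σ ≤ ηh / (2 * (1 + ρ1)) := by
    rw [hσ]; exact (min_le_right _ _).trans (min_le_right _ _)
  have s6' : σ * (1 + ρ1) ≤ ηh / 2 := by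
    rw [le_div_iff₀ (by positivity)] at s6
    linarith
  obtain ⟨κn, hκn, near⟩ := near σ hσp s1
  obtain ⟨κ, hκ⟩ : ∃ κ : ℝ, κ = min (min κn κ0) (gb / 3) := ⟨_, rfl⟩
  have hκp : 0 < κ := by rw [hκ]; exact lt_min (lt_min hκn hκ0) (by linarith)
  have k1 : κ ≤ κn := by rw [hκ]; exact (min_le_left _ _).trans (min_le_left _ _)
  have k2 : κ ≤ κ0 := by rw [hκ]; exact (min_le_left _ _).trans (min_le_right _ _)
  have k4 : κ ≤ gb / 3 := by rw [hκ]; exact min_le_right _ _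
  have hN0 : (0 : ℝ) ≤ N0 := Nat.cast_nonneg N0
  have hdl : 0 ≤ dl t := by
    have := Exact.sI_lt_one ht
    unfold dl
    linarith
  have habs : |σ| = σ := abs_of_pos hσp
  have key : ∀ a b : ℝ, a ≤ b → Real.exp (N0 * a) ≤ Real.exp (N0 * b) := fun a b h =>
    Real.exp_le_exp.2 (mul_le_mul_of_nonneg_left h hN0)
  refine ⟨F0of t q E m1 m2, N0, σ, κ, e, κk, x2, e1 * gb, s0, by linarith, ?_⟩
  exact
    { N0pos := hC.N0pos
      diff := F0_diff hB.hEP
      conj := fun z hz => F0_conj hB.hEP hz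
      zero := F0_zero hB.hEP hC.cp
      hκ := hκp
      he := hep
      hg := by positivity
      hg1 := by
        calc e1 * gb ≤ 1 * 1 := mul_le_mul b1 hB.hgb1 hgb.le zero_le_one
          _ = 1 := one_mul 1
      hσ := hσp
      hστ := s4
      hsmall := by
        have := hB.hτc
        linarith
      low := fun n k hk => hB.low N0 l q hC.N0pos hC.cp hC.l0 m1 m2 n k hk
      hx0 := hB.hx2
      hx1 := by
        have g1 := hB.hx2z
        have g2 := hB.hzN1
        have g3 := tp_lt_one hη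
        linarith
      hxk := hB.hxk
      mass := fun z hz => bo_mass hB hC hz
      ks := fun z hz0 hz => bo_ks hB hC hz0 hz
      far := by
        intro φ h0 h1 h2
        rcases h2 with h2 | h2 | h2
        · rcases le_total φ φ1 with h3 | h3
          · exact (near φ h0 h3).trans (key _ _ (by linarith))
          · refine (strict σ φ hσp.le s2 h1 (Or.inl ⟨h3, h2⟩)).trans (key _ _ ?_)
            have := mul_nonneg hσp.le hdl
            linarith
        · refine (strict σ φ hσp.le s2 h1 (Or.inr (Or.inl ?_))).trans (key _ _ ?_)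
          · rw [abs_le]
            constructor <;> linarith [h2.1, h2.2]
          · have := mul_nonneg hσp.le hdl
            linarith
        · refine (strict σ φ hσp.le s2 h1 (Or.inr (Or.inr h2))).trans (key _ _ ?_)
          have := mul_nonneg hσp.le hdl
          linarith
      arc := by
        intro φ h0 h1
        refine (sect σ φ (by rw [habs]; exact s4) (by rw [abs_le]; constructor <;> linarith)).trans
          (key _ _ ?_)
        rw [habs]
        nlinarith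
      out := by
        intro φ h0 h1
        refine (sect τ φ (by rw [abs_of_pos hτ]) (by rw [abs_le]; constructor <;> linarith)).trans
          (key _ _ ?_)
        rw [abs_of_pos hτ]
        have := mul_pos hτ hρ1
        linarith
      inn := by
        intro φ h0 h1
        refine (sect (-τ) φ (by rw [abs_neg, abs_of_pos hτ])
          (by rw [abs_le]; constructor <;> linarith)).trans (key _ _ ?_)
        rw [abs_neg, abs_of_pos hτ]
        have := mul_pos hτ hρ1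
        linarith
      edge := by
        intro s φ h0 h1 h2
        refine (edg s φ (abs_le.2 ⟨h0, h1⟩) h2).trans (key _ _ ?_)
        rcases le_total 0 s with h3 | h3
        · rw [abs_of_nonneg h3]
          have := le_max_right (s * (1 / 2 - ρ1)) (s * (1 / 2 + ρ1))
          linarith
        · rw [abs_of_nonpos h3]
          have := le_max_left (s * (1 / 2 - ρ1)) (s * (1 / 2 + ρ1))
          linarith
      hfar := by
        intro sb hsb
        obtain ⟨g', hg', hh⟩ := hfr sb hsb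
        exact ⟨g', hg', hh⟩ }

/-- **Branch I.** -/
theorem forcedV : FV := fun _ ht => forcedV_of ht (baseEx ht)

end Pool.Agent.Lib.MP_0430e4_lc.YP
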