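import Pool.Agent.Lib.MP_0430e4_lc.YP.Ing
import Pool.Agent.Lib.MP_0430e4_lc.BY.U.HAg
import Pool.Agent.Lib.MP_0430e4_lc.All.MP
import Pool.Agent.Lib.MP_0430e4_lc.All.CERT
import Pool.Agent.Lib.MP_0430e4_lc.AC.Y2Q

/-!
# Cert: certificates as polynomials (owner helper84)

`cert_q f` is the mass polynomial of a certificate `f` of level `l` on words of length `n`:
`cert_nonneg`, `cert_lop_nonneg` (coefficientwise level inequality), `cert_imag`, `cert_disc` (three
lines), `cert_circle` (the maximum on `|u| = r` is at `u = r`), `cert_near`, `cert_inside`.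
-/

set_option autoImplicit false

open Polynomial Finset

namespace Pool.Agent.Lib.MP_0430e4_lc.YP

open Complex
open BY AC YG

section
variable {n : ℕ} {l : ℝ} {f : Wd n → ℝ}

/-- the mass polynomial of a function on words -/
noncomputable def cert_q (f : Wd n → ℝ) : ℝ[X] := ∑ x, C (f x) * X ^ wt x

theorem cert_aeval (f : Wd n → ℝ) (z : ℂ) : (cert_q f).aeval z = Pf f z := by
  unfold cert_q Pf
  rw [map_sum]
  apply Finset.sum_congr rfl
  intro x _
  rw [map_mul, map_pow, aeval_X, aeval_C]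
  rfl

theorem cert_eval (f : Wd n → ℝ) (r : ℝ) : (cert_q f).eval r = Pfr f r := by
  unfold cert_q Pfr
  rw [Polynomial.eval_finsetSum]
  simp

theorem cert_eval_one (f : Wd n → ℝ) : (cert_q f).eval 1 = ∑ x, f x := by
  rw [cert_eval, Pfr_one]

theorem cert_deg (f : Wd n → ℝ) : (cert_q f).natDegree ≤ n := by
  unfold cert_q
  refine natDegree_sum_le_of_forall_le _ _ (fun y _ => ?_)
  exact (natDegree_C_mul_X_pow_le _ _).trans (wt_le y)

theorem cert_coeff (f : Wd n → ℝ) (k : ℕ) :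
    (cert_q f).coeff k = ∑ x, if wt x = k then f x else 0 := by
  unfold cert_q
  rw [finsetSum_coeff]
  apply Finset.sum_congr rfl
  intro y _
  rw [coeff_C_mul_X_pow]
  simp only [eq_comm]

theorem cert_coeff_zero (f : Wd n → ℝ) : (cert_q f).coeff 0 = f 0 := by
  rw [cert_coeff, Finset.sum_eq_single_of_mem (0 : Wd n) (Finset.mem_univ _)]
  · rw [if_pos (by unfold wt; simp)]
  · intro x _ hx
    rw [if_neg]
    unfold wt
    exact hammingNorm_ne_zero_iff.2 hx

theorem cert_nonneg (h : ∀ x, 0 ≤ f x) (k : ℕ) : 0 ≤ (cert_q f).coeff k := by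
  rw [cert_coeff]
  apply Finset.sum_nonneg
  intro x _
  split_ifs
  · exact h x
  · exact le_rfl

theorem cert_wt (x : Wd n) : Impr.wt (toB x) = wt x := by
  unfold Impr.wt wt hammingNorm toB
  congr 1
  ext i
  simp

/-- transfer to Boolean words -/
theorem cert_mp (f : Wd n → ℝ) : cert_q f = All.mp (fun y => f (ofB y)) := by
  unfold cert_q All.mp
  rw [← (tbE n).sum_comp (fun y => C (f (ofB y)) * X ^ Impr.wt y)]
  apply Finset.sum_congr rfl
  intro x _
  show C (f x) * X ^ wt x = C (f (ofB (toB x))) * X ^ Impr.wt (toB x)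
  rw [ofB_toB, cert_wt]

theorem cert_flp (y : Fin n → Bool) (i : Fin n) : ofB (Tensor.flp y i) = ofB y + sing i := by
  have h := toB_add_sing (ofB y) i
  rw [toB_ofB] at h
  rw [← h, ofB_toB]

/-- the operator `A - l` on the mass polynomial -/
theorem cert_lop_eq (l : ℝ) (f : Wd n → ℝ) :
    All.lop n l (cert_q f) = cert_q (fun x => (∑ i, f (x + sing i)) - l * f x) := by
  rw [cert_mp, cert_mp, All.lop_mp]
  congr 1
  funext y
  simp only [cert_flp]

/-- **level inequality, coefficientwise** -/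
theorem cert_lop_nonneg (hf : WCert l f) (k : ℕ) : 0 ≤ (All.lop n l (cert_q f)).coeff k := by
  rw [cert_lop_eq]
  apply cert_nonneg
  intro x
  have := hf.adj x
  linarith

theorem cert_conj (f : Wd n → ℝ) (z : ℂ) :
    (cert_q f).aeval (starRingEnd ℂ z) = starRingEnd ℂ ((cert_q f).aeval z) := by
  rw [cert_aeval, cert_aeval]
  unfold Pf
  rw [map_sum]
  apply Finset.sum_congr rfl
  intro x _
  rw [map_mul, map_pow, Complex.conj_ofReal]

theorem cert_diff (f : Wd n → ℝ) : Differentiable ℂ (fun z : ℂ => (cert_q f).aeval z) := by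
  have h : (fun z : ℂ => (cert_q f).aeval z) = Pf f := by
    funext z
    exact cert_aeval f z
  rw [h]
  exact differentiable_Pf f

/-- on the imaginary axis -/
theorem cert_imag (hf : WCert l f) (y : ℝ) :
    ‖(cert_q f).aeval ((y : ℂ) * Complex.I)‖ ≤ √(1 + y ^ 2) ^ n := by
  rw [cert_aeval]
  exact Pf_imag hf y

theorem cert_mass (hf : WCert l f) {z : ℂ} (hz : ‖z‖ ≤ 1) :
    ‖(cert_q f).aeval z‖ ≤ ∑ x, f x := by
  rw [cert_aeval, ← Pfr_one f]
  exact (norm_Pf_le hf.nonneg z).trans (Pfr_mono hf.nonneg (norm_nonneg z) hz)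

/-- **three lines on the closed disc** -/
theorem cert_disc (hf : WCert l f) {η c : ℝ} (hη : 0 < η) (hm : ∑ x, f x ≤ Real.exp (n * c))
    {z : ℂ} (hz : ‖z‖ ≤ 1) : ‖(cert_q f).aeval z‖ ≤ Real.exp (n * UG η c z) := by
  have h := three_lines_disc hη c (F := fun z : ℂ => (cert_q f).aeval z) (cert_diff f) (N := 1) n
    (fun w hw => by
      rw [one_mul]
      exact (cert_mass hf hw.le).trans hm)
    (fun y => by
      rw [one_mul]
      exact cert_imag hf y) hz
  rw [one_mul] at h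
  exact h

/-! ### the `u` side -/

/-- the polynomial of the transform -/
theorem cert_hat (f : Wd n → ℝ) {u : ℂ} (hu : 1 + u ≠ 0) :
    (1 + u) ^ n * (cert_q f).aeval (zu u) = Pf (hatW f) u := by
  rw [Pf_hat_eq f hu, cert_aeval]
  rfl

/-- the maximum on the circle `|u| = r` is at `u = r` -/
theorem cert_circle (hf : WCert l f) {u : ℂ} (hu : 1 + u ≠ 0) :
    ‖1 + u‖ ^ n * ‖(cert_q f).aeval (zu u)‖ ≤ Pfr (hatW f) ‖u‖ := by
  rw [← norm_pow, ← norm_mul, cert_hat f hu]
  exact norm_Pf_le hf.hat u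

/-- inside the unit disc -/
theorem cert_inside (hf : WCert l f) {u : ℂ} (hu : 1 + u ≠ 0) (h1 : ‖u‖ ≤ 1) :
    ‖1 + u‖ ^ n * ‖(cert_q f).aeval (zu u)‖ ≤ 2 ^ n := by
  refine (cert_circle hf hu).trans ((Pfr_mono hf.hat (norm_nonneg u) h1).trans ?_)
  rw [Pfr_one, sum_hatW, hf.one, mul_one]

theorem cert_pow_le {s : ℝ} (h0 : 0 ≤ s) (h1 : s * n ≤ 1) {w : ℕ} (hw : w ≤ n) :
    Real.exp s ^ w ≤ 1 + s * w + s ^ 2 * (n : ℝ) ^ 2 := by
  have hw' : (w : ℝ) ≤ n := by exact_mod_cast hw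
  have hw0 : (0 : ℝ) ≤ w := Nat.cast_nonneg w
  have h2 : s * w ≤ 1 := (mul_le_mul_of_nonneg_left hw' h0).trans h1
  have h3 : 0 ≤ s * w := mul_nonneg h0 hw0
  have h4 := Real.exp_bound' h3 h2 (n := 2) (by norm_num)
  rw [← Real.exp_nat_mul, mul_comm]
  refine h4.trans ?_
  rw [Finset.sum_range_succ, Finset.sum_range_succ, Finset.sum_range_zero]
  norm_num
  have h5 : (s * w) ^ 2 ≤ s ^ 2 * (n : ℝ) ^ 2 := by
    rw [← mul_pow]
    exact pow_le_pow_left₀ h3 (mul_le_mul_of_nonneg_left hw' h0) 2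
  nlinarith

/-- **near `u = 1`**: the circle `|u| = e^s` for `s n ≤ 1` -/
theorem cert_near (hf : WCert l f) {s : ℝ} (h0 : 0 ≤ s) (h1 : s * n ≤ 1) {u : ℂ}
    (hu : 1 + u ≠ 0) (hs : ‖u‖ = Real.exp s) :
    ‖1 + u‖ ^ n * ‖(cert_q f).aeval (zu u)‖ ≤
      2 ^ n * (1 + s * ((n - l) / 2) + s ^ 2 * (n : ℝ) ^ 2) := by
  refine (cert_circle hf hu).trans ?_
  rw [hs]
  have h3 : ∑ x, hatW f x = 2 ^ n := by rw [sum_hatW, hf.one, mul_one]
  have h2 : Pfr (hatW f) (Real.exp s) ≤
      ∑ x, (hatW f x + s * ((wt x : ℝ) * hatW f x) + s ^ 2 * (n : ℝ) ^ 2 * hatW f x) := by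
    unfold Pfr
    apply Finset.sum_le_sum
    intro x _
    have := mul_le_mul_of_nonneg_left (cert_pow_le h0 h1 (wt_le x)) (hf.hat x)
    refine this.trans (le_of_eq ?_)
    ring
  refine h2.trans ?_
  rw [Finset.sum_add_distrib, Finset.sum_add_distrib, ← Finset.mul_sum, ← Finset.mul_sum, h3]
  have h4 := mul_le_mul_of_nonneg_left (y2q_mean hf) h0
  linarith

end

theorem cert_norm_up (s φ : ℝ) : ‖up s φ‖ = Real.exp s := by
  unfold up
  rw [Complex.norm_exp]
  simp

theorem cp_of_cert {N0 : ℕ} (hN : 0 < N0) {l : ℝ} {f : Wd N0 → ℝ} (hf : WCert l f) :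
    ∃ q : ℝ[X], CP N0 l q ∧ q.eval 1 = ∑ x, f x := by
  have hlop := cert_lop_nonneg hf
  refine ⟨cert_q f, ⟨cert_deg f, cert_nonneg hf.nonneg, ?_, ?_, ?_, cert_imag hf, ?_⟩,
    cert_eval_one f⟩
  · rw [cert_coeff_zero, hf.one]
  · have h := hlop 0
    rw [All.Cert.lop_coeff, if_pos rfl, cert_coeff_zero, hf.one] at h
    push_cast at h
    norm_num at h
    linarith
  · intro k
    have h := hlop (k + 1)
    rw [All.Cert.lop_coeff, if_neg (Nat.succ_ne_zero k), Nat.add_sub_cancel] at h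
    push_cast at h
    have e : k + 1 + 1 = k + 2 := rfl
    rw [e] at h
    linarith
  · intro s φ h0 h1
    by_cases hu : 1 + up s φ = 0
    · rw [hu, norm_zero, zero_pow hN.ne', zero_mul]
      have h2 := y2q_mean hf
      have h3 : 0 ≤ ∑ x, (wt x : ℝ) * hatW f x :=
        Finset.sum_nonneg fun x _ => mul_nonneg (Nat.cast_nonneg _) (hf.hat x)
      have h4 : (0 : ℝ) < 2 ^ N0 := by positivity
      have h5 : 0 ≤ ((N0 : ℝ) - l) / 2 := by
        by_contra hcon
        push Not at hcon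
        have := mul_neg_of_pos_of_neg h4 hcon
        linarith
      have h6 : 0 ≤ s * ((N0 : ℝ) - l) / 2 := by
        rw [mul_div_assoc]
        exact mul_nonneg h0 h5
      positivity
    · refine (cert_near hf h0 h1 hu (cert_norm_up s φ)).trans (le_of_eq ?_)
      ring

/-- the level may be lowered -/
theorem CP.mono {N0 : ℕ} {l l' : ℝ} {q : ℝ[X]} (h : CP N0 l q) (hl : l' ≤ l) : CP N0 l' q where
  deg := h.deg
  nonneg := h.nonneg
  zero := h.zero
  lev0 := hl.trans h.lev0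
  lev := fun k => (mul_le_mul_of_nonneg_right hl (h.nonneg _)).trans (h.lev k)
  imag := h.imag
  near := by
    intro s φ h0 h1
    refine (h.near s φ h0 h1).trans ?_
    have h2 := mul_le_mul_of_nonneg_left hl h0
    have h3 : (0 : ℝ) ≤ 2 ^ N0 := by positivity
    apply mul_le_mul_of_nonneg_left _ h3
    linarith

end Pool.Agent.Lib.MP_0430e4_lc.YP
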