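import Pool.Agent.Lib.MP_0430e4_lc.YP.Defs

/-!
# ALLCODES, branch I: the ingredients of the base function (definitions)

`F0 = q * E ^ m1 * B ^ m2`, `B z = 1 + z ^ 2 / tip ^ 2`, `q` a certificate of length `N0`, `E` the flat
multiplier of modulus `η1 > t / 2` and order `N`.

Constants, in the order in which they are chosen: `w` (window), `η1`, `N`, `E`, `κk`, `x2`, `k3`, `b0`,
`ρ` (hole), `τ`; then `e1` (mass gain of the certificate), `q`, `N0`, `m1`, `m2`; then `σ`.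
-/

set_option autoImplicit false

open Polynomial

namespace Pool.Agent.Lib.MP_0430e4_lc.YP

open Complex
open BY AC YG

/-- `A(0)` -/
noncomputable def A0 (η : ℝ) : ℝ := (AA η 0).re

/-- the multiplier `E`: analytic on the disc, of modulus `η1` and order `N` -/
structure EP (η1 : ℝ) (N : ℕ) (C4 : ℝ) (E : ℂ → ℂ) : Prop where
  diff : DifferentiableOn ℂ E (Metric.ball 0 1)
  conj : ∀ z : ℂ, ‖z‖ < 1 → E (starRingEnd ℂ z) = starRingEnd ℂ (E z)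
  zero : E 0 = 1
  der : deriv E 0 = ((N / A0 η1 : ℝ) : ℂ)
  bnd : ∀ z : ℂ, ‖z‖ < 1 → ‖E z‖ ≤ Real.exp (N * om η1 z) * Real.cosh (om η1 z) ^ 3
  bnd4 : ∀ z : ℂ, ‖z‖ < 1 → ‖E z‖ ≤ Real.exp (N * om η1 z) * (1 + C4 * ‖z‖ ^ 4)

/-- certificates as polynomials in `z`; `l` = level -/
structure CP (N0 : ℕ) (l : ℝ) (q : ℝ[X]) : Prop where
  deg : q.natDegree ≤ N0
  nonneg : ∀ k, 0 ≤ q.coeff k
  zero : q.coeff 0 = 1
  lev0 : l ≤ q.coeff 1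
  lev : ∀ k : ℕ, l * q.coeff (k + 1) ≤
    ((k : ℝ) + 2) * q.coeff (k + 2) + ((N0 : ℝ) - k) * q.coeff k
  imag : ∀ y : ℝ, ‖q.aeval ((y : ℂ) * I)‖ ≤ √(1 + y ^ 2) ^ N0
  near : ∀ s φ : ℝ, 0 ≤ s → s * N0 ≤ 1 →
    ‖1 + up s φ‖ ^ N0 * ‖q.aeval (zu (up s φ))‖ ≤
      2 ^ N0 * (1 + s * (N0 - l) / 2 + (s * N0) ^ 2)

/-- the base function -/
noncomputable def F0of (t : ℝ) (q : ℝ[X]) (E : ℂ → ℂ) (m1 m2 : ℕ) (z : ℂ) : ℂ :=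
  q.aeval z * E z ^ m1 * (1 + z ^ 2 / (tp (t / 2) : ℂ) ^ 2) ^ m2

/-- the hole around the tip: `|B| ≤ b0` there -/
def Hole (t ρ τ b0 : ℝ) : Prop := ∀ s φ : ℝ, |s| ≤ τ → |φ - psi0 t| ≤ ρ →
  ‖1 + zu (up s φ) ^ 2 / (tp (t / 2) : ℂ) ^ 2‖ ≤ b0

/-- height bound of the multiplier on the whole disc, per unit of proportion -/
noncomputable def hE (η1 : ℝ) (N : ℕ) : ℝ := η1 + 3 * Real.log (Real.cosh η1) / N

/-- **Constants of stage B** (everything before `e1`). -/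
structure SB (t η1 ρ1 w ρ τ b0 ab ab' k3 k3' θs C4 zN κk x2 gb : ℝ) (N : ℕ) (E : ℂ → ℂ) :
    Prop where
  ht : 0 < t
  hη : t / 2 < η1
  hN : 0 < N
  hEP : EP η1 N C4 E
  hC4 : 0 < C4
  hρ1 : 0 < ρ1
  hw : 0 < w
  hwψ : w < psi0 t
  hwπ : psi0 t + w < Real.pi / 2
  tip1 : Real.tan ((psi0 t - w) / 2) < tp η1
  tip2 : tp η1 < tp (t / 2)
  hρ : 0 < ρ
  hρw : ρ < w
  hτ : 0 < τ
  hτ1 : τ ≤ 1
  hτc : Exact.cval t + τ ≤ Real.log 2 / 2 - gb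
  /-- `p4` is beyond the slit: the gap at the edge `p4` survives the shift by `τ` -/
  gap4 : ∀ s : ℝ, |s| ≤ τ → Real.log ‖1 + up s (psi0 t + w)‖ + Ud t (zu (up s (psi0 t + w))) ≤
    Real.log 2 + s / 2 - 2 * gb
  hb0 : 0 < b0
  hb1 : b0 < 1
  hole : Hole t ρ τ b0
  hab : 0 < ab
  hab' : 0 < ab'
  hk3 : 0 < k3
  hk3' : 0 < k3'
  hk33 : k3' < k3
  hθ : 0 < θs
  hgb : 0 < gb
  hgb1 : gb ≤ 1
  /-- proportion of `E`: enough for the level -/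
  habc : A0 η1 * (1 / (t / 2 * A0 (t / 2)) + θs) < ab
  habc' : ab' ≤ A0 η1 * θs
  /-- `B` decreases on the edge `p1` -/
  edge1 : ∀ s : ℝ, |s| ≤ τ → ‖1 + zu (up s (psi0 t - w)) ^ 2 / (tp (t / 2) : ℂ) ^ 2‖ ≤
    Real.exp (-gb)
  /-- the window of `tip_main` -/
  tipl : ∀ s φ : ℝ, |s| ≤ τ → |φ - psi0 t| ≤ w →
    Real.log ‖1 + up s φ‖ + Ud t (zu (up s φ)) ≤ Real.log 2 + s / 2 + ρ1 / 2 * |s|
  /-- mass -/
  bm : -1 + ab * hE η1 N + k3 * Real.log (1 + 1 / tp (t / 2) ^ 2) ≤ -gb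
  /-- hole -/
  bh : ab * hE η1 N + k3' * Real.log b0 ≤ -gb
  /-- the real axis -/
  bR : ∀ x : ℝ, x2 ≤ x → x < 1 → -om (t / 2) x / (t / 2) +
    ab * (om η1 x + Real.log (1 + C4 * x ^ 4) / N) +
      k3 * Real.log (1 + x ^ 2 / tp (t / 2) ^ 2) ≤ -gb
  hzN : 0 < zN
  hzN1 : zN ≤ tp (t / 2) / 2
  /-- the left gain of `E` near `0` -/
  left : ∀ z : ℂ, ‖z‖ ≤ zN → z.re ≤ 0 → ‖E z‖ ≤ Real.exp (N / (2 * A0 η1) * z.re)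
  /-- `B` against the left gain -/
  kz : 4 * k3 * zN * A0 η1 ≤ ab' * tp (t / 2) ^ 2
  hx2 : 0 < x2
  hx2z : 2 * x2 ≤ zN
  hxk : gI t x2 ≤ κk
  low : ∀ (N0 : ℕ) (l : ℝ) (q : ℝ[X]), 0 < N0 → CP N0 l q → Exact.sI t / 2 * N0 ≤ l →
    ∀ m1 m2 n k : ℕ, (k : ℝ) ≤ κk * n → 0 ≤ cn (F0of t q E m1 m2) N0 n k

/-- **Stage C**: the certificate and the integers. -/
structure SC (t η1 ab ab' k3 k3' θs e1 : ℝ) (N N0 m1 m2 : ℕ) (q : ℝ[X]) (l : ℝ) : Prop where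
  N0pos : 0 < N0
  he1 : 0 < e1
  cp : CP N0 l q
  l0 : Exact.sI t / 2 * N0 ≤ l
  mass : q.eval 1 ≤ Real.exp (N0 * (Exact.cval t - e1))
  m1le : (m1 : ℝ) * N ≤ ab * e1 * N0
  m1ge : ab' * e1 * N0 ≤ (m1 : ℝ) * N
  level : (Exact.sI t + θs * e1) * N0 ≤ l + m1 * N / A0 η1
  m2le : (m2 : ℝ) ≤ k3 * e1 * N0
  m2ge : k3' * e1 * N0 ≤ (m2 : ℝ)

end Pool.Agent.Lib.MP_0430e4_lc.YP
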