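import Pool.Agent.Lib.MP_0430e4_lc.YP.Ing
import Pool.Agent.Lib.MP_0430e4_lc.YE.J4

/-!
# Jc: the two harmonic measures on the real axis (owner helper74)
-/

set_option autoImplicit false

namespace Pool.Agent.Lib.MP_0430e4_lc.YP

open Complex
open BY AC YG

/-- a shorter slit has the larger modulus `KK` -/
theorem jc_KK {η η1 : ℝ} (h : 0 < η) (h1 : 0 < η1) (ht : tp η1 < tp η) :
    YE.KK η < YE.KK η1 := by
  have a0 : 0 < YE.tip η1 := YE.tip_pos h1
  have a1 : YE.tip η1 < YE.tip η := ht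
  have a2 : YE.tip η < 1 := YE.tip_lt_one h
  rw [YE.KK_eq h, YE.KK_eq h1]
  generalize YE.tip η1 = a at a0 a1
  generalize YE.tip η = b at a1 a2
  have b0 : 0 < b := a0.trans a1
  have h2 : b + 1 / b < a + 1 / a := by
    have h3 : a + 1 / a - (b + 1 / b) = (b - a) * (1 - a * b) / (a * b) := by
      field_simp
      ring
    have h4 : a * b < 1 := by nlinarith
    have h5 : 0 < (b - a) * (1 - a * b) / (a * b) := by
      apply div_pos (mul_pos (by linarith) (by linarith)) (by positivity)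
    linarith
  have h3 : 0 < b + 1 / b := by positivity
  exact pow_lt_pow_left₀ h2 h3.le two_ne_zero

/-- `A om - A1 om1 ≥ c x^3` on `[0,1]`; at `x = 1`: `A η - A1 η1 > 0` -/
theorem jac_gap {η η1 : ℝ} (h : 0 < η) (h1 : η < η1) (ht : tp η1 < tp η) : ∃ cJ : ℝ, 0 < cJ ∧
    (∀ x : ℝ, 0 ≤ x → x ≤ 1 → cJ * x ^ 3 ≤ A0 η * om η x - A0 η1 * om η1 x) ∧
      cJ ≤ A0 η * η - A0 η1 * η1 := by
  have h0 : 0 < η1 := h.trans h1
  obtain ⟨c, hc, H⟩ := YE.Gf_sub_ge h h0 (jc_KK h h0 ht)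
  refine ⟨c, hc, H, ?_⟩
  have h2 := H 1 zero_le_one le_rfl
  rw [YE.Gf_one h, YE.Gf_one h0] at h2
  have h3 : YE.a0 η * η - YE.a0 η1 * η1 = A0 η * η - A0 η1 * η1 := rfl
  linarith

/-- linear upper bound -/
theorem om_real_le {η : ℝ} (h : 0 < η) : ∃ C : ℝ, 0 < C ∧
    ∀ x : ℝ, 0 ≤ x → x ≤ 1 → om η x ≤ C * x := by
  have ha := YE.a0_pos h
  refine ⟨(YE.a0 η)⁻¹, by positivity, fun x h0 h1 => ?_⟩
  have := YE.om_le_div h h0 h1
  rw [div_eq_mul_inv, mul_comm] at this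
  exact this

end Pool.Agent.Lib.MP_0430e4_lc.YP
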