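import Pool.Agent.Lib.MP_0430e4_lc.YP.EB
import Pool.Agent.Lib.MP_0430e4_lc.YL.L5

/-!
# Low: positivity of the low coefficients, range independent of the proportion of `E` (owner helper91)
-/

set_option autoImplicit false

open Polynomial Finset

namespace Pool.Agent.Lib.MP_0430e4_lc.YP

open Complex
open BY AC YG

theorem low_lop {N0 : ℕ} {l : ℝ} {q : ℝ[X]} (h : CP N0 l q) : YL.CN (All.lop N0 l q) := by
  have hlop : All.lop N0 l q =
      derivative q - X * (X * derivative q) + C (N0 : ℝ) * (X * q) - C l * q := by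
    unfold All.lop
    simp only [map_natCast]
    ring
  intro k
  rw [hlop]
  rcases k with _ | k
  · simp only [coeff_sub, coeff_add, coeff_derivative, coeff_C_mul, coeff_X_mul_zero, mul_zero,
      sub_zero, add_zero, zero_add]
    have h1 := h.lev0
    have h2 := h.zero
    rw [h2]
    push_cast
    linarith
  · have h1 := h.lev k
    simp only [coeff_sub, coeff_add, coeff_derivative, coeff_C_mul, coeff_X_mul]
    rcases k with _ | k
    · simp only [coeff_X_mul_zero]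
      push_cast at h1 ⊢
      norm_num at h1 ⊢
      linarith
    · simp only [coeff_X_mul, coeff_derivative]
      push_cast at h1 ⊢
      nlinarith

theorem low_ex {t η1 : ℝ} (ht : 0 < t) (h1 : 0 < η1) {N : ℕ} (hN : 0 < N) {C4 : ℝ} {E : ℂ → ℂ}
    (hE : EP η1 N C4 E) : ∃ κk : ℝ, 0 < κk ∧
    ∀ (N0 : ℕ) (l : ℝ) (q : ℝ[X]), 0 < N0 → CP N0 l q → Exact.sI t / 2 * N0 ≤ l →
      ∀ m1 m2 n k : ℕ, (k : ℝ) ≤ κk * n → 0 ≤ cn (F0of t q E m1 m2) N0 n k := by
  have hA := A0_pos h1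
  have hNr : (0 : ℝ) < N := by exact_mod_cast hN
  have hd : 0 < (deriv E 0).re := by
    rw [hE.der, ofReal_re]
    positivity
  obtain ⟨κ, hκ, H⟩ := YL.low_base (R0 := 1) one_pos hE.diff (fun z hz => hE.conj z hz) hE.zero hd
    (lam := Exact.sI t / 2) (half_pos (Exact.sI_pos ht))
  refine ⟨κ, hκ, fun N0 l q hN0 hq hl m1 m2 n k hk => ?_⟩
  have hb : YL.CN ((1 + C ((tp (t / 2) ^ 2)⁻¹) * X ^ 2 : ℝ[X]) ^ m2) :=
    YL.CN.pow (YL.cn_one.add (YL.CN.mul (YL.cn_C (by positivity)) (YL.CN.pow YL.cn_X 2))) m2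
  have h2 := H N0 l q _ hN0 hl (fun k => hq.nonneg k) (low_lop hq) hb m1 n k hk
  have h3 : F0of t q E m1 m2 = fun z => q.aeval z * E z ^ m1 *
      ((1 + C ((tp (t / 2) ^ 2)⁻¹) * X ^ 2 : ℝ[X]) ^ m2).aeval z := by
    funext z
    unfold F0of
    have h4 : (1 + C ((tp (t / 2) ^ 2)⁻¹) * X ^ 2 : ℝ[X]).aeval z =
        1 + z ^ 2 / (tp (t / 2) : ℂ) ^ 2 := by
      rw [map_add, map_one, map_mul, map_pow, aeval_X, aeval_C, Complex.coe_algebraMap,
        mul_comm, ofReal_inv, ofReal_pow, ← div_eq_mul_inv]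
    rw [map_pow, h4]
  rw [h3]
  exact h2

end Pool.Agent.Lib.MP_0430e4_lc.YP
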