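import Pool.Agent.Lib.MP_0430e4_lc.YE.J3

/-!
# NEAR1, inputs (helper41): `om` near `0`

* `sec_small` : the section is near `0` near `0` (right half disc);
* `om_near` : `(1-θ) Re z / A(0) ≤ om z ≤ (1+θ) Re z / A(0)` for `Re z ≥ 0`, `|z| ≤ zN`.
-/

set_option autoImplicit false

namespace Pool.Agent.Lib.MP_0430e4_lc.YP

open Complex Filter Topology Set
open YG YE

section
variable {η : ℝ} (hη : 0 < η)
include hη

theorem sec_small {r : ℝ} (hr : 0 < r) : ∃ zN : ℝ, 0 < zN ∧ zN < 1 ∧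
    ∀ z : ℂ, 0 < z.re → ‖z‖ ≤ zN → ‖sec η z‖ < r := by
  have hpi := Real.pi_pos
  obtain ⟨K, hK⟩ : ∃ K : Set ℂ, K = Rc η \ Metric.ball 0 r := ⟨_, rfl⟩
  have hKc : IsCompact K := by
    rw [hK]
    exact Rc_compact.diff Metric.isOpen_ball
  have hKR : K ⊆ Rc η := by rw [hK]; exact sdiff_subset
  rcases K.eq_empty_or_nonempty with he | hne
  · refine ⟨1 / 2, by norm_num, by norm_num, fun z h0 h1 => ?_⟩
    by_contra hcon
    have h2 := sec_mem_Rp hη (lt_of_le_of_lt h1 (by norm_num)) h0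
    have h3 : sec η z ∈ K := by
      rw [hK]
      refine ⟨?_, ?_⟩
      · have h4 := mem_Rp.1 h2
        exact mem_Rc.2 ⟨⟨h4.1.1.le, h4.1.2.le⟩, h4.2.le⟩
      · rw [Metric.mem_ball, dist_zero_right]
        exact hcon
    rw [he] at h3
    exact h3
  · obtain ⟨s0, hs0, hmin⟩ := hKc.exists_isMinOn hne (((Z_contOn_Rc hη).mono hKR).norm)
    have hs1 := mem_Rc.1 (hKR hs0)
    have hpos : 0 < ‖Z η s0‖ := by
      rw [norm_pos_iff]
      intro h0
      have hlt : s0.re < η := by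
        rcases hs1.1.2.lt_or_eq with h | h
        · exact h
        · have := Z_norm hη h
          rw [h0, norm_zero] at this
          norm_num at this
      have h2 : s0 = 0 := Z_inj hη hs1.1.1 hlt hs1.2 (by simp) (by simpa using hη)
        (by simpa using by positivity) (by rw [h0, Z_zero])
      have h3 := hs0
      rw [hK, h2] at h3
      exact h3.2 (Metric.mem_ball_self hr)
    refine ⟨min (‖Z η s0‖ / 2) (1 / 2), lt_min (by positivity) (by norm_num),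
      lt_of_le_of_lt (min_le_right _ _) (by norm_num), fun z h0 h1 => ?_⟩
    have hz1 : ‖z‖ < 1 := lt_of_le_of_lt (h1.trans (min_le_right _ _)) (by norm_num)
    have hz2 : ‖z‖ ≤ ‖Z η s0‖ / 2 := h1.trans (min_le_left _ _)
    by_contra hcon
    have h2 := sec_mem_Rp hη hz1 h0
    have h3 : sec η z ∈ K := by
      rw [hK]
      refine ⟨?_, ?_⟩
      · have h4 := mem_Rp.1 h2
        exact mem_Rc.2 ⟨⟨h4.1.1.le, h4.1.2.le⟩, h4.2.le⟩
      · rw [Metric.mem_ball, dist_zero_right]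
        exact hcon
    have h4 : ‖Z η s0‖ ≤ ‖Z η (sec η z)‖ := hmin h3
    rw [Z_sec hη hz1.le] at h4
    linarith

/-- every point of the slit is a value on the imaginary axis -/
private theorem exists_slit {y : ℝ} (h : |y| ≤ tip η) : ∃ t : ℝ, |t| ≤ Real.pi / 2 ∧
    Z η ((t : ℂ) * I) = (y : ℂ) * I := by
  have hpi := Real.pi_pos
  obtain ⟨h1, h2⟩ := abs_le.1 h
  have hc : ContinuousOn (fun t : ℝ => (Z η ((t : ℂ) * I)).im) (Icc (-(Real.pi / 2)) (Real.pi / 2)) :=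
    fun t _ => (Y_deriv hη t).continuousAt.continuousWithinAt
  have e1 : (Z η (((-(Real.pi / 2) : ℝ) : ℂ) * I)).im = -tip η := by
    have : (((-(Real.pi / 2) : ℝ) : ℂ) * I) = -(((Real.pi / 2 : ℝ) : ℂ) * I) := by
      push_cast; ring
    rw [this, Z_neg]
    rfl
  have e2 : (Z η (((Real.pi / 2 : ℝ) : ℂ) * I)).im = tip η := rfl
  have hiv := intermediate_value_Icc (by linarith : -(Real.pi / 2) ≤ Real.pi / 2) hc
  obtain ⟨t, ht, h3⟩ := hiv (show y ∈ Icc _ _ from ⟨by rw [e1]; exact h1, by rw [e2]; exact h2⟩)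
  refine ⟨t, abs_le.2 ht, ?_⟩
  have h3' : (Z η ((t : ℂ) * I)).im = y := h3
  rw [Z_imag, h3']

private theorem om_slit {y : ℝ} (h : |y| ≤ tip η) : om η ((y : ℂ) * I) = 0 := by
  obtain ⟨t, _, h2⟩ := exists_slit hη h
  rw [← h2, om_Z hη (by simp) (by simpa using hη.le)]
  simp

private theorem inv_cont : ContinuousAt (fun s : ℂ => (AA η s * (1 - Z η s ^ 2))⁻¹) 0 := by
  have h0 : |(0 : ℂ).re| < η := by simpa using hη
  apply ContinuousAt.inv₀
  · exact (AA_diff hη h0).continuousAt.mul (continuousAt_const.sub ((Z_diff hη h0.le).continuousAt.pow 2))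
  · rw [Z_zero, AA0]
    have := a0_pos hη
    simp [this.ne']

/-- `om` near `0` -/
theorem om_near {θ : ℝ} (hθ : 0 < θ) : ∃ zN : ℝ, 0 < zN ∧ zN < 1 ∧ ∀ z : ℂ, 0 ≤ z.re → ‖z‖ ≤ zN →
    (1 - θ) * z.re / a0 η ≤ om η z ∧ om η z ≤ (1 + θ) * z.re / a0 η := by
  have ha := a0_pos hη
  have hc := inv_cont hη
  rw [Metric.continuousAt_iff] at hc
  obtain ⟨r, hr, hc⟩ := hc (θ / a0 η) (by positivity)
  obtain ⟨zN, hz0, hz1, hz⟩ := sec_small hη hr
  have hder : ∀ z : ℂ, 0 < z.re → ‖z‖ ≤ zN →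
      (1 - θ) / a0 η ≤ ((AA η (sec η z) * (1 - z ^ 2))⁻¹).re ∧
      ((AA η (sec η z) * (1 - z ^ 2))⁻¹).re ≤ (1 + θ) / a0 η := by
    intro z h0 h1
    have h2 := hc (x := sec η z) (by rw [dist_zero_right]; exact hz z h0 h1)
    rw [Z_zero, AA0, Z_sec hη (h1.trans hz1.le)] at h2
    rw [dist_eq_norm] at h2
    have e : (((a0 η : ℂ)) * (1 - (0 : ℂ) ^ 2))⁻¹ = (((a0 η)⁻¹ : ℝ) : ℂ) := by
      push_cast; norm_num
    rw [e] at h2
    have h3 := (Complex.abs_re_le_norm _).trans h2.le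
    rw [Complex.sub_re, Complex.ofReal_re] at h3
    obtain ⟨h4, h5⟩ := abs_le.1 h3
    have e2 : (1 - θ) / a0 η = (a0 η)⁻¹ - θ / a0 η := by field_simp
    have e3 : (1 + θ) / a0 η = (a0 η)⁻¹ + θ / a0 η := by field_simp
    rw [e2, e3]
    constructor <;> linarith
  refine ⟨min zN (tip η), lt_min hz0 (tip_pos hη), lt_of_le_of_lt (min_le_left _ _) hz1,
    fun z h0 h1 => ?_⟩
  have hzz : ‖z‖ ≤ zN := h1.trans (min_le_left _ _)
  have hzt : ‖z‖ ≤ tip η := h1.trans (min_le_right _ _)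
  have him : |z.im| ≤ tip η := (Complex.abs_im_le_norm z).trans hzt
  obtain ⟨g, hg⟩ : ∃ g : ℝ → ℝ, g = fun x : ℝ => om η ((x : ℂ) + (z.im : ℂ) * I) := ⟨_, rfl⟩
  have hg0 : g 0 = 0 := by
    rw [hg]
    simp only [Complex.ofReal_zero, zero_add]
    exact om_slit hη him
  have hgz : g z.re = om η z := by
    rw [hg]
    simp only [Complex.re_add_im]
  have hno : ∀ x : ℝ, 0 ≤ x → x ≤ z.re → ‖(x : ℂ) + (z.im : ℂ) * I‖ ≤ ‖z‖ := by
    intro x hx0 hx1
    rw [Complex.norm_eq_sqrt_sq_add_sq, Complex.norm_eq_sqrt_sq_add_sq]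
    apply Real.sqrt_le_sqrt
    simp
    nlinarith
  have hgc : ContinuousOn g (Icc 0 z.re) := by
    rw [hg]
    apply (om_cont hη).comp (by fun_prop)
    intro x hx
    rw [mem_closedBall_zero_iff]
    exact (hno x hx.1 hx.2).trans (hzz.trans hz1.le)
  have hgd : ∀ x ∈ Ioo 0 z.re, HasDerivAt g
      ((AA η (sec η ((x : ℂ) + (z.im : ℂ) * I)) * (1 - ((x : ℂ) + (z.im : ℂ) * I) ^ 2))⁻¹).re x := by
    intro x hx
    have h2 := hno x hx.1.le hx.2.le
    have h3 : 0 < ((x : ℂ) + (z.im : ℂ) * I).re := by simpa using hx.1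
    have h4 := sec_hasDerivAt hη (z := (x : ℂ) + (z.im : ℂ) * I)
      (lt_of_le_of_lt (h2.trans hzz) hz1) h3
    have h5 : HasDerivAt (fun x : ℂ => x + (z.im : ℂ) * I) 1 (x : ℂ) := by
      simpa using (hasDerivAt_id (x : ℂ)).add_const ((z.im : ℂ) * I)
    have h6 := (h4.comp (x : ℂ) h5).comp_ofReal
    rw [mul_one] at h6
    have h7 := hasDerivAt_re h6
    rw [hg]
    exact h7
  have hdr : ∀ x ∈ Ioo 0 z.re, (1 - θ) / a0 η ≤ deriv g x ∧ deriv g x ≤ (1 + θ) / a0 η := by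
    intro x hx
    rw [(hgd x hx).deriv]
    exact hder _ (by simpa using hx.1) ((hno x hx.1.le hx.2.le).trans hzz)
  have hdf : DifferentiableOn ℝ g (interior (Icc 0 z.re)) := by
    rw [interior_Icc]
    exact fun x hx => (hgd x hx).differentiableAt.differentiableWithinAt
  have hlo := (convex_Icc 0 z.re).mul_sub_le_image_sub_of_le_deriv hgc hdf
    (C := (1 - θ) / a0 η) (by rw [interior_Icc]; exact fun x hx => (hdr x hx).1)
    0 ⟨le_rfl, h0⟩ z.re ⟨h0, le_rfl⟩ h0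
  have hup := (convex_Icc 0 z.re).image_sub_le_mul_sub_of_deriv_le hgc hdf
    (C := (1 + θ) / a0 η) (by rw [interior_Icc]; exact fun x hx => (hdr x hx).2)
    0 ⟨le_rfl, h0⟩ z.re ⟨h0, le_rfl⟩ h0
  rw [hg0, hgz, sub_zero, sub_zero] at hlo hup
  constructor
  · calc (1 - θ) * z.re / a0 η = (1 - θ) / a0 η * z.re := by ring
      _ ≤ _ := hlo
  · calc om η z ≤ (1 + θ) / a0 η * z.re := hup
      _ = _ := by ring

end

end Pool.Agent.Lib.MP_0430e4_lc.YP
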