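import Pool.Agent.Lib.MP_0430e4_lc.BY.P.AFar
import Pool.Agent.Lib.MP_0430e4_lc.BY.P.Good

/-!
# NEAR1, geometry (helper41): the point `zu (up s φ)` near `0`, the factor `1 + z²/y0²`
-/

set_option autoImplicit false

namespace Pool.Agent.Lib.MP_0430e4_lc.YP

open Complex BY

theorem ng_den (s φ : ℝ) : Complex.normSq (1 + up s φ) =
    2 * Real.exp s * (Real.cosh s + Real.cos φ) := by
  rw [Complex.normSq_eq_norm_sq]
  exact norm_one_add_exp_sq s φ

theorem ng_den_pos {s φ : ℝ} (hc : 0 ≤ Real.cos φ) : 0 < Complex.normSq (1 + up s φ) := by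
  rw [ng_den]
  have h1 := Real.exp_pos s
  have h2 := Real.cosh_pos s
  positivity

theorem ng_re {s φ : ℝ} (hc : 0 ≤ Real.cos φ) :
    (zu (up s φ)).re = -(Real.sinh s / (Real.cosh s + Real.cos φ)) := by
  have h0 := (ng_den_pos (s := s) hc).ne'
  have h1 := Real.exp_pos s
  have h2 : 0 < Real.cosh s + Real.cos φ := by linarith [Real.cosh_pos s]
  have e1 : (up s φ).re = Real.exp s * Real.cos φ := exp_re' s φ
  have e2 : (up s φ).im = Real.exp s * Real.sin φ := exp_im' s φ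
  unfold zu
  rw [Complex.div_re, ng_den, Complex.sub_re, Complex.sub_im, Complex.add_re, Complex.add_im,
    Complex.one_re, Complex.one_im, e1, e2]
  have h3 := Real.sin_sq_add_cos_sq φ
  have h4 : Real.sinh s = (Real.exp s ^ 2 - 1) / (2 * Real.exp s) := by
    rw [Real.sinh_eq, Real.exp_neg]
    field_simp
  rw [h4]
  field_simp
  nlinarith

theorem ng_im {s φ : ℝ} (hc : 0 ≤ Real.cos φ) :
    (zu (up s φ)).im = -(Real.sin φ / (Real.cosh s + Real.cos φ)) := by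
  have h0 := (ng_den_pos (s := s) hc).ne'
  have h1 := Real.exp_pos s
  have h2 : 0 < Real.cosh s + Real.cos φ := by linarith [Real.cosh_pos s]
  have e1 : (up s φ).re = Real.exp s * Real.cos φ := exp_re' s φ
  have e2 : (up s φ).im = Real.exp s * Real.sin φ := exp_im' s φ
  unfold zu
  rw [Complex.div_im, ng_den, Complex.sub_re, Complex.sub_im, Complex.add_re, Complex.add_im,
    Complex.one_re, Complex.one_im, e1, e2]
  field_simp
  ring

/-- the real part is at most `-(s/2)(1-s)` -/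
theorem ng_re_le {s φ : ℝ} (h0 : 0 ≤ s) (h1 : s ≤ 1) (hc : 0 ≤ Real.cos φ) :
    (zu (up s φ)).re ≤ -(s / 2 * (1 - s)) := by
  rw [ng_re hc, neg_le_neg_iff]
  have h2 : 0 < Real.cosh s + Real.cos φ := by linarith [Real.cosh_pos s]
  have h3 := Real.cos_le_one φ
  rw [le_div_iff₀ h2]
  have h4 := Real.self_le_sinh_iff.2 h0
  have h5 := cosh_sub_one_le (s := s) (by rw [abs_of_nonneg h0]; exact h1)
  have h6 : 0 ≤ s / 2 * (1 - s) := by
    have : 0 ≤ 1 - s := by linarith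
    positivity
  have h7 : s / 2 * (1 - s) * (Real.cosh s + Real.cos φ) ≤ s / 2 * (1 - s) * (2 + s ^ 2) :=
    mul_le_mul_of_nonneg_left (by linarith) h6
  have h8 : s / 2 * (1 - s) * (2 + s ^ 2) ≤ s := by nlinarith [sq_nonneg s, mul_nonneg h0 h0]
  linarith

theorem ng_re_nonpos {s φ : ℝ} (h0 : 0 ≤ s) (hc : 0 ≤ Real.cos φ) : (zu (up s φ)).re ≤ 0 := by
  rw [ng_re hc, neg_nonpos]
  have h2 : 0 < Real.cosh s + Real.cos φ := by linarith [Real.cosh_pos s]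
  exact div_nonneg (Real.sinh_nonneg_iff.2 h0) h2.le

theorem ng_re_abs {s φ : ℝ} (h0 : 0 ≤ s) (hc : 0 ≤ Real.cos φ) : |(zu (up s φ)).re| ≤ s := by
  rw [ng_re hc, abs_neg]
  have h2 : 0 < Real.cosh s + Real.cos φ := by linarith [Real.cosh_pos s]
  rw [abs_of_nonneg (div_nonneg (Real.sinh_nonneg_iff.2 h0) h2.le), div_le_iff₀ h2]
  have h3 : Real.sinh s ≤ s * Real.cosh s := by
    have hmono : MonotoneOn (fun x : ℝ => x * Real.cosh x - Real.sinh x) (Set.Ici 0) := by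
      apply monotoneOn_of_deriv_nonneg (convex_Ici 0)
      · fun_prop
      · fun_prop
      · intro x hx
        rw [interior_Ici] at hx
        have hd : HasDerivAt (fun x : ℝ => x * Real.cosh x - Real.sinh x)
            (1 * Real.cosh x + x * Real.sinh x - Real.cosh x) x :=
          ((hasDerivAt_id x).mul (Real.hasDerivAt_cosh x)).sub (Real.hasDerivAt_sinh x)
        rw [hd.deriv]
        have := mul_nonneg (le_of_lt hx) (Real.sinh_nonneg_iff.2 (le_of_lt hx))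
        linarith
    have := hmono (Set.mem_Ici.2 le_rfl) (Set.mem_Ici.2 h0) h0
    simp only [zero_mul, Real.sinh_zero, sub_zero] at this
    linarith
  have h4 : 0 ≤ s * Real.cos φ := mul_nonneg h0 hc
  linarith

theorem ng_im_abs {s φ : ℝ} (hφ : 0 ≤ φ) (hφ1 : φ ≤ Real.pi / 2) : |(zu (up s φ)).im| ≤ φ := by
  have hc : 0 ≤ Real.cos φ := Real.cos_nonneg_of_mem_Icc ⟨by linarith [Real.pi_pos], hφ1⟩
  rw [ng_im hc, abs_neg]
  have h2 : 0 < Real.cosh s + Real.cos φ := by linarith [Real.cosh_pos s]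
  have h3 : 0 ≤ Real.sin φ := Real.sin_nonneg_of_nonneg_of_le_pi hφ (by linarith [Real.pi_pos])
  rw [abs_of_nonneg (div_nonneg h3 h2.le), div_le_iff₀ h2]
  have h4 := Real.sin_le hφ
  have h5 := Real.one_le_cosh s
  nlinarith [mul_nonneg hφ hc]

theorem ng_norm {s φ : ℝ} (h0 : 0 ≤ s) (hφ : 0 ≤ φ) (hφ1 : φ ≤ Real.pi / 2) :
    ‖zu (up s φ)‖ ≤ s + φ := by
  have hc : 0 ≤ Real.cos φ := Real.cos_nonneg_of_mem_Icc ⟨by linarith [Real.pi_pos], hφ1⟩
  have h1 := Complex.norm_le_abs_re_add_abs_im (zu (up s φ))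
  have h2 := ng_re_abs h0 hc (s := s) (φ := φ)
  have h3 := ng_im_abs (s := s) hφ hφ1
  linarith

/-- the factor with a zero at the tip: at most `1 + (Re z)²/y0²` near the slit -/
theorem ng_B {z : ℂ} {y0 : ℝ} (hy : 0 < y0) (h1 : |z.im| ≤ y0) (h2 : z.re ^ 2 ≤ y0 ^ 2 / 2) :
    ‖1 + z ^ 2 / (y0 : ℂ) ^ 2‖ ≤ 1 + z.re ^ 2 / y0 ^ 2 := by
  obtain ⟨X, hX⟩ : ∃ X : ℝ, X = z.re ^ 2 / y0 ^ 2 := ⟨_, rfl⟩
  obtain ⟨Y, hY⟩ : ∃ Y : ℝ, Y = z.im ^ 2 / y0 ^ 2 := ⟨_, rfl⟩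
  have hy2 : 0 < y0 ^ 2 := by positivity
  have hX0 : 0 ≤ X := by rw [hX]; positivity
  have hY0 : 0 ≤ Y := by rw [hY]; positivity
  have hX1 : X ≤ 1 / 2 := by rw [hX, div_le_iff₀ hy2]; linarith
  have hY1 : Y ≤ 1 := by
    rw [hY, div_le_iff₀ hy2, one_mul]
    have h3 := abs_le.1 h1
    nlinarith
  have e1 : (1 + z ^ 2 / (y0 : ℂ) ^ 2).re = 1 + X - Y := by
    rw [hX, hY]
    have : z ^ 2 / (y0 : ℂ) ^ 2 = z ^ 2 / ((y0 ^ 2 : ℝ) : ℂ) := by push_cast; rfl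
    rw [this, Complex.add_re, Complex.one_re, Complex.div_ofReal_re, pow_two, Complex.mul_re]
    field_simp
    ring
  have e2 : (1 + z ^ 2 / (y0 : ℂ) ^ 2).im = 2 * z.re * z.im / y0 ^ 2 := by
    have : z ^ 2 / (y0 : ℂ) ^ 2 = z ^ 2 / ((y0 ^ 2 : ℝ) : ℂ) := by push_cast; rfl
    rw [this, Complex.add_im, Complex.one_im, Complex.div_ofReal_im, pow_two, Complex.mul_im]
    ring
  have e3 : (2 * z.re * z.im / y0 ^ 2) ^ 2 = 4 * X * Y := by
    rw [hX, hY]
    field_simp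
    ring
  rw [← hX, Complex.norm_eq_sqrt_sq_add_sq, e1, e2, e3]
  apply Real.sqrt_le_iff.2
  constructor
  · linarith
  · nlinarith [mul_nonneg hX0 hY0, mul_nonneg hY0 (sub_nonneg.2 hY1), mul_nonneg hY0 (sub_nonneg.2 hX1)]

end Pool.Agent.Lib.MP_0430e4_lc.YP
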