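import Pool.Agent.Lib.MP_0430e4_lc.YP.Ing
import Pool.Agent.Lib.MP_0430e4_lc.YA.A6
import Pool.Agent.Lib.MP_0430e4_lc.YE.E1

/-!
# Om1: `om`, `Ud` on the disc (owner helper88)
-/

set_option autoImplicit false

open Polynomial

namespace Pool.Agent.Lib.MP_0430e4_lc.YP

open Complex
open BY AC YG

variable {t : ℝ}

/-- harmonic measure decreases with the angle -/
theorem om_le_abs {η : ℝ} (h : 0 < η) {z : ℂ} (hz : ‖z‖ ≤ 1) : om η z ≤ om η (‖z‖ : ℂ) :=
  YE.om_le_abs h hz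

theorem om_slit {η y : ℝ} (h : 0 < η) (h1 : |y| ≤ tp η) : om η ((y : ℂ) * I) = 0 :=
  YA.om_slit h h1

theorem tp_pos {η : ℝ} (h : 0 < η) : 0 < tp η := YE.tip_pos h

theorem tp_lt_one {η : ℝ} (h : 0 < η) : tp η < 1 := YE.tip_lt_one h

/-- points of the slit, with the parameter inside the open interval -/
theorem om_slit_param {η y : ℝ} (h : 0 < η) (h1 : |y| < tp η) : ∃ τ : ℝ, |τ| < Real.pi / 2 ∧
    Z η ((τ : ℂ) * I) = (y : ℂ) * I := by
  have hpi := Real.pi_pos
  have hy := abs_lt.1 h1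
  have hcont : ContinuousOn (fun t : ℝ => (Z η (t * I)).im) (Set.Icc (-(Real.pi / 2)) (Real.pi / 2)) :=
    fun t _ => (YE.Y_deriv h t).continuousAt.continuousWithinAt
  have hlo : (fun t : ℝ => (Z η (t * I)).im) (-(Real.pi / 2)) = -tp η := by
    show (Z η (((-(Real.pi / 2) : ℝ) : ℂ) * I)).im = -tp η
    have e : (((-(Real.pi / 2) : ℝ) : ℂ) * I) = -(((Real.pi / 2 : ℝ) : ℂ) * I) := by
      push_cast; ring
    rw [e, Z_neg]
    simp [tp]
  have hhi : (fun t : ℝ => (Z η (t * I)).im) (Real.pi / 2) = tp η := rfl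
  have h2 : y ∈ Set.Ioo ((fun t : ℝ => (Z η (t * I)).im) (-(Real.pi / 2)))
      ((fun t : ℝ => (Z η (t * I)).im) (Real.pi / 2)) := by
    rw [hlo, hhi]; exact ⟨hy.1, hy.2⟩
  obtain ⟨τ, h3, h4⟩ := intermediate_value_Ioo (by linarith) hcont h2
  refine ⟨τ, abs_lt.2 ⟨h3.1, h3.2⟩, ?_⟩
  rw [YE.Z_imag (η := η) τ]
  congr 2

/-- linear bound away from the tips -/
theorem om_lip {η y' : ℝ} (h : 0 < η) (h0 : 0 < y') (h1 : y' < tp η) : ∃ C : ℝ, 0 < C ∧
    ∀ z : ℂ, ‖z‖ ≤ 1 → |z.im| ≤ y' → om η z ≤ C * |z.re| := by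
  have hK : IsCompact {z : ℂ | ‖z‖ ≤ 1 ∧ |z.im| ≤ y'} := by
    have h2 : IsCompact (Metric.closedBall (0 : ℂ) 1) := isCompact_closedBall 0 1
    refine h2.of_isClosed_subset ?_ ?_
    · have e1 : IsClosed {z : ℂ | ‖z‖ ≤ 1} := isClosed_le continuous_norm continuous_const
      have e2 : IsClosed {z : ℂ | |z.im| ≤ y'} :=
        isClosed_le (continuous_abs.comp Complex.continuous_im) continuous_const
      exact e1.inter e2
    · intro z hz
      simpa using hz.1
  have key : ∃ C : ℝ, 0 < C ∧ ∀ z ∈ {z : ℂ | ‖z‖ ≤ 1 ∧ |z.im| ≤ y'}, om η z ≤ C * |z.re| := by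
    refine hK.induction_on (p := fun K : Set ℂ => ∃ C : ℝ, 0 < C ∧ ∀ z ∈ K, om η z ≤ C * |z.re|)
      ?_ ?_ ?_ ?_
    · exact ⟨1, one_pos, fun z hz => absurd hz (by simp)⟩
    · rintro K K' hKK ⟨C, h1, h2⟩
      exact ⟨C, h1, fun z hz => h2 z (hKK hz)⟩
    · rintro K K' ⟨C, h1, h2⟩ ⟨C', h1', h2'⟩
      refine ⟨max C C', by positivity, ?_⟩
      rintro z (hz | hz)
      · exact (h2 z hz).trans (mul_le_mul_of_nonneg_right (le_max_left _ _) (abs_nonneg _))
      · exact (h2' z hz).trans (mul_le_mul_of_nonneg_right (le_max_right _ _) (abs_nonneg _))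
    · rintro z0 ⟨hz0, hz0'⟩
      by_cases hre : z0.re = 0
      · -- a point of the slit
        have hy : |z0.im| < tp η := lt_of_le_of_lt hz0' h1
        obtain ⟨τ, hτ, hZ⟩ := om_slit_param h hy
        have him : |((τ : ℂ) * I).im| < Real.pi / 2 := by simpa using hτ
        have hre0 : |((τ : ℂ) * I).re| < η := by simp [h]
        have hd : AA η ((τ : ℂ) * I) * (1 - Z η ((τ : ℂ) * I) ^ 2) ≠ 0 := by
          refine mul_ne_zero (AA_ne h (by simp) (by simp [h]) him.le ?_) ?_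
          · rintro ⟨_, h'⟩; exact him.ne h'
          · rw [show (1 : ℂ) - Z η ((τ : ℂ) * I) ^ 2
                = (1 - Z η ((τ : ℂ) * I)) * (1 + Z η ((τ : ℂ) * I)) by ring]
            exact mul_ne_zero (one_sub_Z_ne h hre0) (one_add_Z_ne h hre0)
        obtain ⟨C, hC0, hC⟩ := YA.om_local h hre0 hd
        have e0 : ((z0.im : ℂ) * I) = z0 := by
          apply Complex.ext <;> simp [hre]
        rw [hZ, e0] at hC
        have hpair : Filter.Tendsto (fun z : ℂ => (z, (z.im : ℂ) * I)) (nhds z0)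
            (nhds (z0, z0)) := by
          have hc : Continuous (fun z : ℂ => (z, (z.im : ℂ) * I)) := by fun_prop
          have := hc.tendsto z0
          rw [e0] at this
          exact this
        have hev := hpair.eventually hC
        refine ⟨{z : ℂ | |om η z - om η ((z.im : ℂ) * I)| ≤ C * ‖z - (z.im : ℂ) * I‖} ∩
          {z : ℂ | ‖z‖ ≤ 1 ∧ |z.im| ≤ y'}, ?_, C, hC0, ?_⟩
        · rw [Set.inter_comm]
          exact inter_mem_nhdsWithin _ hev
        · rintro z ⟨hz1, hz2⟩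
          have e1 : om η ((z.im : ℂ) * I) = 0 := om_slit h (hz2.2.trans h1.le)
          have e2 : z - (z.im : ℂ) * I = ((z.re : ℝ) : ℂ) := by
            apply Complex.ext <;> simp
          rw [Set.mem_setOf_eq, e1, sub_zero, e2, Complex.norm_real, Real.norm_eq_abs] at hz1
          exact (le_abs_self _).trans hz1
      · have hpos : 0 < |z0.re| := abs_pos.2 hre
        refine ⟨{z : ℂ | |z0.re| / 2 < |z.re|} ∩ {z : ℂ | ‖z‖ ≤ 1 ∧ |z.im| ≤ y'}, ?_,
          2 * η / |z0.re|, by positivity, ?_⟩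
        · rw [Set.inter_comm]
          apply inter_mem_nhdsWithin
          have hc : Continuous (fun z : ℂ => |z.re|) := continuous_abs.comp Complex.continuous_re
          exact (isOpen_lt continuous_const hc).mem_nhds (by
            show |z0.re| / 2 < |z0.re|
            linarith)
        · rintro z ⟨hz1, hz2⟩
          have hz1' : |z0.re| / 2 < |z.re| := hz1
          calc om η z ≤ η := om_le h hz2.1
            _ = 2 * η / |z0.re| * (|z0.re| / 2) := by field_simp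
            _ ≤ 2 * η / |z0.re| * |z.re| := mul_le_mul_of_nonneg_left hz1'.le (by positivity)
  obtain ⟨C, hC0, hC⟩ := key
  exact ⟨C, hC0, fun z hz hz' => hC z ⟨hz, hz'⟩⟩

theorem tan_psi0 {t : ℝ} (ht : 0 < t) : Real.tan (psi0 t / 2) = tp (t / 2) := by
  unfold psi0
  rw [mul_div_cancel_left₀ _ (two_ne_zero), Real.tan_arctan]

/-- `U` on the slit -/
theorem Ud_slit {y : ℝ} (ht : 0 < t) (h1 : |y| ≤ tp (t / 2)) :
    Ud t ((y : ℂ) * I) = Real.log (1 + y ^ 2) / 2 := by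
  have hη : 0 < t / 2 := by linarith
  obtain ⟨τ, _, hZ⟩ := YE.exists_slit hη (y := y) h1
  have h2 : UG (t / 2) (Exact.cval t) (Z (t / 2) ((τ : ℂ) * I))
      = (Lower.GG (Real.exp (-(t / 2)) ^ 2) (Exact.cval t) ((τ : ℂ) * I)).re :=
    UG_Z hη _ (by simp) (by simp [hη.le])
  unfold Ud
  rw [← hZ, h2]
  obtain ⟨y', h3, h4⟩ := Lower.zz_zero r0 (r1 hη) (Exact.cval t) (s := (τ : ℂ) * I) (by simp)
  have h5 : (y' : ℂ) * I = (y : ℂ) * I := by rw [← h3, ← hZ]; rfl
  have h6 : y' = y := by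
    have := mul_right_cancel₀ I_ne_zero h5
    exact_mod_cast this
  rw [h6] at h4
  rw [← Real.log_exp (Lower.GG (Real.exp (-(t / 2)) ^ 2) (Exact.cval t) ((τ : ℂ) * I)).re, ← h4,
    Real.log_sqrt (by positivity)]

/-- `U` on the real axis -/
theorem Ud_real {x : ℝ} (ht : 0 < t) (h0 : 0 < x) (h1 : x < 1) : Ud t (x : ℂ) = UI t x := by
  have hη : 0 < t / 2 := by linarith
  obtain ⟨b0, b1, b2⟩ := (upI hη).spec h0 h1
  have h2 := zz_real hη b0.le b1
  rw [b2] at h2
  have h3 : Z (t / 2) ((sx (t / 2) (Zr (t / 2)) x : ℝ) : ℂ) = (x : ℂ) := h2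
  unfold Ud
  rw [← h3, UG_Z hη _ (by simpa using b0.le) (by simpa using b1.le)]
  rfl

end Pool.Agent.Lib.MP_0430e4_lc.YP
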