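import Pool.Agent.Lib.MP_0430e4_lc.YP.Defs
import Pool.Agent.Lib.MP_0430e4_lc.YP.Tip

/-!
Project ALLCODES, part Y1 (helper72): the majorant near the tip, in the notation of `YP/Defs`.
-/

set_option autoImplicit false

namespace Pool.Agent.Lib.MP_0430e4_lc.YP

open Complex
open BY AC YG

theorem tip_arg : (((Real.pi / 2 : ℝ) : ℂ) * I) = I * (Real.pi / 2) := by
  push_cast
  ring

theorem tipA_eq (t : ℝ) : tipA (t / 2) = psi0 t := by
  unfold tipA psi0 tp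
  rw [tip_arg]

theorem tip_pos {η : ℝ} (hη : 0 < η) : 0 < tp η := by
  unfold tp
  rw [tip_arg]
  exact (tip_angle hη).1

theorem tip_lt_one {η : ℝ} (hη : 0 < η) : tp η < 1 := by
  unfold tp
  rw [tip_arg]
  exact (tip_angle hη).2.1

theorem psi0_pos {t : ℝ} (ht : 0 < t) : 0 < psi0 t := by
  rw [← tipA_eq]
  exact (tip_angle (by linarith)).2.2.1

theorem psi0_lt {t : ℝ} (ht : 0 < t) : psi0 t < Real.pi / 2 := by
  rw [← tipA_eq]
  exact (tip_angle (by linarith)).2.2.2.1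

/-- `Z (iπ/2) = i tip` -/
theorem Z_tip (η : ℝ) : Z η (((Real.pi / 2 : ℝ) : ℂ) * I) = (tp η : ℂ) * I := by
  have hre : (Z η (((Real.pi / 2 : ℝ) : ℂ) * I)).re = 0 := Z_re_zero (by simp)
  unfold tp
  apply Complex.ext
  · rw [hre]; simp
  · simp

/-- the tip in the `u` plane -/
theorem zu_psi0 {t : ℝ} (ht : 0 < t) : zu (up 0 (psi0 t)) = -((tp (t / 2) : ℂ) * I) := by
  rw [← tipA_eq, (tip_angle (by linarith : 0 < t / 2)).2.2.2.2, Z_neg, ← tip_arg, Z_tip]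

/-- **TIP**, with the angle of the tip: both signs of `s`. -/
theorem tip_psi {t : ℝ} (ht : 0 < t) {ρ : ℝ} (hρ : 0 < ρ) :
    ∃ w τ : ℝ, 0 < w ∧ 0 < τ ∧ ∀ s φ : ℝ, |s| ≤ τ → |φ - psi0 t| ≤ w →
      Real.log ‖1 + up s φ‖ + Ud t (zu (up s φ)) ≤ Real.log 2 + s / 2 + ρ * |s| := by
  have h := tip_main ht hρ
  rw [tipA_eq] at h
  exact h

end Pool.Agent.Lib.MP_0430e4_lc.YP
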