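import Pool.Agent.Lib.MP_0430e4_lc.YP.Om1
import Pool.Agent.Lib.MP_0430e4_lc.YP.Mass
import Pool.Agent.Lib.MP_0430e4_lc.YP.Tip2
import Pool.Agent.Lib.MP_0430e4_lc.BY.P.AFar

/-!
# SBa: four small ingredients of stage B (owner helper30)
-/

set_option autoImplicit false

open Polynomial Filter Topology

namespace Pool.Agent.Lib.MP_0430e4_lc.YP

open Complex
open BY AC YG

private theorem sba_den {s φ : ℝ} (hc : 0 < Real.cos φ) : 0 < ‖1 + up s φ‖ := by
  have h := norm_one_add_exp_sq s φ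
  have h1 := Real.exp_pos s
  have h2 := Real.cosh_pos s
  have h3 : 0 < ‖1 + up s φ‖ ^ 2 := by
    show 0 < ‖1 + exp (s + φ * I)‖ ^ 2
    rw [h]; positivity
  by_contra hcon
  have h4 : ‖1 + up s φ‖ = 0 := le_antisymm (not_lt.1 hcon) (norm_nonneg _)
  rw [h4] at h3
  simp at h3

private theorem sba_zu_cont {p : ℝ × ℝ} (hc : 0 < Real.cos p.2) :
    ContinuousAt (fun q : ℝ × ℝ => zu (up q.1 q.2)) p := by
  have h := sba_den (s := p.1) hc
  have hne : (1 : ℂ) + up p.1 p.2 ≠ 0 := norm_pos_iff.1 h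
  have hup : Continuous (fun q : ℝ × ℝ => up q.1 q.2) := by
    unfold up
    fun_prop
  unfold zu
  exact (continuousAt_const.sub hup.continuousAt).div (continuousAt_const.add hup.continuousAt) hne

private theorem sba_zu_cont1 {φ : ℝ} (hc : 0 < Real.cos φ) :
    ContinuousAt (fun s : ℝ => zu (up s φ)) 0 := by
  have h : ContinuousAt (fun s : ℝ => ((s, φ) : ℝ × ℝ)) 0 := by fun_prop
  exact ContinuousAt.comp (g := fun q : ℝ × ℝ => zu (up q.1 q.2)) (f := fun s : ℝ => (s, φ))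
    (x := 0) (sba_zu_cont (p := (0, φ)) hc) h

/-- **(a)** the hole around the tip -/
theorem hole_ex {t b0 : ℝ} (ht : 0 < t) (hb : 0 < b0) :
    ∃ r : ℝ, 0 < r ∧ ∀ ρ τ : ℝ, ρ ≤ r → τ ≤ r → Hole t ρ τ b0 := by
  have hpi := Real.pi_pos
  have hp0 := psi0_pos ht
  have hp1 := psi0_lt ht
  have hc : 0 < Real.cos (psi0 t) := Real.cos_pos_of_mem_Ioo ⟨by linarith, hp1⟩
  have htp : 0 < tp (t / 2) := tip_pos (by linarith)
  have hcont : ContinuousAt
      (fun q : ℝ × ℝ => ‖1 + zu (up q.1 q.2) ^ 2 / (tp (t / 2) : ℂ) ^ 2‖) (0, psi0 t) :=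
    (continuousAt_const.add (((sba_zu_cont (p := (0, psi0 t)) hc).pow 2).div_const _)).norm
  have hval : ‖1 + zu (up 0 (psi0 t)) ^ 2 / (tp (t / 2) : ℂ) ^ 2‖ = 0 := by
    rw [zu_psi0 ht, norm_eq_zero]
    have hne : (tp (t / 2) : ℂ) ≠ 0 := by exact_mod_cast htp.ne'
    have e : (-((tp (t / 2) : ℂ) * I)) ^ 2 = -(tp (t / 2) : ℂ) ^ 2 := by
      rw [neg_sq, mul_pow, I_sq]; ring
    rw [e, neg_div, div_self (pow_ne_zero 2 hne)]
    ring
  have hev : ∀ᶠ q : ℝ × ℝ in 𝓝 (0, psi0 t),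
      ‖1 + zu (up q.1 q.2) ^ 2 / (tp (t / 2) : ℂ) ^ 2‖ < b0 := by
    refine hcont.eventually_lt_const ?_
    show ‖1 + zu (up 0 (psi0 t)) ^ 2 / (tp (t / 2) : ℂ) ^ 2‖ < b0
    rw [hval]; exact hb
  obtain ⟨d, hd, hball⟩ := Metric.eventually_nhds_iff.1 hev
  refine ⟨d / 2, by linarith, fun ρ τ hρ hτ s φ hs hφ => ?_⟩
  refine (hball (y := (s, φ)) ?_).le
  rw [Prod.dist_eq, max_lt_iff]
  constructor
  · rw [Real.dist_eq, sub_zero]; linarith
  · rw [Real.dist_eq]; show |φ - psi0 t| < d; linarith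

/-- the value on the unit circle -/
private theorem sba_norm0 {φ : ℝ} (h0 : 0 ≤ φ) (h1 : φ < Real.pi / 2) :
    ‖1 + up 0 φ‖ = 2 * Real.cos (φ / 2) := by
  have hpi := Real.pi_pos
  have hc : 0 < Real.cos (φ / 2) := Real.cos_pos_of_mem_Ioo ⟨by linarith, by linarith⟩
  have h := norm_one_add_exp_sq 0 φ
  have e : ‖1 + up 0 φ‖ ^ 2 = (2 * Real.cos (φ / 2)) ^ 2 := by
    show ‖1 + exp (((0 : ℝ) : ℂ) + φ * I)‖ ^ 2 = _
    rw [h, Real.exp_zero, Real.cosh_zero]
    have h4 := Real.cos_sq (φ / 2)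
    rw [show 2 * (φ / 2) = φ by ring] at h4
    rw [mul_pow, h4]; ring
  exact (pow_left_inj₀ (norm_nonneg _) (by positivity) two_ne_zero).1 e

/-- **(b)** the gap beyond the slit survives a small shift -/
theorem gap4 {t w : ℝ} (ht : 0 < t) (hw : 0 < w) (hwπ : psi0 t + w < Real.pi / 2) :
    ∃ g r : ℝ, 0 < g ∧ 0 < r ∧ ∀ s : ℝ, |s| ≤ r →
      Real.log ‖1 + up s (psi0 t + w)‖ + Ud t (zu (up s (psi0 t + w))) ≤
        Real.log 2 + s / 2 - g := by
  have hpi := Real.pi_pos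
  have hp0 := psi0_pos ht
  have hη : 0 < t / 2 := by linarith
  set φ := psi0 t + w with hφ
  have hφ0 : 0 < φ := by linarith
  have hc : 0 < Real.cos φ := Real.cos_pos_of_mem_Ioo ⟨by linarith, hwπ⟩
  have hc2 : 0 < Real.cos (φ / 2) := Real.cos_pos_of_mem_Ioo ⟨by linarith, by linarith⟩
  set y := Real.tan (φ / 2) with hy
  have hytp : tp (t / 2) < y := by
    rw [← tan_psi0 ht]
    exact Real.tan_lt_tan_of_nonneg_of_lt_pi_div_two (by linarith) (by linarith) (by linarith)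
  have hy1 : y < 1 := by
    rw [← Real.tan_pi_div_four]
    exact Real.tan_lt_tan_of_nonneg_of_lt_pi_div_two (by linarith) (by linarith) (by linarith)
  have hy0 : 0 < y := (tip_pos hη).trans hytp
  have hz0 : zu (up 0 φ) = -((y : ℂ) * I) := by
    rw [zu_up_zero (by linarith) (by linarith)]
    ring
  have hzn : ‖zu (up 0 φ)‖ < 1 := by
    rw [hz0, norm_neg, norm_mul, norm_I, mul_one, Complex.norm_real, Real.norm_eq_abs,
      abs_of_pos hy0]
    exact hy1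
  have hgap := gap_pos ht hytp hy1.le
  have hU0 : Ud t (zu (up 0 φ)) = Ud t ((y : ℂ) * I) := by
    rw [hz0]
    unfold Ud
    refine UG_neg hη _ ?_
    rw [norm_mul, norm_I, mul_one, Complex.norm_real, Real.norm_eq_abs, abs_of_pos hy0]
    exact hy1.le
  have hlog1 : Real.log (1 + y ^ 2) / 2 = -Real.log (Real.cos (φ / 2)) := by
    have e : 1 + y ^ 2 = (Real.cos (φ / 2) ^ 2)⁻¹ := by
      rw [hy, Real.tan_eq_sin_div_cos]
      have := Real.sin_sq_add_cos_sq (φ / 2)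
      field_simp
      linarith
    rw [e, Real.log_inv, Real.log_pow]
    push_cast; ring
  have hlt : Real.log ‖1 + up 0 φ‖ + Ud t (zu (up 0 φ)) < Real.log 2 := by
    rw [hU0, sba_norm0 hφ0.le hwπ, Real.log_mul two_ne_zero hc2.ne']
    linarith
  set F : ℝ → ℝ := fun s => Real.log ‖1 + up s φ‖ + Ud t (zu (up s φ)) - s / 2 with hF
  have hcont : ContinuousAt F 0 := by
    have hup : Continuous (fun s : ℝ => up s φ) := by
      unfold up
      fun_prop
    have h1 : ContinuousAt (fun s : ℝ => Real.log ‖1 + up s φ‖) 0 :=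
      (continuousAt_const.add hup.continuousAt).norm.log (sba_den hc).ne'
    have h2 : ContinuousAt (fun s : ℝ => Ud t (zu (up s φ))) 0 := by
      have hb : Metric.closedBall (0 : ℂ) 1 ∈ 𝓝 (zu (up 0 φ)) :=
        Metric.closedBall_mem_nhds_of_mem (by simpa using hzn)
      exact ContinuousAt.comp (g := Ud t) (f := fun s : ℝ => zu (up s φ)) (x := 0)
        ((UG_cont hη (Exact.cval t)).continuousAt hb) (sba_zu_cont1 hc)
    exact (h1.add h2).sub (continuousAt_id.div_const 2)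
  have hF0 : F 0 < Real.log 2 := by
    simp only [hF]
    linarith
  set g := (Real.log 2 - F 0) / 2 with hg
  have hg0 : 0 < g := by linarith
  have hev : ∀ᶠ s in 𝓝 (0 : ℝ), F s < Real.log 2 - g :=
    hcont.eventually_lt_const (by linarith)
  obtain ⟨d, hd, hball⟩ := Metric.eventually_nhds_iff.1 hev
  refine ⟨g, d / 2, hg0, by linarith, fun s hs => ?_⟩
  have h := hball (y := s) (by rw [Real.dist_eq, sub_zero]; linarith)
  simp only [hF] at h
  linarith

/-- **(c)** the factor `1 + z ^ 2 / tip ^ 2` on the edge before the tip -/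
theorem edge1_ex {t w : ℝ} (ht : 0 < t) (hw : 0 < w) (hwψ : w < psi0 t) :
    ∃ g r : ℝ, 0 < g ∧ 0 < r ∧ ∀ s : ℝ, |s| ≤ r →
      ‖1 + zu (up s (psi0 t - w)) ^ 2 / (tp (t / 2) : ℂ) ^ 2‖ ≤ Real.exp (-g) := by
  have hpi := Real.pi_pos
  have hp1 := psi0_lt ht
  have hη : 0 < t / 2 := by linarith
  have htp : 0 < tp (t / 2) := tip_pos hη
  set φ := psi0 t - w with hφ
  have hφ0 : 0 < φ := by linarith
  have hc : 0 < Real.cos φ := Real.cos_pos_of_mem_Ioo ⟨by linarith, by linarith⟩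
  set y := Real.tan (φ / 2) with hy
  have hytp : y < tp (t / 2) := by
    rw [← tan_psi0 ht]
    exact Real.tan_lt_tan_of_nonneg_of_lt_pi_div_two (by linarith) (by linarith) (by linarith)
  have hy0 : 0 < y := Real.tan_pos_of_pos_of_lt_pi_div_two (by linarith) (by linarith)
  have hz0 : zu (up 0 φ) = -((y : ℂ) * I) := by
    rw [zu_up_zero (by linarith) (by linarith)]
    ring
  have hq0 : 0 < y ^ 2 / tp (t / 2) ^ 2 := by positivity
  have hq1 : y ^ 2 / tp (t / 2) ^ 2 < 1 := by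
    rw [div_lt_one (by positivity)]
    exact pow_lt_pow_left₀ hytp hy0.le two_ne_zero
  have hval : ‖1 + zu (up 0 φ) ^ 2 / (tp (t / 2) : ℂ) ^ 2‖ = 1 - y ^ 2 / tp (t / 2) ^ 2 := by
    rw [hz0]
    have e : 1 + (-((y : ℂ) * I)) ^ 2 / (tp (t / 2) : ℂ) ^ 2 =
        ((1 - y ^ 2 / tp (t / 2) ^ 2 : ℝ) : ℂ) := by
      rw [neg_sq, mul_pow, I_sq]
      push_cast
      ring
    rw [e, Complex.norm_real, Real.norm_eq_abs, abs_of_pos (by linarith)]
  have hcont : ContinuousAt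
      (fun s : ℝ => ‖1 + zu (up s φ) ^ 2 / (tp (t / 2) : ℂ) ^ 2‖) 0 :=
    (continuousAt_const.add (((sba_zu_cont1 hc).pow 2).div_const _)).norm
  set v := 1 - y ^ 2 / tp (t / 2) ^ 2 / 2 with hv
  have hv0 : 0 < v := by linarith
  have hv1 : v < 1 := by linarith
  have hev : ∀ᶠ s in 𝓝 (0 : ℝ), ‖1 + zu (up s φ) ^ 2 / (tp (t / 2) : ℂ) ^ 2‖ < v := by
    refine hcont.eventually_lt_const ?_
    show ‖1 + zu (up 0 φ) ^ 2 / (tp (t / 2) : ℂ) ^ 2‖ < v
    rw [hval]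
    linarith
  obtain ⟨d, hd, hball⟩ := Metric.eventually_nhds_iff.1 hev
  refine ⟨-Real.log v, d / 2, by have := Real.log_neg hv0 hv1; linarith, by linarith,
    fun s hs => ?_⟩
  rw [neg_neg, Real.exp_log hv0]
  exact (hball (y := s) (by rw [Real.dist_eq, sub_zero]; linarith)).le

/-- **(d)** `gI` is small near `0` -/
theorem gI_small {t κ : ℝ} (ht : 0 < t) (hκ : 0 < κ) :
    ∃ x0 : ℝ, 0 < x0 ∧ x0 < 1 ∧ ∀ x : ℝ, 0 < x → x ≤ x0 → gI t x ≤ κ := by
  have hd0 : 0 < (1 - Exact.sI t) / 2 := by linarith [Exact.sI_lt_one ht]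
  obtain ⟨x, h0, h1, h2⟩ := (potI ht).g_small hd0 hκ
  exact ⟨x, h0, h1, fun y hy hyx => (h2 y hy hyx).le⟩

end Pool.Agent.Lib.MP_0430e4_lc.YP
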