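import Pool.Agent.Lib.MP_0430e4_lc.YP.EB
import Pool.Agent.Lib.MP_0430e4_lc.YP.Om
import Pool.Agent.Lib.MP_0430e4_lc.YP.Low
import Pool.Agent.Lib.MP_0430e4_lc.YP.SBa
import Pool.Agent.Lib.MP_0430e4_lc.YP.Tip2
import Pool.Agent.Lib.MP_0430e4_lc.YE.J4

/-!
# SBx: the constants of stage B exist (owner helper66)
-/

set_option autoImplicit false

open Polynomial Finset

namespace Pool.Agent.Lib.MP_0430e4_lc.YP

open Complex
open BY AC YG

theorem KK_lt {η η1 : ℝ} (h : 0 < η) (h1 : 0 < η1) (ht : tp η1 < tp η) :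
    YE.KK η < YE.KK η1 := by
  have a1 : 0 < YE.tip η1 := YE.tip_pos h1
  have a2 : YE.tip η < 1 := YE.tip_lt_one h
  have a3 : YE.tip η1 < YE.tip η := ht
  rw [YE.KK_eq h, YE.KK_eq h1]
  set x := YE.tip η
  set y := YE.tip η1
  have hx : 0 < x := a1.trans a3
  have h2 : x + 1 / x < y + 1 / y := by
    rw [← sub_pos]
    have e : y + 1 / y - (x + 1 / x) = (x - y) * (1 - x * y) / (x * y) := by
      field_simp
      ring
    rw [e]
    apply div_pos _ (mul_pos hx a1)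
    apply mul_pos (by linarith)
    nlinarith
  have h3 : 0 < x + 1 / x := by positivity
  nlinarith

/-- stage B -/
theorem sb_exists {t : ℝ} (ht : 0 < t) {ρ1 w1 : ℝ} (hρ : 0 < ρ1) (hw : 0 < w1) :
    ∃ η1 w ρ τ b0 ab ab' k3 k3' θs C4 zN κk x2 gb : ℝ, ∃ N : ℕ, ∃ E : ℂ → ℂ, w ≤ w1 ∧
      SB t η1 ρ1 w ρ τ b0 ab ab' k3 k3' θs C4 zN κk x2 gb N E := by
  have hη : 0 < t / 2 := by linarith
  have htp := tp_pos hη
  have htp1 := tp_lt_one hη
  have hψ0 := psi0_pos ht
  have hψ1 := psi0_lt ht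
  -- the window
  obtain ⟨w0, τ0, hw0, hτ0, htip⟩ := tip_psi ht (ρ := ρ1 / 2) (by positivity)
  obtain ⟨w, hwdef⟩ : ∃ w : ℝ, w = min (min w0 w1) (min (psi0 t / 2) ((Real.pi / 2 - psi0 t) / 2)) :=
    ⟨_, rfl⟩
  have hwpos : 0 < w := by
    rw [hwdef]
    exact lt_min (lt_min hw0 hw) (lt_min (by linarith) (by linarith))
  have hww0 : w ≤ w0 := by rw [hwdef]; exact (min_le_left _ _).trans (min_le_left _ _)
  have hww1 : w ≤ w1 := by rw [hwdef]; exact (min_le_left _ _).trans (min_le_right _ _)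
  have hwψ : w ≤ psi0 t / 2 := by rw [hwdef]; exact (min_le_right _ _).trans (min_le_left _ _)
  have hwπ : w ≤ (Real.pi / 2 - psi0 t) / 2 := by
    rw [hwdef]; exact (min_le_right _ _).trans (min_le_right _ _)
  -- the second modulus
  have htan : Real.tan ((psi0 t - w) / 2) < tp (t / 2) := by
    rw [← tan_psi0 ht]
    apply Real.tan_lt_tan_of_nonneg_of_lt_pi_div_two <;> linarith
  obtain ⟨η1, hη1, htip2, htip1⟩ := tips hη (ε := tp (t / 2) - Real.tan ((psi0 t - w) / 2))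
    (by linarith)
  have hη1' : 0 < η1 := hη.trans hη1
  have hA1 : 0 < A0 η1 := A0_pos hη1'
  have hA : 0 < A0 (t / 2) := A0_pos hη
  obtain ⟨C4, hC4, hEP⟩ := exists_EP hη1'
  have hch : 0 ≤ Real.log (Real.cosh η1) := Real.log_nonneg (Real.one_le_cosh _)
  have hKK := KK_lt hη hη1' htip2
  obtain ⟨N1, hN1, hbR⟩ := YE.bR hη hη1' hKK (C := C4 + 3 * Real.log (Real.cosh η1))
    (by positivity)
  -- the order
  obtain ⟨j, hj⟩ := exists_nat_ge N1
  obtain ⟨N, hNdef⟩ : ∃ N : ℕ, N = 2 * (j + 1) := ⟨_, rfl⟩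
  have hNe : Even N := ⟨j + 1, by omega⟩
  have hNpos : 0 < N := by omega
  have hNN1 : N1 ≤ (N : ℝ) := by
    rw [hNdef]; push_cast
    have : (0 : ℝ) ≤ j := Nat.cast_nonneg j
    linarith
  have hNr : (0 : ℝ) < N := by exact_mod_cast hNpos
  obtain ⟨E, hEE⟩ := hEP N hNe
  obtain ⟨z0, hz0, hz01, hleft⟩ := hEE.left_gain hη1' hNpos (θ := 1 / 2) (by norm_num) (by norm_num)
  obtain ⟨κk, hκk, hlow⟩ := low_ex ht hη1' hNpos hEE
  obtain ⟨zN, hzNdef⟩ : ∃ zN : ℝ, zN = min z0 (tp (t / 2) / 2) := ⟨_, rfl⟩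
  have hzN : 0 < zN := by rw [hzNdef]; exact lt_min hz0 (by linarith)
  have hzN0 : zN ≤ z0 := by rw [hzNdef]; exact min_le_left _ _
  have hzNt : zN ≤ tp (t / 2) / 2 := by rw [hzNdef]; exact min_le_right _ _
  obtain ⟨x0, hx0, hx01, hg⟩ := gI_small ht hκk
  obtain ⟨x2, hx2def⟩ : ∃ x2 : ℝ, x2 = min x0 (zN / 2) := ⟨_, rfl⟩
  have hx2 : 0 < x2 := by rw [hx2def]; exact lt_min hx0 (by linarith)
  have hx2z : 2 * x2 ≤ zN := by
    have : x2 ≤ zN / 2 := by rw [hx2def]; exact min_le_right _ _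
    linarith
  have hx2x : x2 ≤ x0 := by rw [hx2def]; exact min_le_left _ _
  have hx21 : x2 ≤ 1 := by linarith
  obtain ⟨m0, hm0, hbR⟩ := hbR x2 hx2 hx21
  -- proportions
  have hηA : 0 < t / 2 * A0 (t / 2) := by positivity
  obtain ⟨θs, hθs⟩ : ∃ θs : ℝ, θs = m0 / (2 * (t / 2 * A0 (t / 2))) := ⟨_, rfl⟩
  have hθs0 : 0 < θs := by rw [hθs]; positivity
  obtain ⟨ab, hab⟩ : ∃ ab : ℝ, ab = (1 + m0) * (A0 η1 / (t / 2 * A0 (t / 2))) := ⟨_, rfl⟩
  have hab0 : 0 < ab := by rw [hab]; positivity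
  obtain ⟨ab', hab'⟩ : ∃ ab' : ℝ, ab' = A0 η1 * θs := ⟨_, rfl⟩
  have hab'0 : 0 < ab' := by rw [hab']; positivity
  have habc : A0 η1 * (1 / (t / 2 * A0 (t / 2)) + θs) < ab := by
    rw [hab, hθs]
    have e : (1 + m0) * (A0 η1 / (t / 2 * A0 (t / 2))) -
        A0 η1 * (1 / (t / 2 * A0 (t / 2)) + m0 / (2 * (t / 2 * A0 (t / 2)))) =
        A0 η1 * m0 / (2 * (t / 2 * A0 (t / 2))) := by
      field_simp
      ring
    have e2 : 0 < A0 η1 * m0 / (2 * (t / 2 * A0 (t / 2))) := by positivity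
    linarith
  obtain ⟨k3, hk3⟩ : ∃ k3 : ℝ, k3 = min m0 (ab' * tp (t / 2) ^ 2 / (4 * zN * A0 η1)) := ⟨_, rfl⟩
  have hk30 : 0 < k3 := by rw [hk3]; exact lt_min hm0 (by positivity)
  have hk3m : k3 ≤ m0 := by rw [hk3]; exact min_le_left _ _
  have hkz : 4 * k3 * zN * A0 η1 ≤ ab' * tp (t / 2) ^ 2 := by
    have h1 : k3 ≤ ab' * tp (t / 2) ^ 2 / (4 * zN * A0 η1) := by rw [hk3]; exact min_le_right _ _
    rw [le_div_iff₀ (by positivity)] at h1
    linarith
  -- the real axis inequality in the form of `SB`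
  have hreal : ∀ x : ℝ, x2 ≤ x → x ≤ 1 → -om (t / 2) x / (t / 2) +
      ab * (om η1 x + (C4 + 3 * Real.log (Real.cosh η1)) * x ^ 4 / N) +
        k3 * Real.log (1 + x ^ 2 / tp (t / 2) ^ 2) ≤ -m0 := by
    intro x h1 h2
    have h3 := hbR N m0 k3 hNN1 hm0.le le_rfl hk30.le hk3m x h1 h2
    rw [hab]
    exact h3
  -- the hole
  have hhE : 0 ≤ hE η1 N := by
    unfold hE
    positivity
  obtain ⟨b0, hb0⟩ : ∃ b0 : ℝ, b0 = Real.exp (-((ab * hE η1 N + 1) / (k3 / 2))) := ⟨_, rfl⟩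
  have hb00 : 0 < b0 := by rw [hb0]; exact Real.exp_pos _
  have hb01 : b0 < 1 := by
    rw [hb0, Real.exp_lt_one_iff, neg_lt_zero]
    positivity
  have hbh : ab * hE η1 N + k3 / 2 * Real.log b0 ≤ -1 := by
    rw [hb0, Real.log_exp]
    have : k3 / 2 * -((ab * hE η1 N + 1) / (k3 / 2)) = -(ab * hE η1 N + 1) := by
      field_simp
    linarith
  obtain ⟨r1, hr1, hhole⟩ := hole_ex ht hb00
  obtain ⟨g4, r4, hg4, hr4, hgap4⟩ := gap4 ht hwpos (by linarith)
  obtain ⟨g5, r5, hg5, hr5, hedge⟩ := edge1_ex ht hwpos (by linarith)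
  have hc := cval_lt_half ht
  obtain ⟨τ, hτdef⟩ : ∃ τ : ℝ, τ = min (min τ0 r1) (min (min r4 r5)
    (min 1 ((Real.log 2 / 2 - Exact.cval t) / 2))) := ⟨_, rfl⟩
  have hτ : 0 < τ := by
    rw [hτdef]
    exact lt_min (lt_min hτ0 hr1) (lt_min (lt_min hr4 hr5) (lt_min one_pos (by linarith)))
  have hττ0 : τ ≤ τ0 := by rw [hτdef]; exact (min_le_left _ _).trans (min_le_left _ _)
  have hτr1 : τ ≤ r1 := by rw [hτdef]; exact (min_le_left _ _).trans (min_le_right _ _)
  have hτr4 : τ ≤ r4 := by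
    rw [hτdef]; exact (min_le_right _ _).trans ((min_le_left _ _).trans (min_le_left _ _))
  have hτr5 : τ ≤ r5 := by
    rw [hτdef]; exact (min_le_right _ _).trans ((min_le_left _ _).trans (min_le_right _ _))
  have hτ1 : τ ≤ 1 := by
    rw [hτdef]; exact (min_le_right _ _).trans ((min_le_right _ _).trans (min_le_left _ _))
  have hτc : τ ≤ (Real.log 2 / 2 - Exact.cval t) / 2 := by
    rw [hτdef]; exact (min_le_right _ _).trans ((min_le_right _ _).trans (min_le_right _ _))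
  obtain ⟨gb, hgbdef⟩ : ∃ gb : ℝ, gb = min (min 1 m0) (min (min (g4 / 2) g5)
    ((Real.log 2 / 2 - Exact.cval t) / 2)) := ⟨_, rfl⟩
  have hgb : 0 < gb := by
    rw [hgbdef]
    exact lt_min (lt_min one_pos hm0) (lt_min (lt_min (by linarith) hg5) (by linarith))
  have hgb1 : gb ≤ 1 := by rw [hgbdef]; exact (min_le_left _ _).trans (min_le_left _ _)
  have hgbm : gb ≤ m0 := by rw [hgbdef]; exact (min_le_left _ _).trans (min_le_right _ _)
  have hgb4 : gb ≤ g4 / 2 := by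
    rw [hgbdef]; exact (min_le_right _ _).trans ((min_le_left _ _).trans (min_le_left _ _))
  have hgb5 : gb ≤ g5 := by
    rw [hgbdef]; exact (min_le_right _ _).trans ((min_le_left _ _).trans (min_le_right _ _))
  have hgbc : gb ≤ (Real.log 2 / 2 - Exact.cval t) / 2 := by
    rw [hgbdef]; exact (min_le_right _ _).trans (min_le_right _ _)
  refine ⟨η1, w, min r1 (w / 2), τ, b0, ab, ab', k3, k3 / 2, θs, C4, zN, κk, x2, gb, N, E, hww1, ?_⟩
  exact {
    ht := ht
    hη := hη1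
    hN := hNpos
    hEP := hEE
    hC4 := hC4
    hρ1 := hρ
    hw := hwpos
    hwψ := by linarith
    hwπ := by linarith
    tip1 := by linarith
    tip2 := htip2
    hρ := lt_min hr1 (by linarith)
    hρw := (min_le_right _ _).trans_lt (by linarith)
    hτ := hτ
    hτ1 := hτ1
    hτc := by linarith
    gap4 := fun s hs => by
      have := hgap4 s (hs.trans hτr4)
      linarith
    hb0 := hb00
    hb1 := hb01
    hole := hhole _ _ (min_le_left _ _) hτr1
    hab := hab0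
    hab' := hab'0
    hk3 := hk30
    hk3' := by linarith
    hk33 := by linarith
    hθ := hθs0
    hgb := hgb
    hgb1 := hgb1
    habc := habc
    habc' := hab'.le
    edge1 := fun s hs => (hedge s (hs.trans hτr5)).trans (Real.exp_le_exp.2 (by linarith))
    tipl := fun s φ hs hφ => htip s φ (hs.trans hττ0) (hφ.trans hww0)
    bm := by
      have h1 := hreal 1 hx21 le_rfl
      rw [Complex.ofReal_one] at h1
      rw [om_rim hη (by simp), om_rim hη1' (by simp)] at h1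
      have e1 : -(t / 2) / (t / 2) = -1 := by field_simp
      rw [e1] at h1
      have e2 : hE η1 N ≤ η1 + (C4 + 3 * Real.log (Real.cosh η1)) * 1 ^ 4 / N := by
        unfold hE
        rw [one_pow, mul_one, add_div]
        have : 0 ≤ C4 / N := by positivity
        linarith
      have e3 := mul_le_mul_of_nonneg_left e2 hab0.le
      rw [one_pow] at h1
      have e4 : (1 : ℝ) ^ 4 = 1 := one_pow 4
      linarith
    bh := by linarith
    bR := by
      intro x h1 h2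
      have h3 := hreal x h1 h2.le
      have hx : 0 ≤ x ^ 4 := by positivity
      have h4 : Real.log (1 + C4 * x ^ 4) ≤ C4 * x ^ 4 := by
        have := Real.log_le_sub_one_of_pos (show (0 : ℝ) < 1 + C4 * x ^ 4 by positivity)
        linarith
      have h5 : Real.log (1 + C4 * x ^ 4) / N ≤
          (C4 + 3 * Real.log (Real.cosh η1)) * x ^ 4 / N := by
        apply div_le_div_of_nonneg_right _ hNr.le
        refine h4.trans ?_
        apply mul_le_mul_of_nonneg_right _ hx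
        linarith
      have h6 := mul_le_mul_of_nonneg_left (add_le_add_right h5 (om η1 x)) hab0.le
      linarith
    hzN := hzN
    hzN1 := hzNt
    left := fun z hz hr => by
      have h1 := hleft z (hz.trans hzN0) hr
      refine h1.trans (le_of_eq ?_)
      congr 1
      field_simp
      ring
    kz := hkz
    hx2 := hx2
    hx2z := hx2z
    hxk := hg x2 hx2 hx2x
    low := hlow }

end Pool.Agent.Lib.MP_0430e4_lc.YP
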