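import Pool.Agent.Lib.MP_0430e4_lc.YP.Defs
import Pool.Agent.Lib.MP_0430e4_lc.AC.YLLT1
import Pool.Agent.Lib.MP_0430e4_lc.BY.P.N03

/-!
# W1: the cut at `k ≤ n / 2` (owner helper50)
-/

set_option autoImplicit false

open Finset Polynomial

namespace Pool.Agent.Lib.MP_0430e4_lc.YP

open BY AC YG

/-- size of the uncut function -/
noncomputable def full (F0 : ℂ → ℂ) (N0 n : ℕ) (u : ℂ) : ℝ :=
  if ‖1 - u‖ < ‖1 + u‖ then 2 ^ (n % N0) * bs F0 N0 u ^ (n / N0) else 0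

/-- the polynomial of the test function -/
noncomputable def Gn (F0 : ℂ → ℂ) (N0 n : ℕ) : ℝ[X] := Gp n (n / 2) (cn F0 N0 n)

theorem cof_eq : cof = llt_tco := rfl

theorem bs_nonneg (F0 : ℂ → ℂ) (N0 : ℕ) (u : ℂ) : 0 ≤ bs F0 N0 u := by
  unfold bs; positivity

theorem full_nonneg (F0 : ℂ → ℂ) (N0 n : ℕ) (u : ℂ) : 0 ≤ full F0 N0 n u := by
  unfold full
  have := bs_nonneg F0 N0 u
  split_ifs
  · positivity
  · exact le_rfl

theorem Fn_diff {F0 : ℂ → ℂ} (hd : DifferentiableOn ℂ F0 (Metric.ball 0 1)) (N0 n : ℕ) :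
    DifferentiableOn ℂ (Fn F0 N0 n) (Metric.ball 0 1) := by
  unfold Fn
  exact (hd.pow _).mul (by fun_prop)

theorem Fn_conj {F0 : ℂ → ℂ}
    (hr : ∀ z : ℂ, ‖z‖ < 1 → F0 (starRingEnd ℂ z) = starRingEnd ℂ (F0 z)) (N0 n : ℕ) :
    ∀ z : ℂ, ‖z‖ < 1 → Fn F0 N0 n (starRingEnd ℂ z) = starRingEnd ℂ (Fn F0 N0 n z) := by
  intro z hz
  unfold Fn
  rw [hr z hz, map_mul, map_pow, map_pow, map_add, map_one]

theorem Fn_norm_le {F0 : ℂ → ℂ} {M : ℝ} {z : ℂ} (hM : ‖F0 z‖ ≤ M) (hz : ‖z‖ < 1) (N0 n : ℕ) :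
    ‖Fn F0 N0 n z‖ ≤ M ^ (n / N0) * 2 ^ (n % N0) := by
  have h1 : ‖1 + z‖ ≤ 2 := by
    refine (norm_add_le _ _).trans ?_
    rw [norm_one]
    linarith
  unfold Fn
  rw [norm_mul, norm_pow, norm_pow]
  exact mul_le_mul (pow_le_pow_left₀ (norm_nonneg _) hM _)
    (pow_le_pow_left₀ (norm_nonneg _) h1 _) (by positivity)
    (pow_nonneg ((norm_nonneg _).trans hM) _)

theorem Fn_circle (F0 : ℂ → ℂ) (N0 n : ℕ) {u : ℂ} (hu : 1 + u ≠ 0) :
    ‖1 + u‖ ^ n * ‖Fn F0 N0 n (zu u)‖ = 2 ^ (n % N0) * bs F0 N0 u ^ (n / N0) := by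
  have h1 : ‖1 + u‖ * ‖1 + zu u‖ = 2 := by
    rw [← norm_mul]
    have : (1 + u) * (1 + zu u) = 2 := by
      unfold zu
      field_simp
      ring
    rw [this]; simp
  have h2 : ‖1 + u‖ ^ n = (‖1 + u‖ ^ N0) ^ (n / N0) * ‖1 + u‖ ^ (n % N0) := by
    rw [← pow_mul, ← pow_add, Nat.div_add_mod]
  unfold Fn bs
  rw [norm_mul, norm_pow, norm_pow, h2, mul_pow, ← h1, mul_pow]
  ring

/-- Cauchy bounds of the coefficients -/
theorem cn_bound {F0 : ℂ → ℂ} {N0 : ℕ} (hN : 0 < N0)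
    (hd : DifferentiableOn ℂ F0 (Metric.ball 0 1))
    (hc : ∀ z : ℂ, ‖z‖ < 1 → F0 (starRingEnd ℂ z) = starRingEnd ℂ (F0 z)) {B x : ℝ}
    (hx : 0 < x) (hx1 : x < 1) (hB : 0 ≤ B) (hm : ∀ z : ℂ, ‖z‖ = x → ‖F0 z‖ ≤ B) (n k : ℕ) :
    |cn F0 N0 n k| * x ^ k ≤ B ^ (n / N0) * 2 ^ (n % N0) := by
  have hDF := Fn_diff hd N0 n
  have h1 : DiffContOnCl ℂ (Fn F0 N0 n) (Metric.ball 0 x) := by
    apply DifferentiableOn.diffContOnCl
    rw [closure_ball _ hx.ne']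
    exact hDF.mono (Metric.closedBall_subset_ball hx1)
  have h2 := Complex.norm_iteratedDeriv_le_of_forall_mem_sphere_norm_le k hx h1
    (C := B ^ (n / N0) * 2 ^ (n % N0)) (by
      intro z hz
      rw [mem_sphere_zero_iff_norm] at hz
      exact Fn_norm_le (hm z hz) (by rw [hz]; exact hx1) N0 n)
  have hk : (0 : ℝ) < (k.factorial : ℝ) := by exact_mod_cast Nat.factorial_pos k
  have hxk : 0 < x ^ k := pow_pos hx k
  have h4 : |cn F0 N0 n k| ≤ ‖iteratedDeriv k (Fn F0 N0 n) 0‖ / (k.factorial : ℝ) := by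
    unfold cn cof
    rw [abs_div, abs_of_pos hk]
    exact div_le_div_of_nonneg_right (Complex.abs_re_le_norm _) hk.le
  have h5 : |cn F0 N0 n k| ≤ B ^ (n / N0) * 2 ^ (n % N0) / x ^ k := by
    refine h4.trans ?_
    rw [div_le_iff₀ hk]
    refine h2.trans (le_of_eq ?_)
    ring
  rwa [le_div_iff₀ hxk] at h5

theorem cn_zero {F0 : ℂ → ℂ} {N0 : ℕ} (h0 : F0 0 = 1) (n : ℕ) : cn F0 N0 n 0 = 1 := by
  unfold cn cof Fn
  rw [iteratedDeriv_zero, h0]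
  simp

/-- power series of `Fn` -/
theorem cn_hasSum {F0 : ℂ → ℂ} {N0 : ℕ}
    (hd : DifferentiableOn ℂ F0 (Metric.ball 0 1))
    (hc : ∀ z : ℂ, ‖z‖ < 1 → F0 (starRingEnd ℂ z) = starRingEnd ℂ (F0 z)) (n : ℕ) {z : ℂ}
    (hz : ‖z‖ < 1) : HasSum (fun k => (cn F0 N0 n k : ℂ) * z ^ k) (Fn F0 N0 n z) :=
  llt_tco_hasSum (Fn_diff hd N0 n) (Fn_conj hc N0 n) hz

theorem cn_abs_le {F0 : ℂ → ℂ} {N0 : ℕ} (hN : 0 < N0)
    (hd : DifferentiableOn ℂ F0 (Metric.ball 0 1))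
    (hc : ∀ z : ℂ, ‖z‖ < 1 → F0 (starRingEnd ℂ z) = starRingEnd ℂ (F0 z)) {B : ℝ}
    (hB : 0 ≤ B) (hm : ∀ z : ℂ, ‖z‖ < 1 → ‖F0 z‖ ≤ B) (n k : ℕ) :
    |cn F0 N0 n k| ≤ B ^ (n / N0) * 2 ^ (n % N0) := by
  have hmain : ∀ x : ℝ, 0 < x → x < 1 →
      |cn F0 N0 n k| * x ^ k ≤ B ^ (n / N0) * 2 ^ (n % N0) := fun x h0 h1 =>
    cn_bound hN hd hc h0 h1 hB (fun z hz => hm z (by rw [hz]; exact h1)) n k
  have hlim : Filter.Tendsto (fun x : ℝ => |cn F0 N0 n k| * x ^ k) (nhdsWithin 1 (Set.Iio 1))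
      (nhds (|cn F0 N0 n k| * 1 ^ k)) := by
    refine Filter.Tendsto.mono_left ?_ nhdsWithin_le_nhds
    exact (continuous_const.mul (continuous_pow k)).tendsto 1
  rw [one_pow, mul_one] at hlim
  refine le_of_tendsto hlim ?_
  filter_upwards [Ioo_mem_nhdsLT (zero_lt_one' ℝ)] with x hx
  exact hmain x hx.1 hx.2

/-- mass of the powers -/
theorem w1_mass {γ : ℝ} {N0 : ℕ} (hN : 0 < N0) (n : ℕ) :
    Real.exp (N0 * γ) ^ (n / N0) * 2 ^ (n % N0) ≤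
      2 ^ N0 * Real.exp (N0 * |γ|) * Real.exp (n * γ) := by
  have hr2 : (2 : ℝ) ^ (n % N0) ≤ 2 ^ N0 :=
    pow_le_pow_right₀ (by norm_num) (Nat.mod_lt n hN).le
  have h1 : Real.exp (N0 * γ) ^ (n / N0) ≤ Real.exp (N0 * |γ|) * Real.exp (n * γ) := by
    rw [← Real.exp_nat_mul, ← Real.exp_add]
    apply Real.exp_le_exp.mpr
    have h2 : (n : ℝ) = N0 * (n / N0 : ℕ) + (n % N0 : ℕ) := by
      exact_mod_cast (Nat.div_add_mod n N0).symm
    have h3 : ((n % N0 : ℕ) : ℝ) ≤ N0 := by exact_mod_cast (Nat.mod_lt n hN).le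
    have h4 : (0 : ℝ) ≤ ((n % N0 : ℕ) : ℝ) := Nat.cast_nonneg _
    have h5 : ((n / N0 : ℕ) : ℝ) * (N0 * γ) = n * γ - ((n % N0 : ℕ) : ℝ) * γ := by
      rw [h2]; push_cast; ring
    rw [h5]
    have h6 : -(((n % N0 : ℕ) : ℝ) * γ) ≤ N0 * |γ| := by
      have h7 : -γ ≤ |γ| := neg_le_abs γ
      calc -(((n % N0 : ℕ) : ℝ) * γ) = ((n % N0 : ℕ) : ℝ) * -γ := by ring
        _ ≤ ((n % N0 : ℕ) : ℝ) * |γ| := mul_le_mul_of_nonneg_left h7 h4
        _ ≤ _ := mul_le_mul_of_nonneg_right h3 (abs_nonneg _)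
    linarith
  calc Real.exp (N0 * γ) ^ (n / N0) * 2 ^ (n % N0)
      ≤ (Real.exp (N0 * |γ|) * Real.exp (n * γ)) * 2 ^ N0 :=
        mul_le_mul h1 hr2 (by positivity) (by positivity)
    _ = _ := by ring

theorem w1_sqrt (s φ : ℝ) (n : ℕ) :
    Real.sqrt ‖1 - up s φ ^ 2‖ ^ n ≤ Real.exp (n * (Real.log (1 + Real.exp (2 * s)) / 2)) := by
  have h1 : ‖1 - up s φ ^ 2‖ ≤ 1 + Real.exp (2 * s) := by
    refine (norm_sub_le _ _).trans ?_
    rw [norm_one, norm_pow, norm_up, ← Real.exp_nat_mul]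
    push_cast
    exact le_rfl
  have h2 : Real.sqrt (1 + Real.exp (2 * s)) = Real.exp (Real.log (1 + Real.exp (2 * s)) / 2) := by
    have h3 : 0 < 1 + Real.exp (2 * s) := by positivity
    rw [Real.sqrt_eq_rpow, Real.rpow_def_of_pos h3]
    congr 1; ring
  rw [Real.exp_nat_mul, ← h2]
  exact pow_le_pow_left₀ (Real.sqrt_nonneg _) (Real.sqrt_le_sqrt h1) n

/-- `n ≤ 1` -/
theorem w1_small (s φ : ℝ) {n : ℕ} (hn : n < 2) :
    ‖1 + up s φ‖ ^ n ≤ 2 * Real.exp (n * (Real.log (1 + Real.exp (2 * s)) / 2)) := by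
  have h3 : 0 < 1 + Real.exp (2 * s) := by positivity
  have h4 : ‖1 + up s φ‖ ≤ 2 * Real.exp (Real.log (1 + Real.exp (2 * s)) / 2) := by
    have h5 : ‖1 + up s φ‖ ≤ 1 + Real.exp s := by
      refine (norm_add_le _ _).trans ?_
      rw [norm_one, norm_up]
    refine h5.trans ?_
    apply le_of_sq_le_sq _ (by positivity)
    rw [mul_pow, ← Real.exp_nat_mul]
    have h6 : ((2 : ℕ) : ℝ) * (Real.log (1 + Real.exp (2 * s)) / 2) =
        Real.log (1 + Real.exp (2 * s)) := by push_cast; ring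
    rw [h6, Real.exp_log h3]
    have h7 : Real.exp (2 * s) = Real.exp s ^ 2 := by rw [← Real.exp_nat_mul]; push_cast; rfl
    rw [h7]
    nlinarith [sq_nonneg (1 - Real.exp s), Real.exp_pos s, sq_nonneg (Real.exp s)]
  interval_cases n
  · simp
  · simpa using h4

theorem gn_bound {F0 : ℂ → ℂ} {N0 : ℕ} {μ g : ℝ} (hN : 0 < N0)
    (hd : DifferentiableOn ℂ F0 (Metric.ball 0 1))
    (hc : ∀ z : ℂ, ‖z‖ < 1 → F0 (starRingEnd ℂ z) = starRingEnd ℂ (F0 z)) (hg : 0 < g)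
    (hm : ∀ z : ℂ, ‖z‖ < 1 → ‖F0 z‖ ≤ Real.exp (N0 * (μ - g))) :
    ∃ K : ℝ, 0 ≤ K ∧ ∀ (n : ℕ) (s φ : ℝ), ‖(Gn F0 N0 n).aeval (up s φ)‖ ≤
      full F0 N0 n (up s φ) +
        K * (n + 1) * Real.exp (n * (Real.log (1 + Real.exp (2 * s)) / 2 + μ - g / 2)) := by
  set γ : ℝ := μ - g with hγ
  set K1 : ℝ := 2 ^ N0 * Real.exp (N0 * |γ|) with hK1
  have hK10 : 0 ≤ K1 := by positivity
  refine ⟨2 * K1, by positivity, fun n s φ => ?_⟩
  set E : ℝ := Real.exp (n * (Real.log (1 + Real.exp (2 * s)) / 2)) with hE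
  have hE0 : 0 < E := Real.exp_pos _
  set B : ℝ := Real.exp (N0 * γ) ^ (n / N0) * 2 ^ (n % N0) with hB
  have hB0 : 0 ≤ B := by positivity
  have hcoef : ∀ k, |cn F0 N0 n k| ≤ B := fun k =>
    cn_abs_le hN hd hc (Real.exp_pos _).le hm n k
  have hBK : B ≤ K1 * Real.exp (n * γ) := w1_mass hN n
  have hfin : 2 * ((n : ℝ) + 1) * B * E ≤ 2 * K1 * (n + 1) *
      Real.exp (n * (Real.log (1 + Real.exp (2 * s)) / 2 + μ - g / 2)) := by
    have h1 : Real.exp (n * γ) * E ≤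
        Real.exp (n * (Real.log (1 + Real.exp (2 * s)) / 2 + μ - g / 2)) := by
      rw [hE, ← Real.exp_add]
      apply Real.exp_le_exp.mpr
      have hn0 : (0 : ℝ) ≤ n := Nat.cast_nonneg n
      have : n * (μ - g) ≤ n * (μ - g / 2) := mul_le_mul_of_nonneg_left (by linarith) hn0
      rw [hγ]
      linarith
    have h2 : 0 ≤ 2 * ((n : ℝ) + 1) := by positivity
    calc 2 * ((n : ℝ) + 1) * B * E ≤ 2 * (n + 1) * (K1 * Real.exp (n * γ)) * E := by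
          apply mul_le_mul_of_nonneg_right _ hE0.le
          exact mul_le_mul_of_nonneg_left hBK h2
      _ = 2 * K1 * (n + 1) * (Real.exp (n * γ) * E) := by ring
      _ ≤ _ := mul_le_mul_of_nonneg_left h1 (by positivity)
  have hfull := full_nonneg F0 N0 n (up s φ)
  rcases lt_or_ge n 2 with hn | hn
  · -- `n ≤ 1`
    have h1 : ‖(Gn F0 N0 n).aeval (up s φ)‖ ≤ B * ‖1 + up s φ‖ ^ n := by
      have h2 : n / 2 = 0 := by omega
      unfold Gn Gp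
      rw [h2, zero_add, range_one, sum_singleton, pow_zero, one_mul, Nat.sub_zero, map_mul, map_pow,
        map_add, map_one, aeval_X, aeval_C, norm_mul, norm_pow]
      apply mul_le_mul_of_nonneg_right _ (by positivity)
      have := hcoef 0
      simpa using this
    have h3 := w1_small s φ hn
    have h4 : B * ‖1 + up s φ‖ ^ n ≤ 2 * ((n : ℝ) + 1) * B * E := by
      have h5 : B * ‖1 + up s φ‖ ^ n ≤ B * (2 * E) := mul_le_mul_of_nonneg_left h3 hB0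
      have h6 : (0 : ℝ) ≤ n := Nat.cast_nonneg n
      have h7 : 0 ≤ n * (B * E) := by positivity
      nlinarith
    linarith
  · obtain ⟨h1, h2⟩ := Gp_bound hn (cn F0 N0 n) hcoef (Fn F0 N0 n)
      (fun z hz => cn_hasSum hd hc n hz) (up s φ)
    have h3 := w1_sqrt s φ n
    have h6 : 0 ≤ 2 * ((n : ℝ) + 1) * B := by positivity
    have h7 := mul_le_mul_of_nonneg_left h3 h6
    by_cases h : ‖1 - up s φ‖ < ‖1 + up s φ‖
    · have h8 := h1 h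
      have hu : 1 + up s φ ≠ 0 := norm_pos_iff.mp (lt_of_le_of_lt (norm_nonneg _) h)
      rw [Fn_circle F0 N0 n hu] at h8
      have h9 : full F0 N0 n (up s φ) = 2 ^ (n % N0) * bs F0 N0 (up s φ) ^ (n / N0) := by
        unfold full; rw [if_pos h]
      rw [h9]
      unfold Gn
      linarith
    · have h8 := h2 (not_lt.mp h)
      unfold Gn
      linarith

end Pool.Agent.Lib.MP_0430e4_lc.YP
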