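import Pool.Agent.Lib.MP_0430e4_lc.YP.W1

/-!
# WK: the fields of `WOK` from `Base`
-/

set_option autoImplicit false

open Finset Polynomial

namespace Pool.Agent.Lib.MP_0430e4_lc.YP

open BY AC YG

private theorem wk_exp_small (C θ : ℝ) (hθ : 0 < θ) :
    ∃ n1 : ℕ, ∀ n : ℕ, n1 ≤ n → C * (n + 1) * Real.exp (-(θ * n)) ≤ 1 / 2 := by
  have h1 : Filter.Tendsto (fun x : ℝ => (x ^ 1 * Real.exp (-θ * x))) Filter.atTop (nhds 0) := by
    have := Real.tendsto_pow_mul_exp_neg_atTop_nhds_zero 1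
    have h2 := (this.comp (Filter.tendsto_id.const_mul_atTop hθ)).const_mul (1 / θ)
    rw [mul_zero] at h2
    refine h2.congr fun x => ?_
    simp only [Function.comp_apply, id]
    have : θ ≠ 0 := hθ.ne'
    field_simp
  have h0 : Filter.Tendsto (fun x : ℝ => Real.exp (-θ * x)) Filter.atTop (nhds 0) := by
    have := Real.tendsto_exp_neg_atTop_nhds_zero.comp (Filter.tendsto_id.const_mul_atTop hθ)
    refine this.congr fun x => ?_
    simp only [Function.comp_apply, id]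
    ring_nf
  have h3 : Filter.Tendsto (fun x : ℝ => C * (x ^ 1 * Real.exp (-θ * x) + Real.exp (-θ * x))) Filter.atTop (nhds 0) := by
    have := (h1.add h0).const_mul C
    simpa using this
  have h4 := (h3.comp tendsto_natCast_atTop_atTop).eventually (ge_mem_nhds (by norm_num : (0 : ℝ) < 1 / 2))
  obtain ⟨n1, hn1⟩ := Filter.eventually_atTop.1 h4
  refine ⟨n1, fun n hn => le_trans (le_of_eq ?_) (hn1 n hn)⟩
  simp only [Function.comp_apply, pow_one, neg_mul]
  ring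

/-- one point: from the bound of `bs` and the cut to the bound of `G` -/
private theorem wk_core {F0 : ℂ → ℂ} {N0 : ℕ} {μ g K : ℝ} (hN : 0 < N0) (hK : 0 ≤ K)
    (hb : ∀ (n : ℕ) (s φ : ℝ), ‖(Gn F0 N0 n).aeval (up s φ)‖ ≤
      full F0 N0 n (up s φ) +
        K * (n + 1) * Real.exp (n * (Real.log (1 + Real.exp (2 * s)) / 2 + μ - g / 2)))
    (hg : 0 < g) (B θ : ℝ) (hB : 0 ≤ B) (hθ : 0 < θ) :
    ∃ n1 : ℕ, ∀ n : ℕ, n1 ≤ n → ∀ (s φ X T : ℝ),
      (‖1 + up s φ‖ ≤ ‖1 - up s φ‖ ∨ bs F0 N0 (up s φ) ≤ Real.exp (N0 * X)) → |X| ≤ B → X + θ ≤ T →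
      Real.log (1 + Real.exp (2 * s)) / 2 + μ ≤ T →
      ‖(Gn F0 N0 n).aeval (up s φ)‖ ≤ Real.exp (n * T) := by
  set C0 : ℝ := 2 ^ N0 * Real.exp (N0 * B) with hC0
  have hC0' : 0 ≤ C0 := by positivity
  obtain ⟨n1, h1⟩ := wk_exp_small C0 θ hθ
  obtain ⟨n2, h2⟩ := wk_exp_small K (g / 2) (by positivity)
  refine ⟨max n1 n2, ?_⟩
  intro n hn s φ X T hX hXB hXT hT
  have hn0 : (0 : ℝ) ≤ n := Nat.cast_nonneg n
  have e1 : full F0 N0 n (up s φ) ≤ Real.exp (n * T) / 2 := by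
    unfold full
    split_ifs with hlt
    · have hbs : bs F0 N0 (up s φ) ≤ Real.exp (N0 * X) := by
        rcases hX with h | h
        · exact absurd hlt (not_lt.2 h)
        · exact h
      have hbs0 : 0 ≤ bs F0 N0 (up s φ) := by
        unfold bs
        positivity
      have e2 : bs F0 N0 (up s φ) ^ (n / N0) ≤ Real.exp (N0 * X) ^ (n / N0) := pow_le_pow_left₀ hbs0 hbs _
      have e3 : Real.exp (N0 * X) ^ (n / N0) = Real.exp (n * X) * Real.exp (-((n % N0 : ℕ) : ℝ) * X) := by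
        rw [← Real.exp_nat_mul, ← Real.exp_add]
        congr 1
        have h := Nat.div_add_mod n N0
        have h' : ((n : ℕ) : ℝ) = N0 * ((n / N0 : ℕ) : ℝ) + ((n % N0 : ℕ) : ℝ) := by
          conv_lhs => rw [← h]
          push_cast
          ring
        rw [h']
        ring
      have hr : n % N0 ≤ N0 := (Nat.mod_lt n hN).le
      have hr' : ((n % N0 : ℕ) : ℝ) ≤ N0 := by exact_mod_cast hr
      have hr0 : (0 : ℝ) ≤ ((n % N0 : ℕ) : ℝ) := Nat.cast_nonneg _
      have e4 : Real.exp (-((n % N0 : ℕ) : ℝ) * X) ≤ Real.exp (N0 * B) := by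
        apply Real.exp_le_exp.2
        have h5 := abs_le.1 hXB
        calc -((n % N0 : ℕ) : ℝ) * X = ((n % N0 : ℕ) : ℝ) * (-X) := by ring
          _ ≤ ((n % N0 : ℕ) : ℝ) * B := mul_le_mul_of_nonneg_left (by linarith) hr0
          _ ≤ N0 * B := mul_le_mul_of_nonneg_right hr' hB
      have e5 : (2 : ℝ) ^ (n % N0) ≤ 2 ^ N0 := pow_le_pow_right₀ (by norm_num) hr
      have e6 : Real.exp (n * X) ≤ Real.exp (n * T) * Real.exp (-(θ * n)) := by
        rw [← Real.exp_add]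
        apply Real.exp_le_exp.2
        nlinarith
      have e7 : C0 * Real.exp (-(θ * n)) ≤ 1 / 2 := by
        refine le_trans ?_ (h1 n ((le_max_left _ _).trans hn))
        have : C0 * 1 ≤ C0 * (n + 1) := mul_le_mul_of_nonneg_left (by linarith) hC0'
        nlinarith [Real.exp_pos (-(θ * n))]
      calc 2 ^ (n % N0) * bs F0 N0 (up s φ) ^ (n / N0)
          ≤ 2 ^ N0 * (Real.exp (n * X) * Real.exp (-((n % N0 : ℕ) : ℝ) * X)) :=
            mul_le_mul e5 (e2.trans e3.le) (pow_nonneg hbs0 _) (by positivity)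
        _ ≤ 2 ^ N0 * ((Real.exp (n * T) * Real.exp (-(θ * n))) * Real.exp (N0 * B)) := by
            apply mul_le_mul_of_nonneg_left _ (by positivity)
            exact mul_le_mul e6 e4 (Real.exp_pos _).le (by positivity)
        _ = Real.exp (n * T) * (C0 * Real.exp (-(θ * n))) := by rw [hC0]; ring
        _ ≤ Real.exp (n * T) * (1 / 2) := mul_le_mul_of_nonneg_left e7 (Real.exp_pos _).le
        _ = Real.exp (n * T) / 2 := by ring
    · positivity
  have e8 : K * (n + 1) * Real.exp (n * (Real.log (1 + Real.exp (2 * s)) / 2 + μ - g / 2)) ≤ Real.exp (n * T) / 2 := by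
    have e9 : Real.exp (n * (Real.log (1 + Real.exp (2 * s)) / 2 + μ - g / 2)) ≤ Real.exp (n * T) * Real.exp (-(g / 2 * n)) := by
      rw [← Real.exp_add]
      apply Real.exp_le_exp.2
      nlinarith
    have e10 := h2 n ((le_max_right _ _).trans hn)
    calc K * (n + 1) * Real.exp (n * (Real.log (1 + Real.exp (2 * s)) / 2 + μ - g / 2))
        ≤ K * (n + 1) * (Real.exp (n * T) * Real.exp (-(g / 2 * n))) :=
          mul_le_mul_of_nonneg_left e9 (by positivity)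
      _ = Real.exp (n * T) * (K * (n + 1) * Real.exp (-(g / 2 * n))) := by ring
      _ ≤ Real.exp (n * T) * (1 / 2) := mul_le_mul_of_nonneg_left e10 (Real.exp_pos _).le
      _ = Real.exp (n * T) / 2 := by ring
  calc ‖(Gn F0 N0 n).aeval (up s φ)‖ ≤ _ := hb n s φ
    _ ≤ Real.exp (n * T) / 2 + Real.exp (n * T) / 2 := add_le_add e1 e8
    _ = Real.exp (n * T) := by ring

private theorem wk_two (n : ℕ) (y : ℝ) : Real.exp (n * (Real.log 2 + y)) = 2 ^ n * Real.exp (n * y) := by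
  rw [mul_add, Real.exp_add, Real.exp_nat_mul, Real.exp_log (by norm_num)]

/-- `log (1 + e^{2 s}) / 2 ≤ log 2 / 2 + max s 0` -/
private theorem wk_log (s m : ℝ) (hs : s ≤ m) (hm : 0 ≤ m) : Real.log (1 + Real.exp (2 * s)) / 2 ≤ Real.log 2 / 2 + m := by
  have h1 : 1 + Real.exp (2 * s) ≤ 2 * Real.exp (2 * m) := by
    have e1 : Real.exp (2 * s) ≤ Real.exp (2 * m) := Real.exp_le_exp.2 (by linarith)
    have e2 : (1 : ℝ) ≤ Real.exp (2 * m) := Real.one_le_exp (by linarith)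
    linarith
  have h2 : Real.log (1 + Real.exp (2 * s)) ≤ Real.log (2 * Real.exp (2 * m)) :=
    Real.log_le_log (by positivity) h1
  rw [Real.log_mul (by norm_num) (Real.exp_pos _).ne', Real.log_exp] at h2
  linarith

private theorem wk_half (s φ : ℝ) (h : Real.cos φ ≤ 0) : ‖1 + up s φ‖ ≤ ‖1 - up s φ‖ := by
  have hre : (up s φ).re ≤ 0 := by
    unfold up
    rw [Complex.exp_re]
    simp only [Complex.add_re, Complex.ofReal_re, Complex.mul_re, Complex.I_re, mul_zero, Complex.ofReal_im, Complex.I_im,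
      mul_one, sub_self, add_zero, Complex.add_im, Complex.mul_im, zero_add]
    exact mul_nonpos_of_nonneg_of_nonpos (Real.exp_pos _).le h
  have h2 : ‖1 + up s φ‖ ^ 2 ≤ ‖1 - up s φ‖ ^ 2 := by
    rw [Complex.sq_norm, Complex.sq_norm, Complex.normSq_apply, Complex.normSq_apply]
    simp only [Complex.add_re, Complex.one_re, Complex.add_im, Complex.one_im, Complex.sub_re, Complex.sub_im]
    linarith
  exact le_of_sq_le_sq h2 (norm_nonneg _)
where
  le_of_sq_le_sq {a b : ℝ} (h : a ^ 2 ≤ b ^ 2) (hb : 0 ≤ b) : a ≤ b := by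
    by_contra hc
    nlinarith [not_le.1 hc]

theorem wok_of_base {t : ℝ} (ht : 0 < t) {F0 : ℂ → ℂ} {N0 : ℕ}
    {σ τ ηh κ e ρ1 p1 p2 p3 p4 κk x2 g : ℝ} (hη : 0 < ηh) (hρ : 0 < ρ1) (hρ1 : ρ1 < 1 / 8)
    (h1 : 0 ≤ p1) (h12 : p1 ≤ p2) (h23 : p2 ≤ p3) (h34 : p3 ≤ p4) (h4 : p4 < Real.pi / 2)
    (H : Base t F0 N0 σ τ ηh κ e ρ1 p1 p2 p3 p4 κk x2 g) :
    ∃ n1 : ℕ, ∀ n ≥ n1, WOK n (Gn F0 N0 n) (dl t) σ τ (2 * ηh) (κ / 2) (e / 2) (1 / 2 - ρ1)
      (1 / 2 + ρ1) p1 p2 p3 p4 := by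
  obtain ⟨K, hK, hb⟩ := gn_bound H.N0pos H.diff H.conj H.hg H.mass
  set μ := Exact.cval t with hμ
  have hκ := H.hκ
  have he := H.he
  have hg := H.hg
  have hσ := H.hσ
  have hστ := H.hστ
  have hsm := H.hsmall
  rw [← hμ] at hsm
  have hτ : 0 < τ := by linarith
  have hl2 : 0 < Real.log 2 := Real.log_pos (by norm_num)
  -- the exponents
  set B : ℝ := Real.log 2 + |dl t| * σ + κ + τ * (1 / 2 + ρ1) + ηh + e with hB
  have hB0 : 0 ≤ B := by positivity
  obtain ⟨n1, hn1⟩ := wk_core H.N0pos hK hb hg B (min (κ / 2) (min ηh (e / 2))) hB0 (by positivity)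
  have m1 : min (κ / 2) (min ηh (e / 2)) ≤ κ / 2 := min_le_left _ _
  have m2 : min (κ / 2) (min ηh (e / 2)) ≤ ηh := (min_le_right _ _).trans (min_le_left _ _)
  have m3 : min (κ / 2) (min ηh (e / 2)) ≤ e / 2 := (min_le_right _ _).trans (min_le_right _ _)
  have hd1 : -(|dl t| * σ) ≤ σ * dl t := by nlinarith [neg_abs_le (dl t)]
  have hd2 : σ * dl t ≤ |dl t| * σ := by nlinarith [le_abs_self (dl t)]
  have hd0 : 0 ≤ |dl t| * σ := by positivity
  have hτρ : 0 ≤ τ * (1 / 2 + ρ1) := by positivity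
  have hdl : 0 ≤ σ * dl t := by
    have h5 := Exact.sI_lt_one ht
    have h6 : 0 ≤ dl t := by
      unfold dl
      linarith
    exact mul_nonneg hσ.le h6
  refine ⟨n1, fun n hn => ⟨?_, ?_, ?_, ?_, ?_⟩⟩
  · intro φ f1 f2 f3
    rw [← wk_two]
    refine hn1 n hn σ φ (Real.log 2 + σ * dl t - κ) _ ?_ ?_ ?_ ?_
    · by_cases hφ : φ < Real.pi / 2
      · exact Or.inr (H.far φ f1 hφ f3)
      · exact Or.inl (wk_half σ φ (Real.cos_nonpos_of_pi_div_two_le_of_le (not_lt.1 hφ) (by linarith [Real.pi_pos])))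
    · rw [abs_le]
      constructor <;> linarith
    · linarith
    · have := wk_log σ σ le_rfl hσ.le
      linarith
  · intro φ f1
    rw [← wk_two]
    have hφ : p1 ≤ φ ∧ φ ≤ p4 := by
      rcases f1 with h | h
      · exact ⟨h.1, by linarith [h.2]⟩
      · exact ⟨by linarith [h.1], h.2⟩
    refine hn1 n hn σ φ (Real.log 2 + ηh) _ (Or.inr (H.arc φ hφ.1 hφ.2)) ?_ ?_ ?_
    · rw [abs_le]
      constructor <;> linarith
    · linarith
    · have := wk_log σ σ le_rfl hσ.le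
      linarith
  · intro φ f1
    rw [← wk_two]
    have hφ : p1 ≤ φ ∧ φ ≤ p4 := by
      rcases f1 with h | h
      · exact ⟨h.1, by linarith [h.2]⟩
      · exact ⟨by linarith [h.1], h.2⟩
    refine hn1 n hn τ φ (Real.log 2 + τ * (1 / 2 + ρ1) + ηh) _ (Or.inr (H.out φ hφ.1 hφ.2)) ?_ ?_ ?_
    · rw [abs_le]
      constructor <;> linarith
    · linarith
    · have := wk_log τ τ le_rfl hτ.le
      linarith
  · intro φ f1
    rw [← wk_two]
    have hφ : p1 ≤ φ ∧ φ ≤ p4 := by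
      rcases f1 with h | h
      · exact ⟨h.1, by linarith [h.2]⟩
      · exact ⟨by linarith [h.1], h.2⟩
    refine hn1 n hn (-τ) φ (Real.log 2 - τ * (1 / 2 - ρ1) + ηh) _ (Or.inr (H.inn φ hφ.1 hφ.2)) ?_ ?_ ?_
    · rw [abs_le]
      constructor <;> nlinarith
    · linarith
    · have := wk_log (-τ) 0 (by linarith) le_rfl
      linarith
  · intro s φ s1 s2 f1
    rw [← wk_two]
    have hmx : max (s * (1 / 2 - ρ1)) (s * (1 / 2 + ρ1)) ≤ τ * (1 / 2 + ρ1) := by
      apply max_le <;> nlinarith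
    have hmn : s * (1 / 2 - ρ1) ≤ max (s * (1 / 2 - ρ1)) (s * (1 / 2 + ρ1)) := le_max_left _ _
    have hmn2 : -(τ * (1 / 2 + ρ1)) ≤ max (s * (1 / 2 - ρ1)) (s * (1 / 2 + ρ1)) := by
      refine le_trans ?_ (le_max_right _ _)
      nlinarith
    have hmn3 : -τ ≤ max (s * (1 / 2 - ρ1)) (s * (1 / 2 + ρ1)) := by
      refine le_trans ?_ hmn
      nlinarith
    refine hn1 n hn s φ (Real.log 2 + max (s * (1 / 2 - ρ1)) (s * (1 / 2 + ρ1)) - e) _
      (Or.inr (H.edge s φ s1 s2 f1)) ?_ ?_ ?_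
    · rw [abs_le]
      constructor <;> linarith
    · linarith
    · rcases le_total 0 s with h | h
      · have := wk_log s τ s2 hτ.le
        have h0 : 0 ≤ max (s * (1 / 2 - ρ1)) (s * (1 / 2 + ρ1)) := by
          refine le_trans ?_ hmn
          nlinarith
        linarith
      · have := wk_log s 0 h le_rfl
        linarith

end Pool.Agent.Lib.MP_0430e4_lc.YP
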